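import Mathlib

open Set Filter Topology Function
open scoped Manifold ContDiff

namespace Pool.Agent.MP_4d76c1_gt

abbrev E3 : Type := Fin 3 → ℝ
abbrev Z3 : Type := Fin 3 → ℤ

/-- lattice vector -/
def cv (k : Z3) : E3 := fun i => (k i : ℝ)

@[simp] lemma cv_apply (k : Z3) (i : Fin 3) : cv k i = (k i : ℝ) := rfl
lemma cv_add (k l : Z3) : cv (k + l) = cv k + cv l := by ext i; simp
lemma cv_sub (k l : Z3) : cv (k - l) = cv k - cv l := by ext i; simp
lemma cv_neg (k : Z3) : cv (-k) = -cv k := by ext i; simp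
@[simp] lemma cv_zero : cv 0 = 0 := by ext i; simp

lemma finite_cv_norm_le (R : ℝ) : {k : Z3 | ‖cv k‖ ≤ R}.Finite := by
  obtain ⟨N, hN⟩ := exists_nat_ge R
  refine (Set.finite_Icc (fun _ => -(N : ℤ)) (fun _ => (N : ℤ))).subset ?_
  intro k hk
  have h : ∀ i, |(k i : ℝ)| ≤ N := fun i => by
    have := norm_le_pi_norm (cv k) i
    simp only [cv_apply, Real.norm_eq_abs] at this
    exact this.trans (le_trans hk hN)
  constructor
  · intro i
    have := (abs_le.1 (h i)).1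
    show -(N : ℤ) ≤ k i
    exact_mod_cast this
  · intro i
    have := (abs_le.1 (h i)).2
    show k i ≤ (N : ℤ)
    exact_mod_cast this

lemma locallyFinite_translates {s : Z3 → Set E3} {R : ℝ}
    (hs : ∀ k, ∀ y ∈ s k, ‖y - cv k‖ ≤ R) : LocallyFinite s := by
  intro x
  refine ⟨Metric.ball x 1, Metric.ball_mem_nhds x one_pos, ?_⟩
  refine (finite_cv_norm_le (‖x‖ + 1 + R)).subset ?_
  rintro k ⟨y, hy, hyx⟩
  have h1 := hs k y hy
  have h2 : ‖y - x‖ < 1 := by simpa [dist_eq_norm] using hyx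
  have : cv k = x + (y - x) - (y - cv k) := by abel
  show ‖cv k‖ ≤ _
  rw [this]
  calc ‖x + (y - x) - (y - cv k)‖ ≤ ‖x + (y - x)‖ + ‖y - cv k‖ := norm_sub_le _ _
    _ ≤ ‖x‖ + ‖y - x‖ + ‖y - cv k‖ := by gcongr; exact norm_add_le _ _
    _ ≤ _ := by linarith

/-- floor of a point -/
noncomputable def fl (x : E3) : Z3 := fun i => ⌊x i⌋

lemma norm_sub_fl (x : E3) : ‖x - cv (fl x)‖ ≤ 1 := by
  refine (pi_norm_le_iff_of_nonneg zero_le_one).2 fun i => ?_
  simp only [Pi.sub_apply, cv_apply, fl, Real.norm_eq_abs]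
  have h1 := Int.floor_le (x i)
  have h2 := Int.lt_floor_add_one (x i)
  rw [abs_le]; constructor <;> linarith

lemma contDiff_finsum' {ι F : Type*} [NormedAddCommGroup F] [NormedSpace ℝ F]
    {f : ι → E3 → F} (hf : ∀ i, ContDiff ℝ ∞ (f i))
    (hl : LocallyFinite fun i => support (f i)) : ContDiff ℝ ∞ fun x => ∑ᶠ i, f i x := by
  rw [← contMDiff_iff_contDiff]
  exact contMDiff_finsum (fun i => (hf i).contMDiff) hl

lemma exists_periodic_partition : ∃ β : E3 → ℝ, ContDiff ℝ ∞ β ∧ (∀ x, 0 ≤ β x) ∧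
    (∀ x, β x ≠ 0 → ‖x‖ ≤ 2) ∧ ∀ x, ∑ᶠ k : Z3, β (x - cv k) = 1 := by
  obtain ⟨φ, hs, hφ, hr⟩ :=
    (Metric.isOpen_ball (x := (0 : E3)) (ε := 2)).exists_contDiff_support_eq (n := ⊤)
  have h0 : ∀ x, 0 ≤ φ x := fun x => (hr (mem_range_self x)).1
  have hsupp : ∀ x, φ x ≠ 0 → ‖x‖ ≤ 2 := fun x hx => by
    have : x ∈ support φ := hx
    rw [hs] at this
    simpa using (mem_ball_zero_iff.1 this).le
  have hlf : LocallyFinite fun k : Z3 => support fun x => φ (x - cv k) :=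
    locallyFinite_translates (R := 2) fun k y hy => hsupp _ hy
  let Φ : E3 → ℝ := fun x => ∑ᶠ k : Z3, φ (x - cv k)
  have hΦ : ContDiff ℝ ∞ Φ :=
    contDiff_finsum' (fun k => hφ.comp (contDiff_id.sub contDiff_const)) hlf
  have hpos : ∀ x, 0 < Φ x := fun x => by
    have hfin : (support fun k : Z3 => φ (x - cv k)).Finite := hlf.point_finite x
    refine finsum_pos (fun k => h0 _) ⟨fl x, ?_⟩ hfin
    have : x - cv (fl x) ∈ support φ := by
      rw [hs, mem_ball_zero_iff]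
      exact (norm_sub_fl x).trans_lt (by norm_num)
    exact lt_of_le_of_ne (h0 _) (Ne.symm this)
  have hper : ∀ x (k : Z3), Φ (x - cv k) = Φ x := fun x k => by
    show ∑ᶠ l : Z3, φ (x - cv k - cv l) = ∑ᶠ l : Z3, φ (x - cv l)
    rw [← finsum_comp_equiv (Equiv.addLeft k) (f := fun l : Z3 => φ (x - cv l))]
    refine finsum_congr fun l => ?_
    simp only [Equiv.coe_addLeft, cv_add, sub_sub]
  refine ⟨fun x => φ x * (Φ x)⁻¹, hφ.mul (hΦ.inv fun x => (hpos x).ne'), fun x => ?_,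
    fun x hx => hsupp x (left_ne_zero_of_mul hx), fun x => ?_⟩
  · exact mul_nonneg (h0 x) (inv_nonneg.2 (hpos x).le)
  · simp only [hper]
    rw [← finsum_mul]
    exact mul_inv_cancel₀ (hpos x).ne'

lemma eventually_finsum_mem {ι F : Type*} [NormedAddCommGroup F] [NormedSpace ℝ F]
    {w : ι → E3 → ℝ} (hw0 : ∀ i x, 0 ≤ w i x) (hw1 : ∀ x, ∑ᶠ i, w i x = 1)
    (hlf : LocallyFinite fun i => support (w i)) {h : ι → E3 → F} {y : E3} {l : Filter E3}
    (hl : l ≤ 𝓝 y) {C : E3 → Set F} (hC : ∀ z, Convex ℝ (C z))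
    (hh : ∀ i, y ∈ tsupport (w i) → ∀ᶠ z in l, h i z ∈ C z) :
    ∀ᶠ z in l, ∑ᶠ i, w i z • h i z ∈ C z := by
  have hlf' : LocallyFinite fun i => tsupport (w i) := hlf.closure
  have hfin : {i | y ∈ tsupport (w i)}.Finite := hlf'.point_finite y
  have h1 : ∀ᶠ z in l, ∀ i ∈ {i | y ∈ tsupport (w i)}, h i z ∈ C z :=
    (eventually_all_finite hfin).2 fun i hi => hh i hi
  have h2 := (hlf'.eventually_subset (fun i => isClosed_tsupport _) y).filter_mono hl
  filter_upwards [h1, h2] with z hz1 hz2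
  refine (hC z).finsum_mem (fun i => hw0 i z) (hw1 z) fun i hi => hz1 i (hz2 ?_)
  exact subset_tsupport _ hi

/-- Periodic gluing of local smooth solutions of germwise convex conditions. -/
theorem periodic_glue {F I : Type*} [NormedAddCommGroup F] [NormedSpace ℝ F]
    (l : E3 → Filter E3) (hl : ∀ y, l y ≤ 𝓝 y)
    (hlk : ∀ y (k : Z3), Tendsto (fun z => z - cv k) (l y) (l (y - cv k)))
    (S : I → Set E3) (C : I → E3 → Set F) (hC : ∀ a z, Convex ℝ (C a z))
    (hinv : ∀ (k : Z3) a, ∃ a', (∀ y ∈ S a, y - cv k ∈ S a') ∧ ∀ z, C a' (z - cv k) ⊆ C a z)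
    (hloc : ∀ x, ∃ g : E3 → F, ∀ᶠ y in 𝓝 x, ContDiffAt ℝ ∞ g y ∧
      ∀ a, y ∈ S a → ∀ᶠ z in l y, g z ∈ C a z) :
    ∃ g : E3 → F, ContDiff ℝ ∞ g ∧ (∀ x (k : Z3), g (x + cv k) = g x) ∧
      ∀ a, ∀ y ∈ S a, ∀ᶠ z in l y, g z ∈ C a z := by
  choose g hg using hloc
  let V : E3 → Set E3 := fun x => interior {y | ContDiffAt ℝ ∞ (g x) y ∧
      ∀ a, y ∈ S a → ∀ᶠ z in l y, g x z ∈ C a z}
  obtain ⟨ρ, hρ⟩ := SmoothPartitionOfUnity.exists_isSubordinate 𝓘(ℝ, E3) isClosed_univ V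
    (fun x => isOpen_interior) (fun x _ => mem_iUnion.2 ⟨x, mem_interior_iff_mem_nhds.2 (hg x)⟩)
  let g0 : E3 → F := fun z => ∑ᶠ x, ρ x z • g x z
  have hg0 : ContDiff ℝ ∞ g0 := by
    rw [← contMDiff_iff_contDiff]
    refine ρ.contMDiff_finsum_smul fun x y hy => ?_
    exact (interior_subset (hρ x hy)).1.contMDiffAt
  have hg0' : ∀ a, ∀ y ∈ S a, ∀ᶠ z in l y, g0 z ∈ C a z := fun a y hy =>
    eventually_finsum_mem (w := fun x z => ρ x z) (fun x z => ρ.nonneg x z)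
      (fun z => ρ.sum_eq_one (mem_univ z)) ρ.locallyFinite (hl y) (hC a)
      fun x hx => (interior_subset (hρ x hx)).2 a hy
  obtain ⟨β, hβ, hβ0, hβs, hβ1⟩ := exists_periodic_partition
  have hlf : LocallyFinite fun k : Z3 => support fun x => β (x - cv k) :=
    locallyFinite_translates (R := 2) fun k y hy => hβs _ hy
  refine ⟨fun z => ∑ᶠ k : Z3, β (z - cv k) • g0 (z - cv k), ?_, ?_, ?_⟩
  · refine contDiff_finsum' (fun k => ?_) (hlf.subset fun k => ?_)
    · exact (hβ.comp (contDiff_id.sub contDiff_const)).smul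
        (hg0.comp (contDiff_id.sub contDiff_const))
    · exact support_smul_subset_left _ _
  · intro x k
    show ∑ᶠ l : Z3, β (x + cv k - cv l) • g0 (x + cv k - cv l)
      = ∑ᶠ l : Z3, β (x - cv l) • g0 (x - cv l)
    rw [← finsum_comp_equiv (Equiv.addLeft k)
      (f := fun l : Z3 => β (x + cv k - cv l) • g0 (x + cv k - cv l))]
    refine finsum_congr fun l => ?_
    have : x + cv k - (cv k + cv l) = x - cv l := by abel
    simp only [Equiv.coe_addLeft, cv_add, this]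
  · intro a y hy
    refine eventually_finsum_mem (w := fun k z => β (z - cv k)) (fun k z => hβ0 _) hβ1 hlf (hl y)
      (hC a) fun k _ => ?_
    obtain ⟨a', ha1, ha2⟩ := hinv k a
    filter_upwards [(hlk y k).eventually (hg0' a' _ (ha1 y hy))] with z hz
    exact ha2 z hz

end Pool.Agent.MP_4d76c1_gt
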