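import Mathlib
import Pool.Agent.MP_4d76c1_gt.Glue

open Set Filter Topology Function

namespace Pool.Agent.MP_4d76c1_gt

/-- sign attached to a boolean -/
def sz : Bool → ℤ
  | true => 1
  | false => -1

abbrev Sgn : Type := Fin 3 → Bool

/-- integer multiple of a coordinate vector -/
def ev (i : Fin 3) (n : ℤ) : Z3 := Pi.single i n

/-- base point of the line of type `i` -/
noncomputable def bp (i : Fin 3) : E3 := Pi.single (i + 2) (1 / 2)

/-- the linear form with coefficients the signs `l` -/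
def dot (l : Sgn) (x : E3) : ℝ := ∑ r, (sz (l r) : ℝ) * x r

lemma dot_add (l : Sgn) (x y : E3) : dot l (x + y) = dot l x + dot l y := by
  simp [dot, mul_add, Finset.sum_add_distrib]

lemma dot_sub (l : Sgn) (x y : E3) : dot l (x - y) = dot l x - dot l y := by
  simp [dot, mul_sub, Finset.sum_sub_distrib]

lemma dot_ev (l : Sgn) (i : Fin 3) (n : ℤ) : dot l (cv (ev i n)) = (sz (l i) : ℝ) * n := by
  unfold dot
  rw [Finset.sum_eq_single i]
  · simp [ev]
  · intro b _ hb; simp [ev, hb]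
  · simp

lemma ev_add (i : Fin 3) (m n : ℤ) : ev i (m + n) = ev i m + ev i n := by
  simp [ev, Pi.single_add]

@[simp] lemma ev_zero (i : Fin 3) : ev i 0 = 0 := by simp [ev]

lemma sz_mul_self (b : Bool) : sz b * sz b = 1 := by cases b <;> rfl

lemma norm_bp_le (i : Fin 3) : ‖bp i‖ ≤ 1 / 2 := by
  rw [bp, Pi.norm_single]; norm_num

/-- isometric lines -/
def IsLine (D : E3 → E3 → ℝ) (c : ℝ → E3) : Prop := ∀ s t, D (c s) (c t) = |t - s|

/-- defect -/
def df (D : E3 → E3 → ℝ) (f : E3 → ℝ) (x y : E3) : ℝ := D x y - (f y - f x)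

structure MetData (D : E3 → E3 → ℝ) (u : Sgn → E3 → ℝ) (m M : ℝ) {B : Type} (Γ : B → Set E3) :
    Prop where
  symm : ∀ x y, D x y = D y x
  tri : ∀ x y z, D x z ≤ D x y + D y z
  mpos : 0 < m
  Mpos : 0 < M
  lower : ∀ x y, m * ‖y - x‖ ≤ D x y
  upper : ∀ x y, D x y ≤ M * ‖y - x‖
  per : ∀ x y k, D (x + cv k) (y + cv k) = D x y
  lip : ∀ l x y, u l y - u l x ≤ D x y
  uper : ∀ l x k, u l (x + cv k) = u l x + dot l (cv k)
  axis : ∀ i n, D (bp i) (bp i + cv (ev i n)) ≤ |(n : ℝ)|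
  hom : ∀ l i j, i ≠ j → ∀ η > 0, ∃ τ τ' : ℤ,
    df D (u l) (bp i + cv (ev i τ)) (bp i + cv (ev j (sz (l j)) + ev i τ')) < η
  het : ∀ l i j, i ≠ j → ∀ η > 0, ∃ τ τ' : ℤ,
    df D (u l) (bp i + cv (ev i τ)) (bp j + cv (ev j τ')) < η
  cal : ∀ l c, IsLine D c → (∀ s t, u l (c t) - u l (c s) = t - s) →
    ∃ b k, range c = (fun x => x + cv k) '' Γ b
  acc : ∀ b, ∃ i, ∀ η > 0, ∀ τ : ℤ, ∃ k, ∃ x ∈ Γ b, ∃ y ∈ Γ b,
    ‖x - (bp i + cv k)‖ < η ∧ ‖y - (bp i + cv (k + ev i τ))‖ < η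

namespace MetData

variable {D : E3 → E3 → ℝ} {u : Sgn → E3 → ℝ} {m M : ℝ} {B : Type} {Γ : B → Set E3}
  (h : MetData D u m M Γ)
include h

lemma df_nonneg (l : Sgn) (x y : E3) : 0 ≤ df D (u l) x y := by
  have := h.lip l x y; unfold df; linarith

lemma df_tri (l : Sgn) (x y z : E3) : df D (u l) x z ≤ df D (u l) x y + df D (u l) y z := by
  have := h.tri x y z; unfold df; linarith

lemma df_per (l : Sgn) (x y : E3) (k : Z3) :
    df D (u l) (x + cv k) (y + cv k) = df D (u l) x y := by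
  unfold df; rw [h.per, h.uper, h.uper]; ring

lemma df_le (l : Sgn) (x y : E3) : df D (u l) x y ≤ 2 * M * ‖y - x‖ := by
  have h1 := h.lip l y x
  have h2 := h.upper x y
  rw [h.symm y x] at h1
  unfold df; linarith

lemma df_le' (l : Sgn) (x y : E3) : df D (u l) x y ≤ 2 * M * ‖x - y‖ := by
  rw [norm_sub_rev]; exact h.df_le l x y

lemma df_axis (l : Sgn) (i : Fin 3) (k : Z3) (n : ℤ) (hn : 0 ≤ sz (l i) * n) :
    df D (u l) (bp i + cv k) (bp i + cv (k + ev i n)) ≤ 0 := by
  have e : bp i + cv (k + ev i n) = bp i + cv (ev i n) + cv k := by rw [cv_add]; abel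
  rw [e, h.df_per]
  have h1 := h.axis i n
  unfold df
  rw [h.uper, dot_ev]
  have : |(n : ℝ)| = (sz (l i) : ℝ) * n := by
    have hn' : (0 : ℝ) ≤ (sz (l i) : ℝ) * n := by exact_mod_cast hn
    rcases hl : l i with _ | _ <;> simp only [hl, sz] at hn' ⊢ <;> push_cast at hn' ⊢
    · rw [abs_of_nonpos (by linarith)]; ring
    · rw [abs_of_nonneg (by linarith)]; ring
  linarith

lemma df_jump (l : Sgn) (x y : E3) (hx : ‖x‖ ≤ 1 / 2) (hy : ‖y‖ ≤ 1 / 2) (k : Z3) :
    df D (u l) (x + cv k) (y + cv k) ≤ 2 * M := by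
  rw [h.df_per]
  have h1 := h.df_le l x y
  have h2 : ‖y - x‖ ≤ 1 := (norm_sub_le _ _).trans (by linarith)
  have := h.Mpos
  nlinarith

lemma df_lattice (l : Sgn) (k k' : Z3) (hk : ∀ r, 0 ≤ sz (l r) * (k' r - k r)) :
    df D (u l) (cv k) (cv k') ≤ 8 * M := by
  set k1 := k + ev 0 (k' 0 - k 0) with hk1
  set k2 := k1 + ev 1 (k' 1 - k 1) with hk2
  have hk3 : k' = k2 + ev 2 (k' 2 - k 2) := by
    ext r; fin_cases r <;> simp [hk2, hk1, ev]
  have z : ‖(0 : E3)‖ ≤ 1 / 2 := by simp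
  have a0 := h.df_jump l 0 (bp 0) z (norm_bp_le _) k
  have a1 := h.df_axis l 0 k _ (hk 0)
  have a2 := h.df_jump l (bp 0) (bp 1) (norm_bp_le _) (norm_bp_le _) k1
  have a3 := h.df_axis l 1 k1 _ (hk 1)
  have a4 := h.df_jump l (bp 1) (bp 2) (norm_bp_le _) (norm_bp_le _) k2
  have a5 := h.df_axis l 2 k2 _ (hk 2)
  have a6 := h.df_jump l (bp 2) 0 (norm_bp_le _) z k'
  rw [← hk3] at a5
  rw [← hk2] at a3
  rw [← hk1] at a1
  simp only [zero_add] at a0 a6
  have t1 := h.df_tri l (cv k) (bp 0 + cv k) (cv k')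
  have t2 := h.df_tri l (bp 0 + cv k) (bp 0 + cv k1) (cv k')
  have t3 := h.df_tri l (bp 0 + cv k1) (bp 1 + cv k1) (cv k')
  have t4 := h.df_tri l (bp 1 + cv k1) (bp 1 + cv k2) (cv k')
  have t5 := h.df_tri l (bp 1 + cv k2) (bp 2 + cv k2) (cv k')
  have t6 := h.df_tri l (bp 2 + cv k2) (bp 2 + cv k') (cv k')
  linarith

end MetData

/-- zero cost relation between two lines -/
def ZC (D : E3 → E3 → ℝ) (f : E3 → ℝ) (i : Fin 3) (k : Z3) (j : Fin 3) (k' : Z3) : Prop :=
  ∀ η > 0, ∃ τ τ' : ℤ, df D f (bp i + cv (k + ev i τ)) (bp j + cv (k' + ev j τ')) < η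

namespace MetData

variable {D : E3 → E3 → ℝ} {u : Sgn → E3 → ℝ} {m M : ℝ} {B : Type} {Γ : B → Set E3}
  (h : MetData D u m M Γ)
include h

lemma zc_translate {l : Sgn} {i j : Fin 3} {k k' : Z3} (hz : ZC D (u l) i k j k') (w : Z3) :
    ZC D (u l) i (k + w) j (k' + w) := by
  intro η hη
  obtain ⟨τ, τ', hτ⟩ := hz η hη
  refine ⟨τ, τ', ?_⟩
  rw [← h.df_per l _ _ w] at hτ
  convert hτ using 2 <;> simp only [cv_add] <;> abel

omit h in
lemma zc_shift {l : Sgn} {i j : Fin 3} {k k' : Z3} (hz : ZC D (u l) i k j k') (a b : ℤ) :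
    ZC D (u l) i (k + ev i a) j (k' + ev j b) := by
  intro η hη
  obtain ⟨τ, τ', hτ⟩ := hz η hη
  refine ⟨τ - a, τ' - b, ?_⟩
  rwa [add_assoc, add_assoc, ← ev_add, ← ev_add, add_sub_cancel, add_sub_cancel]

lemma zc_refl (l : Sgn) (i : Fin 3) (k : Z3) : ZC D (u l) i k i k := by
  intro η hη
  refine ⟨0, 0, lt_of_le_of_lt (h.df_le l _ _) ?_⟩
  simpa using hη

lemma zc_trans {l : Sgn} {i j : Fin 3} {k k' k'' : Z3} (h1 : ZC D (u l) i k i k')
    (h2 : ZC D (u l) i k' j k'') : ZC D (u l) i k j k'' := by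
  intro η hη
  obtain ⟨a, a', ha⟩ := h1 (η / 2) (by linarith)
  obtain ⟨b, b', hb⟩ := h2 (η / 2) (by linarith)
  rw [← h.df_per l _ _ (ev i (b - a'))] at ha
  refine ⟨a + (b - a'), b', ?_⟩
  have e1 : bp i + cv (k + ev i a) + cv (ev i (b - a')) = bp i + cv (k + ev i (a + (b - a'))) := by
    simp only [cv_add, ev_add]; abel
  have e2 : bp i + cv (k' + ev i a') + cv (ev i (b - a')) = bp i + cv (k' + ev i b) := by
    have : ev i b = ev i a' + ev i (b - a') := by rw [← ev_add]; congr 1; ring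
    rw [this]; simp only [cv_add]; abel
  rw [e1, e2] at ha
  have := h.df_tri l (bp i + cv (k + ev i (a + (b - a')))) (bp i + cv (k' + ev i b))
    (bp j + cv (k'' + ev j b'))
  linarith

lemma zc_hom (l : Sgn) {i j : Fin 3} (hij : i ≠ j) (k : Z3) (n : ℤ) (hn : 0 ≤ sz (l j) * n) :
    ZC D (u l) i k i (k + ev j n) := by
  have key : ∀ N : ℕ, ZC D (u l) i k i (k + ev j (sz (l j) * N)) := by
    intro N
    induction N with
    | zero => simpa using h.zc_refl l i k
    | succ N ih =>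
      refine h.zc_trans ih ?_
      have h0 : ZC D (u l) i 0 i (ev j (sz (l j))) := by
        intro η hη
        obtain ⟨τ, τ', hτ⟩ := h.hom l i j hij η hη
        exact ⟨τ, τ', by simpa using hτ⟩
      have := h.zc_translate h0 (k + ev j (sz (l j) * N))
      rw [zero_add] at this
      convert this using 1
      push_cast
      rw [mul_add, mul_one, ev_add]; abel
  obtain ⟨N, hN⟩ := Int.eq_ofNat_of_zero_le hn
  have : n = sz (l j) * N := by rw [← hN, ← mul_assoc, sz_mul_self, one_mul]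
  rw [this]; exact key N

lemma zc_all (l : Sgn) (i j : Fin 3) (k k' : Z3) (hk : ∀ r, 0 ≤ sz (l r) * (k' r - k r)) :
    ZC D (u l) i k j k' := by
  have het0 : ∀ i j, i ≠ j → ZC D (u l) i 0 j 0 := fun i j hij η hη => by
    obtain ⟨τ, τ', hτ⟩ := h.het l i j hij η hη
    exact ⟨τ, τ', by simpa using hτ⟩
  rcases eq_or_ne i j with rfl | hij
  · have h1 := h.zc_hom l (i := i) (j := i + 1) (by fin_cases i <;> decide) k _ (hk (i + 1))
    have h2 := h.zc_hom l (i := i) (j := i + 2) (by fin_cases i <;> decide)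
      (k + ev (i + 1) (k' (i + 1) - k (i + 1))) _ (hk (i + 2))
    have h3 := zc_shift (h.zc_trans h1 h2) 0 (k' i - k i)
    convert h3 using 1
    · simp
    · ext r; fin_cases i <;> fin_cases r <;> simp [ev]
  · obtain ⟨t, hti, htj⟩ : ∃ t : Fin 3, i ≠ t ∧ j ≠ t := by
      revert i j; decide
    have h1 := h.zc_hom l hti k _ (hk t)
    have h2 := h.zc_translate (het0 i j hij) (k + ev t (k' t - k t) + ev i (k' i - k i))
    have h3 := zc_shift h2 (k i - k' i) (k' j - k j)
    refine h.zc_trans h1 ?_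
    convert h3 using 1
    · rw [zero_add, add_assoc (k + _), ← ev_add]; simp
    · ext r; fin_cases i <;> fin_cases j <;> fin_cases t <;> fin_cases r <;> simp_all [ev]

lemma line_cont {c : ℝ → E3} (hc : IsLine D c) (s t : ℝ) : ‖c t - c s‖ ≤ |t - s| / m := by
  rw [le_div_iff₀ h.mpos, ← hc s t, mul_comm]; exact h.lower _ _

omit h in
lemma df_line {c : ℝ → E3} (hc : IsLine D c) (l : Sgn) {s t : ℝ} (hst : s ≤ t) :
    df D (u l) (c s) (c t) = (t - u l (c t)) - (s - u l (c s)) := by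
  unfold df; rw [hc, abs_of_nonneg (sub_nonneg.2 hst)]; ring

lemma phi_mono {c : ℝ → E3} (hc : IsLine D c) (l : Sgn) :
    Monotone fun t => t - u l (c t) := fun s t hst => by
  have := h.df_nonneg l (c s) (c t)
  rw [df_line hc l hst] at this
  show s - u l (c s) ≤ t - u l (c t)
  linarith

lemma fin_defect {c : ℝ → E3} (hc : IsLine D c) (a b : ℕ → ℝ) (k k' : ℕ → Z3)
    (ha : ∀ n : ℕ, a n ≤ -n) (hb : ∀ n : ℕ, (n : ℝ) ≤ b n)
    (hk : ∀ n, ‖c (a n) - cv (k n)‖ ≤ 2) (hk' : ∀ n, ‖c (b n) - cv (k' n)‖ ≤ 2) :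
    ∃ l : Sgn, (∃ᶠ n in atTop, ∀ r, 0 ≤ sz (l r) * (k' n r - k n r)) ∧
      ∀ s t, (t - u l (c t)) - (s - u l (c s)) ≤ 16 * M := by
  have h1 : ∃ l : Sgn, ∃ᶠ n in atTop, ∀ r, 0 ≤ sz (l r) * (k' n r - k n r) := by
    by_contra hcon
    simp only [not_exists, not_frequently] at hcon
    obtain ⟨n, hn⟩ := (eventually_all.2 hcon).exists
    refine hn (fun r => decide (0 ≤ k' n r - k n r)) fun r => ?_
    by_cases h0 : 0 ≤ k' n r - k n r
    · simp only [h0, decide_true, sz]; linarith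
    · simp only [h0, decide_false, sz]; linarith
  obtain ⟨l, hl⟩ := h1
  refine ⟨l, hl, fun s t => ?_⟩
  obtain ⟨N, hN⟩ := exists_nat_ge (max |s| |t|)
  obtain ⟨n, hn, hnN⟩ := (hl.and_eventually (eventually_ge_atTop N)).exists
  have hnN' : (N : ℝ) ≤ n := by exact_mod_cast hnN
  have hs : a n ≤ s := by
    have := neg_abs_le s; have := le_max_left |s| |t|; have := ha n; linarith
  have ht : t ≤ b n := by
    have := le_abs_self t; have := le_max_right |s| |t|; have := hb n; linarith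
  have hab : a n ≤ b n := by
    have := ha n; have := hb n; have : (0 : ℝ) ≤ n := n.cast_nonneg; linarith
  have m1 := h.phi_mono hc l hs
  have m2 := h.phi_mono hc l ht
  have e := df_line (u := u) hc l hab
  have t1 := h.df_tri l (c (a n)) (cv (k n)) (c (b n))
  have t2 := h.df_tri l (cv (k n)) (cv (k' n)) (c (b n))
  have b1 := h.df_le' l (c (a n)) (cv (k n))
  have b2 := h.df_lattice l _ _ hn
  have b3 := h.df_le l (cv (k' n)) (c (b n))
  have := h.Mpos
  have c1 := mul_le_mul_of_nonneg_left (hk n) (by linarith : 0 ≤ 2 * M)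
  have c2 := mul_le_mul_of_nonneg_left (hk' n) (by linarith : 0 ≤ 2 * M)
  simp only at m1 m2
  linarith

end MetData

lemma tails_small {φ : ℝ → ℝ} (hφ : Monotone φ) {C : ℝ} (hC : ∀ s t, φ t - φ s ≤ C) {η : ℝ}
    (hη : 0 < η) : ∃ N : ℝ, (∀ s t, s ≤ -N → t ≤ -N → φ t - φ s < η) ∧
      ∀ s t, N ≤ s → N ≤ t → φ t - φ s < η := by
  have hba : BddAbove (range φ) := ⟨C + φ 0, by rintro _ ⟨t, rfl⟩; linarith [hC 0 t]⟩
  have hbb : BddBelow (range φ) := ⟨φ 0 - C, by rintro _ ⟨t, rfl⟩; linarith [hC t 0]⟩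
  obtain ⟨_, ⟨t1, rfl⟩, h1⟩ := exists_lt_of_lt_csSup (range_nonempty φ)
    (sub_lt_self (sSup (range φ)) hη)
  obtain ⟨_, ⟨t0, rfl⟩, h0⟩ := exists_lt_of_csInf_lt (range_nonempty φ)
    (lt_add_of_pos_right (sInf (range φ)) hη)
  refine ⟨max t1 (-t0), fun s t _ ht => ?_, fun s t hs _ => ?_⟩
  · have a1 : φ t ≤ φ t0 := hφ (by have := le_max_right t1 (-t0); linarith)
    have a2 : sInf (range φ) ≤ φ s := csInf_le hbb (mem_range_self s)
    linarith
  · have a1 : φ t1 ≤ φ s := hφ (by have := le_max_left t1 (-t0); linarith)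
    have a2 : φ t ≤ sSup (range φ) := le_csSup hba (mem_range_self t)
    linarith

namespace MetData

variable {D : E3 → E3 → ℝ} {u : Sgn → E3 → ℝ} {m M : ℝ} {B : Type} {Γ : B → Set E3}
  (h : MetData D u m M Γ)
include h

lemma D_cont : Continuous fun p : E3 × E3 => D p.1 p.2 := by
  have hL : ∀ p q : E3 × E3, D p.1 p.2 - D q.1 q.2 ≤ 2 * M * dist p q := fun p q => by
    have t1 := h.tri p.1 q.1 p.2
    have t2 := h.tri q.1 q.2 p.2
    have b1 := h.upper p.1 q.1
    have b2 := h.upper q.2 p.2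
    have c1 : ‖q.1 - p.1‖ ≤ dist p q := by
      rw [← dist_eq_norm, dist_comm, Prod.dist_eq]; exact le_max_left _ _
    have c2 : ‖p.2 - q.2‖ ≤ dist p q := by
      rw [← dist_eq_norm, Prod.dist_eq]; exact le_max_right _ _
    have := h.Mpos
    have d1 := mul_le_mul_of_nonneg_left c1 this.le
    have d2 := mul_le_mul_of_nonneg_left c2 this.le
    linarith
  have := h.Mpos
  refine (LipschitzWith.of_dist_le' (K := 2 * M) fun p q => ?_).continuous
  rw [Real.dist_eq, abs_le]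
  have := hL p q
  have := hL q p
  rw [dist_comm q p] at this
  constructor <;> linarith

lemma u_cont (l : Sgn) : Continuous (u l) := by
  refine (LipschitzWith.of_dist_le' (K := M) fun x y => ?_).continuous
  rw [Real.dist_eq, abs_le, dist_eq_norm]
  have a1 := h.lip l x y
  have a2 := h.lip l y x
  have a3 := h.upper y x
  rw [h.symm x y] at a1
  constructor <;> linarith

lemma limit_line {c : ℝ → E3} (hc : IsLine D c) (l : Sgn) (a : ℕ → ℝ)
    (ha : ∀ s t, Tendsto (fun n => (a n + t - u l (c (a n + t))) - (a n + s - u l (c (a n + s))))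
      atTop (𝓝 0)) :
    ∃ i, ∀ η > 0, ∀ τ : ℤ, ∃ s t : ℝ, ∃ᶠ n in atTop, ∃ k,
      ‖c (a n + s) - (bp i + cv k)‖ < η ∧ ‖c (a n + t) - (bp i + cv (k + ev i τ))‖ < η := by
  let U : Ultrafilter ℕ := hyperfilter ℕ
  have hU : (U : Filter ℕ) ≤ atTop := Nat.hyperfilter_le_atTop
  let d : ℕ → ℝ → E3 := fun n t => c (a n + t) - cv (fl (c (a n)))
  have hex : ∀ t, ∃ x, Tendsto (fun n => d n t) U (𝓝 x) := fun t => by
    have hK : IsCompact (Metric.closedBall (0 : E3) (|t| / m + 1)) := isCompact_closedBall _ _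
    have hmem : ∀ n, d n t ∈ Metric.closedBall (0 : E3) (|t| / m + 1) := fun n => by
      rw [mem_closedBall_zero_iff]
      have e : d n t = (c (a n + t) - c (a n)) + (c (a n) - cv (fl (c (a n)))) := by
        simp only [d]; abel
      have h1 := h.line_cont hc (a n) (a n + t)
      rw [add_sub_cancel_left] at h1
      rw [e]
      exact (norm_add_le _ _).trans (add_le_add h1 (norm_sub_fl _))
    obtain ⟨x, -, hx⟩ := hK.ultrafilter_le_nhds (U.map fun n => d n t)
      (le_principal_iff.2 (mem_map.2 (Eventually.of_forall hmem)))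
    exact ⟨x, hx⟩
  choose c' hc' using hex
  have hdD : ∀ n s t, D (d n s) (d n t) = |t - s| := fun n s t => by
    rw [← h.per _ _ (fl (c (a n)))]
    simp only [d, sub_add_cancel]
    rw [hc]; congr 1; ring
  have hline : IsLine D c' := fun s t => by
    have h1 := (h.D_cont.tendsto (c' s, c' t)).comp ((hc' s).prodMk_nhds (hc' t))
    have h2 : ((fun p : E3 × E3 => D p.1 p.2) ∘ fun n => (d n s, d n t)) = fun _ => |t - s| := by
      ext n; exact hdD n s t
    rw [h2] at h1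
    exact tendsto_nhds_unique h1 tendsto_const_nhds
  have hcal : ∀ s t, u l (c' t) - u l (c' s) = t - s := fun s t => by
    have h1 := (((h.u_cont l).tendsto _).comp (hc' t)).sub (((h.u_cont l).tendsto _).comp (hc' s))
    have h2 := ((ha s t).mono_left hU).const_sub (t - s)
    rw [sub_zero] at h2
    refine tendsto_nhds_unique h1 (h2.congr fun n => ?_)
    have e1 := h.uper l (d n t) (fl (c (a n)))
    have e2 := h.uper l (d n s) (fl (c (a n)))
    simp only [d, sub_add_cancel] at e1 e2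
    simp only [comp_apply, d]
    linarith
  obtain ⟨b, κ, hb⟩ := h.cal l c' hline hcal
  obtain ⟨i, hi⟩ := h.acc b
  refine ⟨i, fun η hη τ => ?_⟩
  obtain ⟨k, x, hx, y, hy, hxk, hyk⟩ := hi η hη τ
  obtain ⟨s, hs⟩ : x + cv κ ∈ range c' := hb ▸ mem_image_of_mem _ hx
  obtain ⟨t, ht⟩ : y + cv κ ∈ range c' := hb ▸ mem_image_of_mem _ hy
  refine ⟨s, t, ?_⟩
  have e1 : ∀ᶠ n in (U : Filter ℕ), ‖d n s - (bp i + cv (k + κ))‖ < η := by
    refine (((hc' s).sub_const (bp i + cv (k + κ))).norm).eventually (gt_mem_nhds ?_)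
    have e : x + cv κ - (bp i + cv (k + κ)) = x - (bp i + cv k) := by rw [cv_add]; abel
    rw [hs, e]; exact hxk
  have e2 : ∀ᶠ n in (U : Filter ℕ), ‖d n t - (bp i + cv (k + κ + ev i τ))‖ < η := by
    refine (((hc' t).sub_const (bp i + cv (k + κ + ev i τ))).norm).eventually (gt_mem_nhds ?_)
    have e : y + cv κ - (bp i + cv (k + κ + ev i τ)) = y - (bp i + cv (k + ev i τ)) := by
      simp only [cv_add]; abel
    rw [ht, e]; exact hyk
  refine ((e1.and e2).frequently.filter_mono hU).mono fun n hn => ⟨k + κ + fl (c (a n)), ?_, ?_⟩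
  · convert hn.1 using 2; simp only [d, cv_add]; abel
  · convert hn.2 using 2; simp only [d, cv_add]; abel

lemma ends {c : ℝ → E3} (hc : IsLine D c) :
    (∃ i, ∀ η > 0, ∀ (τ : ℤ) (N : ℝ), ∃ s t k, s ≤ -N ∧ t ≤ -N ∧
      ‖c s - (bp i + cv k)‖ < η ∧ ‖c t - (bp i + cv (k + ev i τ))‖ < η) ∧
    (∃ i, ∀ η > 0, ∀ (τ : ℤ) (N : ℝ), ∃ s t k, N ≤ s ∧ N ≤ t ∧
      ‖c s - (bp i + cv k)‖ < η ∧ ‖c t - (bp i + cv (k + ev i τ))‖ < η) := by
  obtain ⟨l, -, hl⟩ := h.fin_defect hc (fun n => -n) (fun n => n) (fun n => fl (c (-n)))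
    (fun n => fl (c n)) (fun _ => le_rfl) (fun _ => le_rfl)
    (fun n => (norm_sub_fl _).trans one_le_two) (fun n => (norm_sub_fl _).trans one_le_two)
  have hev : ∀ x : ℝ, ∀ᶠ n : ℕ in atTop, x ≤ n := fun x =>
    tendsto_natCast_atTop_atTop.eventually (eventually_ge_atTop x)
  constructor
  · obtain ⟨i, hi⟩ := h.limit_line hc l (fun n => -n) (fun s t => by
      rw [Metric.tendsto_nhds]
      intro η hη
      obtain ⟨N, hN, -⟩ := tails_small (h.phi_mono hc l) hl hη
      filter_upwards [hev (N + s), hev (N + t)] with n h1 h2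
      rw [Real.dist_eq, sub_zero, abs_lt]
      have a1 := hN (-n + s) (-n + t) (by linarith) (by linarith)
      have a2 := hN (-n + t) (-n + s) (by linarith) (by linarith)
      constructor <;> linarith)
    refine ⟨i, fun η hη τ N => ?_⟩
    obtain ⟨s, t, hst⟩ := hi η hη τ
    obtain ⟨n, ⟨k, hk⟩, h1, h2⟩ := (hst.and_eventually ((hev (N + s)).and (hev (N + t)))).exists
    exact ⟨_, _, k, by linarith, by linarith, hk⟩
  · obtain ⟨i, hi⟩ := h.limit_line hc l (fun n => n) (fun s t => by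
      rw [Metric.tendsto_nhds]
      intro η hη
      obtain ⟨N, -, hN⟩ := tails_small (h.phi_mono hc l) hl hη
      filter_upwards [hev (N - s), hev (N - t)] with n h1 h2
      rw [Real.dist_eq, sub_zero, abs_lt]
      have a1 := hN (n + s) (n + t) (by linarith) (by linarith)
      have a2 := hN (n + t) (n + s) (by linarith) (by linarith)
      constructor <;> linarith)
    refine ⟨i, fun η hη τ N => ?_⟩
    obtain ⟨s, t, hst⟩ := hi η hη τ
    obtain ⟨n, ⟨k, hk⟩, h1, h2⟩ := (hst.and_eventually ((hev (N - s)).and (hev (N - t)))).exists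
    exact ⟨_, _, k, by linarith, by linarith, hk⟩

lemma df_near (l : Sgn) {x y : E3} {η : ℝ} (hxy : ‖x - y‖ < η) :
    df D (u l) x y ≤ 2 * M * η ∧ df D (u l) y x ≤ 2 * M * η := by
  have := h.Mpos
  have h1 := mul_le_mul_of_nonneg_left hxy.le (by linarith : 0 ≤ 2 * M)
  exact ⟨(h.df_le' l x y).trans h1, (h.df_le l y x).trans h1⟩

/-- every line is calibrated -/
lemma calibrated {c : ℝ → E3} (hc : IsLine D c) :
    ∃ l, ∀ s t, u l (c t) - u l (c s) = t - s := by
  obtain ⟨⟨i, hi⟩, ⟨j, hj⟩⟩ := h.ends hc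
  have hpos : ∀ n : ℕ, (0 : ℝ) < 1 / (n + 1) := fun n => Nat.one_div_pos_of_nat
  choose a a' k ha _ hk _ using fun n : ℕ => hi (1 / (n + 1)) (hpos n) 0 n
  choose b b' k' hb _ hk' _ using fun n : ℕ => hj (1 / (n + 1)) (hpos n) 0 n
  have hle : ∀ n : ℕ, (1 : ℝ) / (n + 1) ≤ 1 := fun n => by
    rw [div_le_one (by positivity)]; have : (0 : ℝ) ≤ n := n.cast_nonneg; linarith
  have hnear : ∀ (x : E3) (i : Fin 3) (k : Z3) (n : ℕ), ‖x - (bp i + cv k)‖ < 1 / (n + 1) →
      ‖x - cv k‖ ≤ 2 := fun x i k n hx => by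
    have e : x - cv k = (x - (bp i + cv k)) + bp i := by abel
    rw [e]
    have := norm_add_le (x - (bp i + cv k)) (bp i)
    have := norm_bp_le i
    have := hle n
    linarith
  obtain ⟨l, hl, hfin⟩ := h.fin_defect hc a b k k' ha hb (fun n => hnear _ _ _ _ (hk n))
    (fun n => hnear _ _ _ _ (hk' n))
  have hmono := h.phi_mono hc l
  have key : ∀ s t, s ≤ t → ∀ η > 0, (t - u l (c t)) - (s - u l (c s)) ≤ (12 * M + 3) * η := by
    intro s t hst η hη
    obtain ⟨N, hN1, hN2⟩ := tails_small hmono hfin hη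
    have hev : ∀ x : ℝ, ∀ᶠ n : ℕ in atTop, x ≤ n := fun x =>
      tendsto_natCast_atTop_atTop.eventually (eventually_ge_atTop x)
    have hsm : ∀ᶠ n : ℕ in atTop, (1 : ℝ) / (n + 1) < η :=
      tendsto_one_div_add_atTop_nhds_zero_nat.eventually (gt_mem_nhds hη)
    obtain ⟨n, hn, hnN, hns, hnt, hnη⟩ :=
      (hl.and_eventually ((hev N).and ((hev (-s)).and ((hev t).and hsm)))).exists
    obtain ⟨τ, τ', hτ⟩ := h.zc_all l i j (k n) (k' n) hn η hη
    obtain ⟨p, q, κ, hp, hq, hpκ, hqκ⟩ := hi η hη (-τ) (-a n)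
    obtain ⟨p', q', κ', hp', hq', hpκ', hqκ'⟩ := hj η hη τ' (b n)
    have han := ha n
    have hbn := hb n
    rw [neg_neg] at hp hq
    have d1 := (h.df_near l hpκ).1
    have d2 : df D (u l) (bp i + cv κ) (c q + cv (ev i τ)) ≤ 2 * M * η := by
      refine (h.df_near l ?_).2
      convert hqκ using 2
      have : ev i (-τ) = -ev i τ := by simp [ev, Pi.single_neg]
      rw [this]; simp only [cv_add, cv_neg]; abel
    have d3 : df D (u l) (c q + cv (ev i τ)) (c (a n) + cv (ev i τ)) < η := by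
      rw [h.df_per, df_line hc l hq]
      exact hN1 _ _ (by linarith) (by linarith)
    have d4 : df D (u l) (c (a n) + cv (ev i τ)) (bp i + cv (k n + ev i τ)) ≤ 2 * M * η := by
      refine (h.df_near l ?_).1
      have e : c (a n) + cv (ev i τ) - (bp i + cv (k n + ev i τ)) = c (a n) - (bp i + cv (k n)) := by
        simp only [cv_add]; abel
      rw [e]; exact (hk n).trans hnη
    have d6 : df D (u l) (bp j + cv (k' n + ev j τ')) (c (b n) + cv (ev j τ')) ≤ 2 * M * η := by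
      refine (h.df_near l ?_).2
      have e : c (b n) + cv (ev j τ') - (bp j + cv (k' n + ev j τ'))
          = c (b n) - (bp j + cv (k' n)) := by
        simp only [cv_add]; abel
      rw [e]; exact (hk' n).trans hnη
    have d7 : df D (u l) (c (b n) + cv (ev j τ')) (c p' + cv (ev j τ')) < η := by
      rw [h.df_per, df_line hc l hp']
      exact hN2 _ _ (by linarith) (by linarith)
    have d8 : df D (u l) (c p' + cv (ev j τ')) (bp j + cv (κ' + ev j τ')) ≤ 2 * M * η := by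
      refine (h.df_near l ?_).1
      convert hpκ' using 2
      simp only [cv_add]; abel
    have d9 := (h.df_near l hqκ').2
    have t1 := h.df_tri l (c p) (bp i + cv κ) (c q')
    have t2 := h.df_tri l (bp i + cv κ) (c q + cv (ev i τ)) (c q')
    have t3 := h.df_tri l (c q + cv (ev i τ)) (c (a n) + cv (ev i τ)) (c q')
    have t4 := h.df_tri l (c (a n) + cv (ev i τ)) (bp i + cv (k n + ev i τ)) (c q')
    have t5 := h.df_tri l (bp i + cv (k n + ev i τ)) (bp j + cv (k' n + ev j τ')) (c q')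
    have t6 := h.df_tri l (bp j + cv (k' n + ev j τ')) (c (b n) + cv (ev j τ')) (c q')
    have t7 := h.df_tri l (c (b n) + cv (ev j τ')) (c p' + cv (ev j τ')) (c q')
    have t8 := h.df_tri l (c p' + cv (ev j τ')) (bp j + cv (κ' + ev j τ')) (c q')
    have e := df_line (u := u) hc l (show p ≤ q' by linarith)
    have m1 := hmono (show p ≤ s by linarith)
    have m2 := hmono (show t ≤ q' by linarith)
    simp only at m1 m2
    linarith
  have key2 : ∀ s t, s ≤ t → u l (c t) - u l (c s) = t - s := fun s t hst => by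
    have m1 := hmono hst
    simp only at m1
    have hM := h.Mpos
    have : (t - u l (c t)) - (s - u l (c s)) ≤ 0 := by
      refine le_of_forall_pos_le_add fun ε hε => ?_
      have := key s t hst (ε / (12 * M + 3)) (by positivity)
      rw [mul_div_cancel₀ _ (by positivity)] at this
      linarith
    linarith
  refine ⟨l, fun s t => ?_⟩
  rcases le_total s t with hst | hst
  · exact key2 s t hst
  · have := key2 t s hst; linarith

omit h in
lemma reparam {c c₀ : ℝ → E3} (hc : IsLine D c) (hc₀ : IsLine D c₀) (hr : range c ⊆ range c₀) :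
    ∃ a b : ℝ, (a = 1 ∨ a = -1) ∧ ∀ t, c t = c₀ (a * t + b) := by
  choose f hf using fun t => hr (mem_range_self t)
  have hiso : ∀ s t, |f t - f s| = |t - s| := fun s t => by rw [← hc₀, hf, hf, hc]
  have h1 := hiso 0 1
  rw [sub_zero, abs_one] at h1
  refine ⟨f 1 - f 0, f 0, ?_, fun t => ?_⟩
  · rcases abs_cases (f 1 - f 0) with h2 | h2
    · left; linarith
    · right; linarith
  · rw [← hf t]
    congr 1
    have h2 := hiso 0 t
    have h3 := hiso 1 t
    rw [← sq_eq_sq_iff_abs_eq_abs] at h2 h3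
    have h4 : (f 1 - f 0) ^ 2 = 1 := by rw [← sq_abs, h1]; norm_num
    have h5 : (f t - f 0) * (f 1 - f 0) = t := by nlinarith
    have : f t - f 0 = (f t - f 0) * (f 1 - f 0) ^ 2 := by rw [h4, mul_one]
    have h6 : f t - f 0 = t * (f 1 - f 0) := by rw [this, sq, ← mul_assoc, h5]
    linarith

theorem finite_lines [Finite B] : ∃ S : Set (ℝ → E3), S.Finite ∧ ∀ c, IsLine D c →
    ∃ c₀ ∈ S, ∃ (a b : ℝ) (k : Z3), (a = 1 ∨ a = -1) ∧ ∀ t, c t = c₀ (a * t + b) + cv k := by
  classical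
  let rep : B → ℝ → E3 := fun b =>
    if hb : ∃ c, IsLine D c ∧ range c = Γ b then hb.choose else fun _ => 0
  refine ⟨range rep, finite_range rep, fun c hc => ?_⟩
  obtain ⟨l, hl⟩ := h.calibrated hc
  obtain ⟨b, k, hb⟩ := h.cal l c hc hl
  have hc' : IsLine D fun t => c t - cv k := fun s t => by
    rw [← h.per _ _ k]; simp only [sub_add_cancel]; exact hc s t
  have hr : range (fun t => c t - cv k) = Γ b := by
    have : range (fun t => c t - cv k) = (fun x => x - cv k) '' range c := by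
      rw [← range_comp]; rfl
    rw [this, hb, image_image]; simp
  have hex : ∃ c, IsLine D c ∧ range c = Γ b := ⟨_, hc', hr⟩
  have hrep : rep b = hex.choose := dif_pos hex
  obtain ⟨a, b', ha, hab⟩ := reparam hc' hex.choose_spec.1 (by rw [hr, hex.choose_spec.2])
  refine ⟨rep b, mem_range_self b, a, b', k, ha, fun t => ?_⟩
  rw [hrep, ← hab t, sub_add_cancel]

end MetData

end Pool.Agent.MP_4d76c1_gt
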