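import Mathlib
import Pool.Agent.MP_4d76c1_gt.Metric

open Set Filter Topology Function
open scoped ContDiff

namespace Pool.Agent.MP_4d76c1_gt

/-- the base line of type `i` -/
def OnL (i : Fin 3) (x : E3) : Prop := x (i + 1) = 0 ∧ x (i + 2) = 1 / 2

/-- the two ends of the unit interval -/
noncomputable def lf : Bool → Filter ℝ
  | false => 𝓝[>] 0
  | true => 𝓝[<] 1

/-- calibration of a channel -/
def Cal (f s : ℝ → ℝ) (σ : Bool) : Prop :=
  ∃ C : ℝ, ∀ r ∈ Ioo (0 : ℝ) 1, f r = (sz σ : ℝ) * s r + C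

structure Chan (Λ : Type) where
  γ : Λ → ℝ → E3
  π : Λ → E3 → ℝ
  sig : Λ → E3 → ℝ
  F : Λ → Sgn → E3 → ℝ
  typ : Λ → Bool → Fin 3
  κ : Λ → Bool → Z3
  W : Fin 3 → E3 → E3
  γ_smooth : ∀ a, ∀ r ∈ Ioo (0 : ℝ) 1, ContDiffAt ℝ ∞ (γ a) r
  π_smooth : ∀ a, ContDiff ℝ ∞ (π a)
  sig_smooth : ∀ a, ContDiff ℝ ∞ (sig a)
  F_smooth : ∀ a l, ContDiff ℝ ∞ (F a l)
  W_smooth : ∀ i, ContDiff ℝ ∞ (W i)
  W_inv : ∀ i y y', y (i + 1) = y' (i + 1) → y (i + 2) = y' (i + 2) → W i y = W i y'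
  W_line : ∀ i y, OnL i y → W i y = Pi.single i 1
  π_γ : ∀ a, ∀ r ∈ Ioo (0 : ℝ) 1, π a (γ a r) = r
  dF : ∀ a l y v, |fderiv ℝ (F a l) y v| ≤ |fderiv ℝ (sig a) y v|
  dS : ∀ a, ∀ r ∈ Ioo (0 : ℝ) 1, 0 < fderiv ℝ (sig a) (γ a r) (deriv (γ a) r)
  tangent : ∀ a σ, ∀ᶠ r in lf σ,
    deriv (γ a) r = deriv (γ a) r (typ a σ) • W (typ a σ) (γ a r - cv (κ a σ))
  germ : ∀ a σ l, ∀ᶠ r in lf σ, F a l =ᶠ[𝓝 (γ a r)]
    fun x => (sz (l (typ a σ)) : ℝ) * (x - cv (κ a σ)) (typ a σ) + dot l (cv (κ a σ))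
  conv1 : ∀ a σ, Tendsto (fun r => γ a r (typ a σ + 1)) (lf σ) (𝓝 (κ a σ (typ a σ + 1)))
  conv2 : ∀ a σ, Tendsto (fun r => γ a r (typ a σ + 2)) (lf σ) (𝓝 (κ a σ (typ a σ + 2) + 1 / 2))
  escape : ∀ a σ, Tendsto (fun r => γ a r (typ a σ)) (lf σ) atTop ∨
    Tendsto (fun r => γ a r (typ a σ)) (lf σ) atBot
  inj : ∀ a b k, ∀ r ∈ Ioo (0 : ℝ) 1, ∀ r' ∈ Ioo (0 : ℝ) 1, γ a r = γ b r' + cv k → a = b ∧ r = r'
  off : ∀ a i k, ∀ r ∈ Ioo (0 : ℝ) 1, ¬ OnL i (γ a r - cv k)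
  hom : ∀ (l : Sgn) i j, i ≠ j → ∃ a σ, typ a (!σ) = i ∧ typ a σ = i ∧
    κ a σ = κ a (!σ) + ev j (sz (l j)) ∧ Cal (fun r => F a l (γ a r)) (fun r => sig a (γ a r)) σ
  het : ∀ (l : Sgn) i j, i ≠ j → ∃ a σ, typ a (!σ) = i ∧ typ a σ = j ∧
    κ a σ = κ a (!σ) ∧ Cal (fun r => F a l (γ a r)) (fun r => sig a (γ a r)) σ

lemma fin3_cases (i r : Fin 3) : r = i ∨ r = i + 1 ∨ r = i + 2 := by
  revert i r; decide

lemma fin3_ne1 (i : Fin 3) : i + 1 ≠ i := by revert i; decide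
lemma fin3_ne2 (i : Fin 3) : i + 2 ≠ i := by revert i; decide
lemma fin3_ne3 (i : Fin 3) : i + 1 ≠ i + 2 := by revert i; decide

lemma lf_neBot (σ : Bool) : (lf σ).NeBot := by
  cases σ
  · exact nhdsGT_neBot 0
  · exact nhdsLT_neBot 1

lemma Ioo_mem_lf (σ : Bool) : Ioo (0 : ℝ) 1 ∈ lf σ := by
  cases σ
  · exact Ioo_mem_nhdsGT one_pos
  · exact Ioo_mem_nhdsLT one_pos

lemma exists_preconnected_lf {σ : Bool} {s : Set ℝ} (hs : s ∈ lf σ) :
    ∃ J ⊆ s, IsPreconnected J ∧ J ∈ lf σ := by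
  cases σ
  · obtain ⟨u, hu, hsub⟩ := mem_nhdsGT_iff_exists_Ioo_subset.1 hs
    exact ⟨_, hsub, isPreconnected_Ioo, Ioo_mem_nhdsGT hu⟩
  · obtain ⟨u, hu, hsub⟩ := mem_nhdsLT_iff_exists_Ioo_subset.1 hs
    exact ⟨_, hsub, isPreconnected_Ioo, Ioo_mem_nhdsLT hu⟩

lemma exists_delta_lf {Q : Bool → ℝ → Prop} (hQ : ∀ σ, ∀ᶠ r in lf σ, Q σ r) :
    ∃ p q : ℝ, 0 < p ∧ q < 1 ∧ ∀ r ∈ Ioo (0 : ℝ) 1, r ∈ Icc p q ∨ ∃ σ, Q σ r := by
  obtain ⟨p, hp, h1⟩ := mem_nhdsGT_iff_exists_Ioo_subset.1 (hQ false)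
  obtain ⟨q, hq, h2⟩ := mem_nhdsLT_iff_exists_Ioo_subset.1 (hQ true)
  refine ⟨p, q, hp, hq, fun r hr => ?_⟩
  rcases lt_or_ge r p with h | h
  · exact Or.inr ⟨false, h1 ⟨hr.1, h⟩⟩
  rcases lt_or_ge q r with h' | h'
  · exact Or.inr ⟨true, h2 ⟨h', hr.2⟩⟩
  exact Or.inl ⟨h, h'⟩

lemma int_isolated (x : ℝ) : ∃ ρ > 0, ∀ n : ℤ, |x - n| ≤ ρ → x = n := by
  have hlf : LocallyFinite fun n : ℤ => ({(n : ℝ)} : Set ℝ) := by
    intro y
    refine ⟨Metric.ball y 1, Metric.ball_mem_nhds y one_pos, ?_⟩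
    refine (Set.finite_Icc ⌊y - 1⌋ ⌈y + 1⌉).subset ?_
    rintro n ⟨z, hz, hzy⟩
    rw [mem_singleton_iff] at hz
    subst hz
    rw [Metric.mem_ball, Real.dist_eq, abs_lt] at hzy
    constructor
    · exact Int.floor_le_iff.2 (by linarith)
    · exact Int.le_ceil_iff.2 (by linarith)
  have := hlf.eventually_subset (fun _ => isClosed_singleton) x
  obtain ⟨ε, hε, h⟩ := Metric.eventually_nhds_iff.1 this
  refine ⟨ε / 2, by linarith, fun n hn => ?_⟩
  have : dist (n : ℝ) x < ε := by rw [Real.dist_eq, abs_sub_comm]; linarith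
  exact h this (show n ∈ {i : ℤ | (n : ℝ) ∈ ({(i : ℝ)} : Set ℝ)} from rfl)

lemma near_lines (x : E3) : ∃ ρ > (0 : ℝ), ∀ᶠ y : E3 in 𝓝 x, ∀ (i : Fin 3) (k : Z3),
    |y (i + 1) - (k (i + 1) : ℝ)| ≤ ρ → |y (i + 2) - ((k (i + 2) : ℝ) + 1 / 2)| ≤ ρ → OnL i (x - cv k) := by
  choose ρ1 h1 h1' using fun r => int_isolated (x r)
  choose ρ2 h2 h2' using fun r => int_isolated (x r - 1 / 2)
  obtain ⟨ρ, hρ, hρ'⟩ : ∃ ρ > 0, ∀ r, ρ ≤ ρ1 r ∧ ρ ≤ ρ2 r := by
    have : ∀ᶠ ρ in 𝓝[>] (0 : ℝ), 0 < ρ ∧ ∀ r, ρ ≤ ρ1 r ∧ ρ ≤ ρ2 r := by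
      refine eventually_mem_nhdsWithin.and (eventually_all.2 fun r => ?_)
      exact ((eventually_le_nhds (h1 r)).and (eventually_le_nhds (h2 r))).filter_mono
        nhdsWithin_le_nhds
    exact this.exists
  refine ⟨ρ / 2, by linarith, ?_⟩
  filter_upwards [Metric.closedBall_mem_nhds x (show 0 < ρ / 2 by linarith)] with y hy i k a1 a2
  have hc : ∀ r, |y r - x r| ≤ ρ / 2 := fun r => by
    have := norm_le_pi_norm (y - x) r
    rw [mem_closedBall_iff_norm] at hy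
    exact le_trans this hy
  constructor
  · have := h1' (i + 1) (k (i + 1)) (by
      have := (hρ' (i + 1)).1
      have := hc (i + 1)
      rw [abs_le] at *
      constructor <;> linarith [a1.1, a1.2, this.1, this.2])
    simp [this]
  · have := h2' (i + 2) (k (i + 2)) (by
      have := (hρ' (i + 2)).2
      have := hc (i + 2)
      rw [abs_le] at *
      constructor <;> linarith [a2.1, a2.2, this.1, this.2])
    simp only [Pi.sub_apply, cv_apply]; linarith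

lemma half_not_int (m n : ℤ) : (m : ℝ) ≠ n + 1 / 2 := by
  intro h
  have : ((2 * m : ℤ) : ℝ) = ((2 * n + 1 : ℤ) : ℝ) := by push_cast; linarith
  have := Int.cast_injective this
  omega

lemma OnL_unique {i j : Fin 3} {x : E3} {k k' : Z3} (h : OnL i (x - cv k))
    (h' : OnL j (x - cv k')) : i = j ∧ k (i + 1) = k' (i + 1) ∧ k (i + 2) = k' (i + 2) := by
  obtain ⟨a1, a2⟩ := h
  obtain ⟨b1, b2⟩ := h'
  simp only [Pi.sub_apply, cv_apply] at a1 a2 b1 b2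
  have hij : i = j := by
    rcases fin3_cases i j with e | e | e
    · exact e.symm
    · subst e
      have : i + 1 + 1 = i + 2 := by rw [add_assoc]; rfl
      rw [this] at b1
      exact absurd (by linarith) (half_not_int (k' (i + 2)) (k (i + 2)))
    · subst e
      have : i + 2 + 2 = i + 1 := by rw [add_assoc]; rfl
      rw [this] at b2
      exact absurd (by linarith) (half_not_int (k (i + 1)) (k' (i + 1)))
  subst hij
  refine ⟨rfl, ?_, ?_⟩
  · exact_mod_cast (show (k (i + 1) : ℝ) = k' (i + 1) by linarith)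
  · exact_mod_cast (show (k (i + 2) : ℝ) = k' (i + 2) by linarith)

namespace Chan

variable {Λ : Type} [Finite Λ] (c : Chan Λ)

omit [Finite Λ] in
lemma γ_cont (a : Λ) : ContinuousOn (c.γ a) (Ioo 0 1) := fun r hr =>
  (c.γ_smooth a r hr).continuousAt.continuousWithinAt

/-- local structure of the union of all curves -/
lemma loc_struct {Q : Λ → Bool → ℝ → Prop} (hQ : ∀ a σ, ∀ᶠ r in lf σ, Q a σ r) (x : E3) :
    ∀ᶠ y in 𝓝 x, (∀ i k, OnL i (y - cv k) → OnL i (x - cv k)) ∧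
      ∀ a k, ∀ r ∈ Ioo (0 : ℝ) 1, y = c.γ a r + cv k →
        (∃ r' ∈ Ioo (0 : ℝ) 1, x = c.γ a r' + cv k) ∨
          ∃ σ, Q a σ r ∧ OnL (c.typ a σ) (x - cv (k + c.κ a σ)) := by
  obtain ⟨ρ, hρ, hnear⟩ := near_lines x
  have hQ' : ∀ σ, ∀ᶠ r in lf σ, ∀ a, Q a σ r ∧
      |c.γ a r (c.typ a σ + 1) - c.κ a σ (c.typ a σ + 1)| ≤ ρ ∧
      |c.γ a r (c.typ a σ + 2) - (c.κ a σ (c.typ a σ + 2) + 1 / 2)| ≤ ρ := fun σ => by
    refine eventually_all.2 fun a => (hQ a σ).and (Eventually.and ?_ ?_)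
    · filter_upwards [(c.conv1 a σ).eventually (Metric.closedBall_mem_nhds _ hρ)] with r hr
      simpa [Real.dist_eq] using hr
    · filter_upwards [(c.conv2 a σ).eventually (Metric.closedBall_mem_nhds _ hρ)] with r hr
      simpa [Real.dist_eq] using hr
  obtain ⟨p, q, hp, hq, hpq⟩ := exists_delta_lf hQ'
  have hsub : Icc p q ⊆ Ioo 0 1 := fun r hr => ⟨hp.trans_le hr.1, hr.2.trans_lt hq⟩
  have hmid : ∀ a, ∀ᶠ y in 𝓝 x, ∀ k, y ∈ (fun z => z + cv k) '' (c.γ a '' Icc p q) →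
      x ∈ (fun z => z + cv k) '' (c.γ a '' Icc p q) := fun a => by
    have hK : IsCompact (c.γ a '' Icc p q) :=
      isCompact_Icc.image_of_continuousOn ((c.γ_cont a).mono hsub)
    obtain ⟨R, hR⟩ := hK.isBounded.exists_norm_le
    have hlf : LocallyFinite fun k : Z3 => (fun z => z + cv k) '' (c.γ a '' Icc p q) := by
      refine locallyFinite_translates (R := R) ?_
      rintro k _ ⟨z, hz, rfl⟩
      simpa using hR z hz
    exact hlf.eventually_subset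
      (fun k => (hK.image (continuous_id.add continuous_const)).isClosed) x
  filter_upwards [hnear, eventually_all.2 hmid] with y hy1 hy2
  refine ⟨fun i k hik => hy1 i k ?_ ?_, fun a k r hr hyr => ?_⟩
  · have := hik.1
    simp only [Pi.sub_apply, cv_apply] at this
    rw [this, abs_zero]; exact hρ.le
  · have := hik.2
    simp only [Pi.sub_apply, cv_apply] at this
    rw [show y (i + 2) - (k (i + 2) + 1 / 2) = 0 by linarith, abs_zero]; exact hρ.le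
  · rcases hpq r hr with h | ⟨σ, hσ⟩
    · obtain ⟨_, ⟨r', hr', rfl⟩, hx⟩ := hy2 a k ⟨_, ⟨r, h, rfl⟩, hyr.symm⟩
      exact Or.inl ⟨r', hsub hr', hx.symm⟩
    · refine Or.inr ⟨σ, (hσ a).1, hy1 _ _ ?_ ?_⟩
      · convert (hσ a).2.1 using 2
        rw [hyr]; simp only [Pi.add_apply, cv_apply, Int.cast_add]; ring
      · convert (hσ a).2.2 using 2
        rw [hyr]; simp only [Pi.add_apply, cv_apply, Int.cast_add]; ring

/-- the base curves -/
def Γ : Λ ⊕ Fin 3 → Set E3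
  | Sum.inl a => c.γ a '' Ioo 0 1
  | Sum.inr i => {x | OnL i x}

/-- the union of all translates of the base curves -/
def K : Set E3 := {y | ∃ b k, y - cv k ∈ c.Γ b}

omit [Finite Λ] in
lemma mem_Γ_inl {a : Λ} {y : E3} {k : Z3} :
    y - cv k ∈ c.Γ (Sum.inl a) ↔ ∃ r ∈ Ioo (0 : ℝ) 1, y = c.γ a r + cv k := by
  constructor
  · rintro ⟨r, hr, h⟩; exact ⟨r, hr, by rw [h]; simp⟩
  · rintro ⟨r, hr, h⟩; exact ⟨r, hr, by rw [h]; simp⟩

lemma loc_off {x : E3} (hx : x ∉ c.K) : ∀ᶠ y in 𝓝 x, y ∉ c.K := by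
  filter_upwards [c.loc_struct (Q := fun _ _ _ => True) (fun _ _ => Eventually.of_forall
    fun _ => trivial) x] with y hy
  rintro ⟨b | i, k, hb⟩
  · obtain ⟨r, hr, hyr⟩ := c.mem_Γ_inl.1 hb
    rcases hy.2 b k r hr hyr with h | ⟨σ, -, h⟩
    · exact hx ⟨Sum.inl b, k, c.mem_Γ_inl.2 h⟩
    · exact hx ⟨Sum.inr _, _, h⟩
  · exact hx ⟨Sum.inr i, k, hy.1 i k hb⟩

lemma isClosed_K : IsClosed c.K := by
  rw [← isOpen_compl_iff, isOpen_iff_mem_nhds]
  exact fun x hx => c.loc_off hx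

lemma loc_chan {a : Λ} {k : Z3} {x : E3} (hx : x - cv k ∈ c.Γ (Sum.inl a)) :
    ∀ᶠ y in 𝓝 x, ∀ b k', y - cv k' ∈ c.Γ b → b = Sum.inl a ∧ k' = k := by
  obtain ⟨r0, hr0, hx0⟩ := c.mem_Γ_inl.1 hx
  have hoff : ∀ i k', ¬ OnL i (x - cv k') := fun i k' h => by
    refine c.off a i (k' - k) r0 hr0 ?_
    convert h using 1
    rw [hx0, cv_sub]; abel
  filter_upwards [c.loc_struct (Q := fun _ _ _ => True) (fun _ _ => Eventually.of_forall
    fun _ => trivial) x] with y hy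
  rintro (b | i) k' hb
  · obtain ⟨r, hr, hyr⟩ := c.mem_Γ_inl.1 hb
    rcases hy.2 b k' r hr hyr with ⟨r', hr', h⟩ | ⟨σ, -, h⟩
    · have e : c.γ b r' = c.γ a r0 + cv (k - k') := by
        rw [cv_sub, ← add_sub_assoc, ← hx0, h]; abel
      obtain ⟨rfl, rfl⟩ := c.inj b a _ r' hr' r0 hr0 e
      refine ⟨rfl, ?_⟩
      have e2 : cv (k - k') = 0 := by simpa using e.symm
      ext s
      have := congrFun e2 s
      simp only [cv_apply, Pi.sub_apply, Int.cast_sub, Pi.zero_apply] at this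
      exact_mod_cast (sub_eq_zero.1 this).symm
    · exact absurd h (hoff _ _)
  · exact absurd (hy.1 i k' hb) (hoff _ _)

lemma loc_line {Q : Λ → Bool → ℝ → Prop} (hQ : ∀ a σ, ∀ᶠ r in lf σ, Q a σ r)
    {i : Fin 3} {k : Z3} {x : E3} (hx : OnL i (x - cv k)) :
    ∀ᶠ y in 𝓝 x, (∀ j k', OnL j (y - cv k') →
        i = j ∧ k (i + 1) = k' (i + 1) ∧ k (i + 2) = k' (i + 2)) ∧
      ∀ a k', ∀ r ∈ Ioo (0 : ℝ) 1, y = c.γ a r + cv k' → ∃ σ, Q a σ r ∧ i = c.typ a σ ∧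
        k (i + 1) = (k' + c.κ a σ) (i + 1) ∧ k (i + 2) = (k' + c.κ a σ) (i + 2) := by
  filter_upwards [c.loc_struct hQ x] with y hy
  refine ⟨fun j k' h => OnL_unique hx (hy.1 j k' h), fun a k' r hr hyr => ?_⟩
  rcases hy.2 a k' r hr hyr with ⟨r', hr', h⟩ | ⟨σ, h1, h2⟩
  · refine absurd ?_ (c.off a i (k - k') r' hr')
    convert hx using 1
    rw [h, cv_sub]; abel
  · exact ⟨σ, h1, OnL_unique hx h2⟩

lemma isClosed_chan (a : Λ) (k : Z3) : IsClosed {y | y - cv k ∈ c.Γ (Sum.inl a)} := by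
  rw [← isOpen_compl_iff, isOpen_iff_mem_nhds]
  intro x hx
  have hQ : ∀ b σ, ∀ᶠ r in lf σ, 1 < |c.γ b r (c.typ b σ) + k (c.typ b σ) - x (c.typ b σ)| := by
    intro b σ
    rcases c.escape b σ with h | h
    · filter_upwards [h.eventually (eventually_gt_atTop (1 - k (c.typ b σ) + x (c.typ b σ)))]
        with r hr
      exact lt_abs.2 (Or.inl (by linarith))
    · filter_upwards [h.eventually (eventually_lt_atBot (-1 - k (c.typ b σ) + x (c.typ b σ)))]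
        with r hr
      exact lt_abs.2 (Or.inr (by linarith))
  filter_upwards [c.loc_struct hQ x, Metric.ball_mem_nhds x one_pos] with y hy hyx hya
  obtain ⟨r, hr, hyr⟩ := c.mem_Γ_inl.1 hya
  rcases hy.2 a k r hr hyr with h | ⟨σ, h1, -⟩
  · exact hx (c.mem_Γ_inl.2 h)
  · have := norm_le_pi_norm (y - x) (c.typ a σ)
    rw [mem_ball_iff_norm] at hyx
    rw [hyr] at this hyx
    simp only [Pi.sub_apply, Pi.add_apply, cv_apply, Real.norm_eq_abs] at this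
    linarith

end Chan

lemma onto_of_inj {ρ : ℝ → ℝ} (hc : Continuous ρ) (hi : Injective ρ) {s : Set ℝ}
    (hs : ∀ t, ρ t ∈ s) (h1 : ∀ p ∈ s, ∀ q ∈ s, ¬ ∀ t ≤ 0, ρ t ∈ Icc p q)
    (h2 : ∀ p ∈ s, ∀ q ∈ s, ¬ ∀ t ≥ 0, ρ t ∈ Icc p q) : s ⊆ range ρ := by
  intro r hr
  by_contra hcon
  have hside : (∀ t, ρ t < r) ∨ ∀ t, r < ρ t := by
    by_contra h
    push Not at h
    obtain ⟨⟨t1, h1⟩, t2, h2⟩ := h
    exact hcon (intermediate_value_univ t2 t1 hc ⟨h2, h1⟩)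
  rcases hc.strictMono_of_inj hi with hm | hm <;> rcases hside with h | h
  · exact h2 _ (hs 0) _ hr fun t ht => ⟨hm.monotone ht, (h t).le⟩
  · exact h1 _ hr _ (hs 0) fun t ht => ⟨(h t).le, hm.monotone ht⟩
  · exact h1 _ (hs 0) _ hr fun t ht => ⟨hm.antitone ht, (h t).le⟩
  · exact h2 _ hr _ (hs 0) fun t ht => ⟨(h t).le, hm.antitone ht⟩

namespace Chan

variable {Λ : Type} [Finite Λ] (c : Chan Λ)

/-- a proper injective curve inside `K` is one of the curves -/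
lemma range_eq {f : ℝ → E3} (hf : Continuous f) (hi : Injective f) {M : ℝ}
    (hp : ∀ t, |t| ≤ M * ‖f t - f 0‖) (hM : 0 < M) (hK : ∀ t, f t ∈ c.K) :
    ∃ b k, range f = (fun x => x + cv k) '' c.Γ b := by
  have hunb : ∀ S : Set E3, IsCompact S → (¬ ∀ t ≤ 0, f t ∈ S) ∧ ¬ ∀ t ≥ 0, f t ∈ S := by
    intro S hS
    obtain ⟨R, hR⟩ := hS.isBounded.exists_norm_le
    have key : ∀ t, f t ∈ S → f 0 ∈ S → |t| ≤ M * (2 * R) := fun t h1 h2 => by
      refine (hp t).trans (mul_le_mul_of_nonneg_left ?_ hM.le)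
      have := norm_sub_le (f t) (f 0)
      have := hR _ h1
      have := hR _ h2
      linarith
    constructor
    · intro h
      have := key (-(|M * (2 * R)| + 1)) (h _ (by have := abs_nonneg (M * (2 * R)); linarith))
        (h 0 le_rfl)
      rw [abs_neg, abs_of_pos (by positivity)] at this
      have := le_abs_self (M * (2 * R))
      linarith
    · intro h
      have := key (|M * (2 * R)| + 1) (h _ (by positivity)) (h 0 le_rfl)
      rw [abs_of_pos (by positivity)] at this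
      have := le_abs_self (M * (2 * R))
      linarith
  by_cases hA : ∃ t a k, f t - cv k ∈ c.Γ (Sum.inl a)
  · obtain ⟨t0, a, k, h0⟩ := hA
    have hclopen : IsClopen {t | f t - cv k ∈ c.Γ (Sum.inl a)} := by
      refine ⟨(c.isClosed_chan a k).preimage hf, isOpen_iff_mem_nhds.2 fun t ht => ?_⟩
      filter_upwards [hf.continuousAt.eventually (c.loc_chan ht)] with s hs
      obtain ⟨b, k', hb⟩ := hK s
      obtain ⟨rfl, rfl⟩ := hs b k' hb
      exact hb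
    have hall : ∀ t, f t - cv k ∈ c.Γ (Sum.inl a) := fun t => by
      have := hclopen.eq_univ ⟨t0, h0⟩
      exact (this ▸ mem_univ t : t ∈ {t | f t - cv k ∈ c.Γ (Sum.inl a)})
    let ρ : ℝ → ℝ := fun t => c.π a (f t - cv k)
    have hρ : ∀ t, ρ t ∈ Ioo (0 : ℝ) 1 ∧ f t = c.γ a (ρ t) + cv k := fun t => by
      obtain ⟨r, hr, h⟩ := c.mem_Γ_inl.1 (hall t)
      have : ρ t = r := by simp only [ρ, h, add_sub_cancel_right]; exact c.π_γ a r hr
      rw [this]; exact ⟨hr, h⟩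
    have hcomp : ∀ p ∈ Ioo (0 : ℝ) 1, ∀ q ∈ Ioo (0 : ℝ) 1,
        IsCompact ((fun z => z + cv k) '' (c.γ a '' Icc p q)) := fun p hp q hq =>
      (isCompact_Icc.image_of_continuousOn ((c.γ_cont a).mono fun r hr =>
        ⟨hp.1.trans_le hr.1, hr.2.trans_lt hq.2⟩)).image (continuous_id.add continuous_const)
    have honto : Ioo (0 : ℝ) 1 ⊆ range ρ := by
      refine onto_of_inj (ρ := ρ) ((c.π_smooth a).continuous.comp (hf.sub continuous_const))
        (fun s t hst => hi (by rw [(hρ s).2, (hρ t).2, hst])) (fun t => (hρ t).1) ?_ ?_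
      · intro p hp q hq h
        exact (hunb _ (hcomp p hp q hq)).1 fun t ht => ⟨_, ⟨_, h t ht, rfl⟩, (hρ t).2.symm⟩
      · intro p hp q hq h
        exact (hunb _ (hcomp p hp q hq)).2 fun t ht => ⟨_, ⟨_, h t ht, rfl⟩, (hρ t).2.symm⟩
    refine ⟨Sum.inl a, k, Subset.antisymm ?_ ?_⟩
    · rintro _ ⟨t, rfl⟩
      exact ⟨_, hall t, by simp⟩
    · rintro _ ⟨_, ⟨r, hr, rfl⟩, rfl⟩
      obtain ⟨t, rfl⟩ := honto hr
      exact ⟨t, (hρ t).2⟩
  · have hL : ∀ t, ∃ i k, OnL i (f t - cv k) := fun t => by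
      obtain ⟨b | i, k, hb⟩ := hK t
      · exact absurd ⟨t, b, k, hb⟩ hA
      · exact ⟨i, k, hb⟩
    obtain ⟨i, k, h0⟩ := hL 0
    have hclopen : IsClopen {t | OnL i (f t - cv k)} := by
      refine ⟨?_, isOpen_iff_mem_nhds.2 fun t ht => ?_⟩
      · refine IsClosed.inter (isClosed_eq ?_ continuous_const) (isClosed_eq ?_ continuous_const)
          <;> fun_prop
      · filter_upwards [hf.continuousAt.eventually (c.loc_line (Q := fun _ _ _ => True)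
          (fun _ _ => Eventually.of_forall fun _ => trivial) ht)] with s hs
        obtain ⟨j, k', hj⟩ := hL s
        obtain ⟨rfl, e1, e2⟩ := hs.1 j k' hj
        obtain ⟨a1, a2⟩ := hj
        constructor
        · simpa [e1] using a1
        · simpa [e2] using a2
    have hall : ∀ t, OnL i (f t - cv k) := fun t => by
      have := hclopen.eq_univ ⟨0, h0⟩
      exact (this ▸ mem_univ t : t ∈ {t | OnL i (f t - cv k)})
    let g : ℝ → E3 := fun r => fun s => if s = i then r else f 0 s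
    have hg : Continuous g := by
      refine continuous_pi fun s => ?_
      by_cases hs : s = i
      · simp only [g, hs, if_true]; exact continuous_id
      · simp only [g, hs, if_false]; exact continuous_const
    have hi1 : i + 1 ≠ i := fin3_ne1 i
    have hi2 : i + 2 ≠ i := fin3_ne2 i
    have hgl : ∀ y, OnL i (y - cv k) → y = g (y i) := fun y hy => by
      ext s
      obtain ⟨a1, a2⟩ := hy
      obtain ⟨b1, b2⟩ := h0
      simp only [Pi.sub_apply] at a1 a2 b1 b2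
      rcases fin3_cases i s with rfl | rfl | rfl
      · simp [g]
      · simp only [g, hi1, if_false]; linarith
      · simp only [g, hi2, if_false]; linarith
    have honto : (univ : Set ℝ) ⊆ range fun t => f t i := by
      refine onto_of_inj (by fun_prop)
        (fun s t hst => hi (by rw [hgl _ (hall s), hgl _ (hall t)]; exact congrArg g hst))
        (fun t => mem_univ _) ?_ ?_
      · intro p _ q _ h
        exact (hunb _ (isCompact_Icc.image hg)).1 fun t ht => ⟨_, h t ht, (hgl _ (hall t)).symm⟩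
      · intro p _ q _ h
        exact (hunb _ (isCompact_Icc.image hg)).2 fun t ht => ⟨_, h t ht, (hgl _ (hall t)).symm⟩
    refine ⟨Sum.inr i, k, Subset.antisymm ?_ ?_⟩
    · rintro _ ⟨t, rfl⟩
      exact ⟨_, hall t, by simp⟩
    · rintro _ ⟨y, hy, rfl⟩
      obtain ⟨t, ht⟩ := honto (mem_univ ((y + cv k) i))
      refine ⟨t, ?_⟩
      have hy' : OnL i (y + cv k - cv k) := by rw [add_sub_cancel_right]; exact hy
      show f t = y + cv k
      rw [hgl _ (hall t), hgl _ hy']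
      exact congrArg g ht

omit [Finite Λ] in
lemma approach (a : Λ) (σ : Bool) {Q : ℝ → Prop} (hQ : ∀ᶠ r in lf σ, Q r) {η : ℝ} (hη : 0 < η)
    (τ : ℤ) : ∃ n : ℤ, ∃ r ∈ Ioo (0 : ℝ) 1, ∃ r' ∈ Ioo (0 : ℝ) 1, Q r ∧ Q r' ∧
      ‖c.γ a r - (bp (c.typ a σ) + cv (c.κ a σ + ev (c.typ a σ) n))‖ < η ∧
      ‖c.γ a r' - (bp (c.typ a σ) + cv (c.κ a σ + ev (c.typ a σ) n + ev (c.typ a σ) τ))‖ < η := by
  set i := c.typ a σ with hi
  have h1 := (c.conv1 a σ).eventually (Metric.ball_mem_nhds _ hη)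
  have h2 := (c.conv2 a σ).eventually (Metric.ball_mem_nhds _ hη)
  obtain ⟨J, hJ, hJc, hJl⟩ := exists_preconnected_lf
    (Filter.inter_mem (Ioo_mem_lf σ) (hQ.and (h1.and h2)))
  have := lf_neBot σ
  obtain ⟨r0, hr0⟩ := Filter.nonempty_of_mem hJl
  have hcont : ContinuousOn (fun r => c.γ a r i) J :=
    (continuous_apply i).comp_continuousOn ((c.γ_cont a).mono fun r hr => (hJ hr).1)
  have hi1 : i + 1 ≠ i := fin3_ne1 i
  have hi2 : i + 2 ≠ i := fin3_ne2 i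
  have hi3 : i + 1 ≠ i + 2 := fin3_ne3 i
  have key : ∀ (n : ℤ), ∀ r ∈ J, c.γ a r i = (c.κ a σ i : ℝ) + n →
      ‖c.γ a r - (bp i + cv (c.κ a σ + ev i n))‖ < η := fun n r hr hn => by
    refine (pi_norm_lt_iff hη).2 fun s => ?_
    obtain ⟨-, -, a1, a2⟩ := hJ hr
    rw [Real.dist_eq, ← hi] at a1 a2
    rcases fin3_cases i s with rfl | rfl | rfl
    · simpa [bp, ev, hi2.symm, hn] using hη
    · simpa [bp, ev, hi1, hi3] using a1
    · simp only [bp, ev, Pi.sub_apply, Pi.add_apply, Pi.single_eq_same, cv_apply,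
        Pi.single_eq_of_ne hi2, add_zero, Real.norm_eq_abs]
      rwa [add_comm (1 / 2 : ℝ)]
  have fin : ∀ n : ℤ, (c.κ a σ i : ℝ) + n ∈ (fun r => c.γ a r i) '' J →
      (c.κ a σ i : ℝ) + (n + τ : ℤ) ∈ (fun r => c.γ a r i) '' J →
      ∃ n : ℤ, ∃ r ∈ Ioo (0 : ℝ) 1, ∃ r' ∈ Ioo (0 : ℝ) 1, Q r ∧ Q r' ∧
      ‖c.γ a r - (bp i + cv (c.κ a σ + ev i n))‖ < η ∧
      ‖c.γ a r' - (bp i + cv (c.κ a σ + ev i n + ev i τ))‖ < η := by
    rintro n ⟨r, hr, e⟩ ⟨r', hr', e'⟩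
    refine ⟨n, r, (hJ hr).1, r', (hJ hr').1, (hJ hr).2.1, (hJ hr').2.1, key n r hr e, ?_⟩
    rw [add_assoc, ← ev_add]
    exact key _ r' hr' e'
  rcases c.escape a σ with h | h
  · have hsub := hJc.intermediate_value_Ici hr0 (le_principal_iff.2 hJl) hcont h
    obtain ⟨n, hn⟩ := exists_int_gt (c.γ a r0 i - c.κ a σ i + |(τ : ℝ)|)
    have := abs_nonneg (τ : ℝ)
    have := neg_abs_le (τ : ℝ)
    refine fin n (hsub ?_) (hsub ?_)
    · show c.γ a r0 i ≤ _; linarith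
    · show c.γ a r0 i ≤ _; push_cast; linarith
  · have hsub := hJc.intermediate_value_Iic hr0 (le_principal_iff.2 hJl) hcont h
    obtain ⟨n, hn⟩ := exists_int_lt (c.γ a r0 i - c.κ a σ i - |(τ : ℝ)|)
    have := abs_nonneg (τ : ℝ)
    have := le_abs_self (τ : ℝ)
    refine fin n (hsub ?_) (hsub ?_)
    · show _ ≤ c.γ a r0 i; linarith
    · show _ ≤ c.γ a r0 i; push_cast; linarith

end Chan

end Pool.Agent.MP_4d76c1_gt
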