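import Mathlib

open Set MeasureTheory
open scoped ENNReal

namespace Pool.Agent.MP_4d76c1_gt

/-- The Riemannian distance on `ℝ³` of a field `G` of bilinear forms: the infimum of the lengths
`∫₀¹ √(G(γ t)(γ' t, γ' t)) dt` of the `C¹` paths `γ : [0,1] → ℝ³` from `x` to `y`. -/
noncomputable def riemDist (G : (Fin 3 → ℝ) → (Fin 3 → ℝ) →L[ℝ] (Fin 3 → ℝ) →L[ℝ] ℝ)
    (x y : Fin 3 → ℝ) : ℝ≥0∞ :=
  ⨅ (γ : ℝ → Fin 3 → ℝ) (_ : ContDiffOn ℝ 1 γ (Icc 0 1)) (_ : γ 0 = x) (_ : γ 1 = y),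
    ∫⁻ t in Icc (0 : ℝ) 1, ENNReal.ofReal (Real.sqrt (G (γ t) (deriv γ t) (deriv γ t)))

end Pool.Agent.MP_4d76c1_gt
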