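import Mathlib
import Pool.Agent.MP_4d76c1_gt.Defs
import Pool.Agent.MP_4d76c1_gt.Glue

open Set Filter Topology Function MeasureTheory
open scoped Manifold ContDiff ENNReal

set_option linter.style.haveILetI false

namespace Pool.Agent.MP_4d76c1_gt

abbrev Bil : Type := E3 →L[ℝ] E3 →L[ℝ] ℝ

/-- the family of extended norms on tangent spaces given by `G` -/
@[reducible] noncomputable def enormOf (G : E3 → Bil) :
    ∀ z : E3, ENorm (TangentSpace 𝓘(ℝ, E3) z) :=
  fun z => ⟨fun v => ENNReal.ofReal (Real.sqrt (G z v v))⟩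

lemma enormSMul (G : E3 → Bil) :
    letI := enormOf G
    ∀ z : E3, ENormSMulClass ℝ (TangentSpace 𝓘(ℝ, E3) z) := by
  letI := enormOf G
  intro z
  refine ⟨fun c v => ?_⟩
  show ENNReal.ofReal (Real.sqrt (G z (c • (v : E3)) (c • (v : E3)))) =
    ‖c‖ₑ * ENNReal.ofReal (Real.sqrt (G z v v))
  have h : ∀ w : E3, G z (c • w) (c • w) = c ^ 2 * G z w w := fun w => by
    simp only [map_smul, smul_apply, smul_eq_mul]; ring
  have : G z (c • (v : E3)) (c • (v : E3)) = c ^ 2 * G z v v := h v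
  rw [this, Real.sqrt_mul (sq_nonneg c), Real.sqrt_sq_eq_abs, ENNReal.ofReal_mul (abs_nonneg c),
    Real.enorm_eq_ofReal_abs]

lemma pathELength_eq (G : E3 → Bil) (γ : ℝ → E3) (a b : ℝ) :
    letI := enormOf G
    Manifold.pathELength 𝓘(ℝ, E3) γ a b =
      ∫⁻ t in Icc a b, ENNReal.ofReal (Real.sqrt (G (γ t) (deriv γ t) (deriv γ t))) := by
  letI := enormOf G
  rw [Manifold.pathELength_eq_lintegral_mfderiv_Icc]
  refine lintegral_congr fun t => ?_
  have : mfderiv 𝓘(ℝ, ℝ) 𝓘(ℝ, E3) γ t 1 = deriv γ t := by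
    rw [mfderiv_eq_fderiv]; rfl
  show ENNReal.ofReal (Real.sqrt (G (γ t) (mfderiv 𝓘(ℝ, ℝ) 𝓘(ℝ, E3) γ t 1)
    (mfderiv 𝓘(ℝ, ℝ) 𝓘(ℝ, E3) γ t 1))) = _
  rw [this]

lemma riemDist_eq (G : E3 → Bil) (x y : E3) :
    letI := enormOf G
    riemDist G x y = Manifold.riemannianEDist 𝓘(ℝ, E3) x y := by
  letI := enormOf G
  haveI := enormSMul G
  apply le_antisymm
  · refine le_of_forall_gt fun r hr => ?_
    obtain ⟨γ, h0, h1, hγ, hl⟩ := Manifold.exists_lt_of_riemannianEDist_lt hr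
    rw [pathELength_eq] at hl
    refine lt_of_le_of_lt ?_ hl
    exact iInf_le_of_le γ (iInf_le_of_le hγ.contDiffOn (iInf_le_of_le h0 (iInf_le _ h1)))
  · refine le_iInf fun γ => le_iInf fun hγ => le_iInf fun h0 => le_iInf fun h1 => ?_
    rw [← pathELength_eq]
    exact Manifold.riemannianEDist_le_pathELength hγ.contMDiffOn h0 h1 zero_le_one

lemma riemDist_triangle (G : E3 → Bil) (x y z : E3) :
    riemDist G x z ≤ riemDist G x y + riemDist G y z := by
  letI := enormOf G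
  haveI := enormSMul G
  rw [riemDist_eq, riemDist_eq, riemDist_eq]
  exact Manifold.riemannianEDist_triangle

lemma riemDist_comm (G : E3 → Bil) (x y : E3) : riemDist G x y = riemDist G y x := by
  letI := enormOf G
  haveI := enormSMul G
  rw [riemDist_eq, riemDist_eq]
  exact Manifold.riemannianEDist_comm

lemma riemDist_le_path (G : E3 → Bil) {γ : ℝ → E3} {a b : ℝ} (hab : a ≤ b)
    (hγ : ContDiffOn ℝ 1 γ (Icc a b)) :
    riemDist G (γ a) (γ b) ≤
      ∫⁻ t in Icc a b, ENNReal.ofReal (Real.sqrt (G (γ t) (deriv γ t) (deriv γ t))) := by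
  letI := enormOf G
  haveI := enormSMul G
  rw [riemDist_eq, ← pathELength_eq]
  exact Manifold.riemannianEDist_le_pathELength hγ.contMDiffOn rfl rfl hab

lemma riemDist_le_of_deriv (G : E3 → Bil) {γ : ℝ → E3} {a b : ℝ} (hab : a ≤ b)
    (hγ : ContDiffOn ℝ 1 γ (Icc a b)) {S S' : ℝ → ℝ} (hS : ∀ t ∈ Icc a b, HasDerivAt S (S' t) t)
    (hS' : ContinuousOn S' (Icc a b)) (h0 : ∀ t ∈ Icc a b, 0 ≤ S' t)
    (hG : ∀ t ∈ Icc a b, G (γ t) (deriv γ t) (deriv γ t) ≤ S' t ^ 2) :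
    riemDist G (γ a) (γ b) ≤ ENNReal.ofReal (S b - S a) := by
  refine (riemDist_le_path G hab hγ).trans ?_
  have hint : IntegrableOn S' (Icc a b) := hS'.integrableOn_Icc
  have h1 : ∫ t in Icc a b, S' t = S b - S a := by
    rw [integral_Icc_eq_integral_Ioc, ← intervalIntegral.integral_of_le hab]
    refine intervalIntegral.integral_eq_sub_of_hasDerivAt (fun t ht => hS t ?_) ?_
    · rwa [uIcc_of_le hab] at ht
    · exact (intervalIntegrable_iff_integrableOn_Icc_of_le hab).2 hint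
  rw [← h1, ofReal_integral_eq_lintegral_ofReal hint
    ((ae_restrict_iff' measurableSet_Icc).2 (Eventually.of_forall h0))]
  refine setLIntegral_mono' measurableSet_Icc fun t ht => ENNReal.ofReal_le_ofReal ?_
  exact Real.sqrt_le_iff.2 ⟨h0 t ht, hG t ht⟩

lemma sub_le_riemDist (G : E3 → Bil) {f : E3 → ℝ} (hf : ContDiff ℝ 1 f)
    (hG : ∀ y v, (fderiv ℝ f y v) ^ 2 ≤ G y v v) (x y : E3) :
    ENNReal.ofReal (f y - f x) ≤ riemDist G x y := by
  refine le_iInf fun γ => le_iInf fun hγ => le_iInf fun h0 => le_iInf fun h1 => ?_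
  have hc : ContDiffOn ℝ 1 (f ∘ γ) (Icc 0 1) := hf.comp_contDiffOn hγ
  have h2 := enorm_sub_le_lintegral_deriv_of_contDiffOn_Icc hc zero_le_one
  simp only [comp_apply, h0, h1] at h2
  refine le_trans ?_ (h2.trans ?_)
  · rw [Real.enorm_eq_ofReal_abs]
    exact ENNReal.ofReal_le_ofReal (le_abs_self _)
  · rw [← restrict_Ioo_eq_restrict_Icc]
    refine setLIntegral_mono' measurableSet_Ioo fun t ht => ?_
    have hd : DifferentiableAt ℝ γ t :=
      (hγ.differentiableOn one_ne_zero).differentiableAt (Icc_mem_nhds ht.1 ht.2)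
    have h3 : deriv (f ∘ γ) t = fderiv ℝ f (γ t) (deriv γ t) :=
      (((hf.differentiable one_ne_zero) (γ t)).hasFDerivAt.comp_hasDerivAt t hd.hasDerivAt).deriv
    rw [h3, Real.enorm_eq_ofReal_abs]
    exact ENNReal.ofReal_le_ofReal (Real.abs_le_sqrt (hG _ _))

lemma riemDist_translate_le (G : E3 → Bil) (w : E3) (hw : ∀ x, G (x + w) = G x) (x y : E3) :
    riemDist G (x + w) (y + w) ≤ riemDist G x y := by
  refine le_iInf fun γ => le_iInf fun hγ => le_iInf fun h0 => le_iInf fun h1 => ?_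
  have h2 := riemDist_le_path G (γ := fun t => γ t + w) zero_le_one (hγ.add contDiffOn_const)
  simp only [h0, h1, hw, deriv_add_const] at h2
  exact h2

lemma riemDist_translate (G : E3 → Bil) (hper : ∀ x (k : Z3), G (x + cv k) = G x) (k : Z3)
    (x y : E3) : riemDist G (x + cv k) (y + cv k) = riemDist G x y := by
  refine le_antisymm (riemDist_translate_le G _ (fun x => hper x k) x y) ?_
  have := riemDist_translate_le G (cv (-k)) (fun x => hper x (-k)) (x + cv k) (y + cv k)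
  simpa [cv_neg] using this

lemma exists_bounds (G : E3 → Bil) (hc : Continuous G) (hpos : ∀ x v, v ≠ 0 → 0 < G x v v)
    (hper : ∀ x (k : Z3), G (x + cv k) = G x) :
    ∃ m M : ℝ, 0 < m ∧ 0 < M ∧ ∀ x v, (m * ‖v‖) ^ 2 ≤ G x v v ∧ G x v v ≤ (M * ‖v‖) ^ 2 := by
  have hK : IsCompact (Metric.closedBall (0 : E3) 1 ×ˢ Metric.sphere (0 : E3) 1) :=
    (isCompact_closedBall _ _).prod (isCompact_sphere _ _)
  have hne : (Metric.closedBall (0 : E3) 1 ×ˢ Metric.sphere (0 : E3) 1).Nonempty :=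
    ⟨(0, fun _ => 1), by simp, by simp⟩
  have hcont : Continuous fun p : E3 × E3 => G p.1 p.2 p.2 := by fun_prop
  obtain ⟨p, hp, hmin⟩ := hK.exists_isMinOn hne hcont.continuousOn
  obtain ⟨q, hq, hmax⟩ := hK.exists_isMaxOn hne hcont.continuousOn
  have hp0 : 0 < G p.1 p.2 p.2 := hpos _ _ (by
    intro h; have := hp.2; simp [h] at this)
  have hq0 : 0 < G q.1 q.2 q.2 := hpos _ _ (by
    intro h; have := hq.2; simp [h] at this)
  refine ⟨Real.sqrt (G p.1 p.2 p.2), Real.sqrt (G q.1 q.2 q.2), Real.sqrt_pos.2 hp0,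
    Real.sqrt_pos.2 hq0, fun x v => ?_⟩
  rcases eq_or_ne v 0 with rfl | hv
  · simp
  have hn : 0 < ‖v‖ := norm_pos_iff.2 hv
  have hx : G x = G (x - cv (fl x)) := by
    rw [← hper (x - cv (fl x)) (fl x), sub_add_cancel]
  have hmem : (x - cv (fl x), ‖v‖⁻¹ • v) ∈
      Metric.closedBall (0 : E3) 1 ×ˢ Metric.sphere (0 : E3) 1 := by
    refine ⟨by simpa using norm_sub_fl x, ?_⟩
    simp [norm_smul, hn.ne']
  have h1 : G p.1 p.2 p.2 ≤ G (x - cv (fl x)) (‖v‖⁻¹ • v) (‖v‖⁻¹ • v) := hmin hmem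
  have h2 : G (x - cv (fl x)) (‖v‖⁻¹ • v) (‖v‖⁻¹ • v) ≤ G q.1 q.2 q.2 := hmax hmem
  have h3 : G x v v = ‖v‖ ^ 2 * G (x - cv (fl x)) (‖v‖⁻¹ • v) (‖v‖⁻¹ • v) := by
    rw [← hx]
    simp only [map_smul, smul_apply, smul_eq_mul]
    field_simp
  rw [mul_pow, mul_pow, Real.sq_sqrt hp0.le, Real.sq_sqrt hq0.le, h3]
  constructor <;> nlinarith [sq_nonneg ‖v‖]

lemma riemDist_le_norm (G : E3 → Bil) {M : ℝ} (hM : 0 ≤ M)
    (h : ∀ x v, G x v v ≤ (M * ‖v‖) ^ 2) (x y : E3) :
    riemDist G x y ≤ ENNReal.ofReal (M * ‖y - x‖) := by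
  have hd : ∀ t : ℝ, HasDerivAt (fun t : ℝ => x + t • (y - x)) (y - x) t := fun t => by
    simpa using ((hasDerivAt_id t).smul_const (y - x)).const_add x
  have := riemDist_le_of_deriv G (γ := fun t : ℝ => x + t • (y - x)) zero_le_one
    (by fun_prop) (S := fun t => t * (M * ‖y - x‖)) (S' := fun _ => M * ‖y - x‖)
    (fun t _ => by simpa using (hasDerivAt_id t).mul_const (M * ‖y - x‖)) continuousOn_const
    (fun _ _ => by positivity) (fun t _ => by rw [(hd t).deriv]; exact h _ _)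
  simpa using this

lemma norm_le_riemDist (G : E3 → Bil) {m : ℝ} (hm : 0 < m)
    (h : ∀ x v, (m * ‖v‖) ^ 2 ≤ G x v v) (x y : E3) :
    ENNReal.ofReal (m * ‖y - x‖) ≤ riemDist G x y := by
  obtain ⟨i, hi⟩ : ∃ i, ‖y - x‖ = |y i - x i| := by
    obtain ⟨i, -, hi⟩ := Finset.exists_max_image Finset.univ (fun i => |y i - x i|)
      Finset.univ_nonempty
    refine ⟨i, le_antisymm ?_ ?_⟩
    · exact (pi_norm_le_iff_of_nonneg (abs_nonneg _)).2 fun j => hi j (Finset.mem_univ j)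
    · exact norm_le_pi_norm (y - x) i
  have key : ∀ s : ℝ, |s| = m → ENNReal.ofReal (s * y i - s * x i) ≤ riemDist G x y := by
    intro s hs
    refine sub_le_riemDist G (f := fun z => s * z i) (by fun_prop) (fun z v => ?_) x y
    have hd : HasFDerivAt (fun z : E3 => s * z i)
        (s • ContinuousLinearMap.proj (R := ℝ) (φ := fun _ : Fin 3 => ℝ) i) z :=
      (ContinuousLinearMap.proj (R := ℝ) (φ := fun _ : Fin 3 => ℝ) i).hasFDerivAt.const_mul s
    rw [hd.fderiv]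
    refine le_trans ?_ (h z v)
    simp only [smul_apply, ContinuousLinearMap.proj_apply, smul_eq_mul]
    rw [sq_le_sq, abs_mul, hs, abs_of_nonneg (by positivity : 0 ≤ m * ‖v‖)]
    gcongr
    exact norm_le_pi_norm v i
  rw [hi]
  rcases le_total (x i) (y i) with h1 | h1
  · have := key m (abs_of_pos hm)
    rwa [abs_of_nonneg (sub_nonneg.2 h1), mul_sub]
  · have := key (-m) (by rw [abs_neg, abs_of_pos hm])
    rw [abs_of_nonpos (sub_nonpos.2 h1)]
    convert this using 2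
    ring

end Pool.Agent.MP_4d76c1_gt
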