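import Mathlib
import Pool.Agent.MP_4d76c1_gt.Chan
import Pool.Agent.MP_4d76c1_gt.Dist

open Set Filter Topology Function
open scoped ContDiff

namespace Pool.Agent.MP_4d76c1_gt

/-- coordinate projection -/
noncomputable abbrev pr (r : Fin 3) : E3 →L[ℝ] ℝ :=
  ContinuousLinearMap.proj (R := ℝ) (φ := fun _ : Fin 3 => ℝ) r

/-- local model of the metric -/
noncomputable def Qm (p : E3 →L[ℝ] ℝ) (V : E3) (μ : ℝ) : Bil :=
  p.smulRight p + ∑ r, (pr r - V r • p).smulRight (pr r - V r • p) +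
    μ • ∑ r, (pr r).smulRight (pr r)

lemma Qm_apply (p : E3 →L[ℝ] ℝ) (V : E3) (μ : ℝ) (v w : E3) :
    Qm p V μ v w = p v * p w + ∑ r, (v r - V r * p v) * (w r - V r * p w) + μ * ∑ r, v r * w r := by
  simp [Qm, sum_apply]

lemma Qm_symm (p : E3 →L[ℝ] ℝ) (V : E3) (μ : ℝ) (v w : E3) : Qm p V μ v w = Qm p V μ w v := by
  simp only [Qm_apply, mul_comm]

lemma sum_sq_pos {v : E3} (hv : v ≠ 0) : 0 < ∑ r, v r * v r := by
  obtain ⟨r, hr⟩ := Function.ne_iff.1 hv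
  exact Finset.sum_pos' (fun s _ => mul_self_nonneg _)
    ⟨r, Finset.mem_univ r, mul_self_pos.2 hr⟩

lemma Qm_lower (p : E3 →L[ℝ] ℝ) (V : E3) {μ : ℝ} (hμ : 0 ≤ μ) (v : E3) :
    p v ^ 2 ≤ Qm p V μ v v := by
  rw [Qm_apply]
  have h1 : 0 ≤ ∑ r, (v r - V r * p v) * (v r - V r * p v) :=
    Finset.sum_nonneg fun s _ => mul_self_nonneg _
  have h2 : 0 ≤ μ * ∑ r, v r * v r := mul_nonneg hμ (Finset.sum_nonneg fun s _ => mul_self_nonneg _)
  nlinarith

lemma Qm_strict (p : E3 →L[ℝ] ℝ) (V : E3) {μ : ℝ} (hμ : 0 < μ) {v : E3} (hv : v ≠ 0) :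
    p v ^ 2 < Qm p V μ v v := by
  rw [Qm_apply]
  have h1 : 0 ≤ ∑ r, (v r - V r * p v) * (v r - V r * p v) :=
    Finset.sum_nonneg fun s _ => mul_self_nonneg _
  have h2 : 0 < μ * ∑ r, v r * v r := mul_pos hμ (sum_sq_pos hv)
  nlinarith

lemma Qm_pos (p : E3 →L[ℝ] ℝ) (V : E3) {μ : ℝ} (hμ : 0 ≤ μ) {v : E3} (hv : v ≠ 0) :
    0 < Qm p V μ v v := by
  rcases eq_or_ne (p v) 0 with h | h
  · rw [Qm_apply, h]
    have h2 : 0 ≤ μ * ∑ r, v r * v r :=
      mul_nonneg hμ (Finset.sum_nonneg fun s _ => mul_self_nonneg _)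
    have := sum_sq_pos hv
    simp only [mul_zero, sub_zero, zero_add]
    linarith
  · exact lt_of_lt_of_le (by positivity) (Qm_lower p V hμ v)

lemma Qm_tangent (p : E3 →L[ℝ] ℝ) (V : E3) {v : E3} (hv : v = p v • V) :
    Qm p V 0 v v = p v ^ 2 := by
  rw [Qm_apply]
  have : ∀ r, v r - V r * p v = 0 := fun r => by
    have := congrFun hv r
    simp only [Pi.smul_apply, smul_eq_mul] at this
    linarith
  simp [this, sq]

lemma Qm_contDiffAt {p : E3 → E3 →L[ℝ] ℝ} {V : E3 → E3} {μ : E3 → ℝ} {x : E3}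
    (hp : ContDiffAt ℝ ∞ p x) (hV : ContDiffAt ℝ ∞ V x) (hμ : ContDiffAt ℝ ∞ μ x) :
    ContDiffAt ℝ ∞ (fun y => Qm (p y) (V y) (μ y)) x := by
  unfold Qm
  refine ((hp.smulRight hp).add (ContDiffAt.sum fun r _ => ?_)).add (hμ.smul contDiffAt_const)
  have h : ContDiffAt ℝ ∞ (fun y => pr r - V y r • p y) x :=
    contDiffAt_const.sub ((contDiffAt_pi.1 hV r).smul hp)
  exact h.smulRight h

lemma contDiff_dot (l : Sgn) : ContDiff ℝ ∞ (dot l) := by
  unfold dot; fun_prop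

lemma fderiv_shift {F : Type*} [NormedAddCommGroup F] [NormedSpace ℝ F] (f : E3 → F) (w y : E3)
    (C : F) : fderiv ℝ (fun z => f (z - w) + C) y = fderiv ℝ f (y - w) := by
  rw [fderiv_add_const, fderiv_comp_sub]

lemma fderiv_coord (s : ℝ) (i : Fin 3) (y v : E3) :
    fderiv ℝ (fun x : E3 => s * x i) y v = s * v i := by
  have hd : HasFDerivAt (fun z : E3 => s * z i) (s • pr i) y := (pr i).hasFDerivAt.const_mul s
  rw [hd.fderiv]; rfl

lemma abs_sz_mul (b : Bool) (x : ℝ) : |(sz b : ℝ) * x| = |x| := by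
  cases b <;> simp [sz]

lemma contDiff_fderiv {f : E3 → ℝ} (hf : ContDiff ℝ ∞ f) : ContDiff ℝ ∞ (fderiv ℝ f) :=
  hf.fderiv_right (m := ∞) le_rfl

namespace Chan

variable {Λ : Type} [Finite Λ] (c : Chan Λ)

/-- models of the calibrating functions along the base curves -/
def Fm (l : Sgn) : Λ ⊕ Fin 3 → E3 → ℝ
  | Sum.inl a => c.F a l
  | Sum.inr i => fun x => (sz (l i) : ℝ) * x i

omit [Finite Λ] in
lemma Fm_smooth (l : Sgn) (b : Λ ⊕ Fin 3) : ContDiff ℝ ∞ (c.Fm l b) := by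
  rcases b with a | i
  · exact c.F_smooth a l
  · unfold Fm; fun_prop

lemma line_model (l : Sgn) {i : Fin 3} {k k' : Z3} (e1 : k (i + 1) = k' (i + 1))
    (e2 : k (i + 2) = k' (i + 2)) (z : E3) :
    (sz (l i) : ℝ) * (z - cv k') i + dot l (cv k') = (sz (l i) : ℝ) * (z - cv k) i + dot l (cv k) := by
  have : k' = k + ev i (k' i - k i) := by
    ext s
    rcases fin3_cases i s with rfl | rfl | rfl
    · simp [ev]
    · simp [ev, fin3_ne1, e1]
    · simp [ev, fin3_ne2, e2]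
  rw [this, cv_add, dot_add, dot_ev]
  simp [ev]; ring

lemma exists_u (l : Sgn) : ∃ u : E3 → ℝ, ContDiff ℝ ∞ u ∧
    (∀ x k, u (x + cv k) = u x + dot l (cv k)) ∧
    ∀ b k y, y - cv k ∈ c.Γ b → u =ᶠ[𝓝 y] fun z => c.Fm l b (z - cv k) + dot l (cv k) := by
  refine Exists.elim (periodic_glue (F := ℝ) (I := (Λ ⊕ Fin 3) × Z3) (fun y => 𝓝 y)
    (fun _ => le_rfl) (fun y k => (continuous_id.sub continuous_const).tendsto y)
    (fun a => {y | y - cv a.2 ∈ c.Γ a.1})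
    (fun a z => {c.Fm l a.1 (z - cv a.2) + dot l (cv a.2) - dot l z})
    (fun _ _ => convex_singleton _)
    (fun k a => ⟨(a.1, a.2 - k), fun y hy => by
      show y - cv k - cv (a.2 - k) ∈ c.Γ a.1
      rw [cv_sub, sub_sub_sub_cancel_right]; exact hy, fun z => by
      rw [singleton_subset_singleton]
      simp only [cv_sub, sub_sub_sub_cancel_right, dot_sub]; ring⟩) ?_) ?_
  rotate_left
  · rintro g ⟨hg, hper, hgerm⟩
    refine ⟨fun z => g z + dot l z, hg.add (contDiff_dot l), fun x k => ?_, fun b k y hy => ?_⟩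
    · simp only [hper, dot_add]; ring
    · filter_upwards [hgerm (b, k) y hy] with z hz
      rw [mem_singleton_iff] at hz
      rw [hz]; ring
  intro x
  have hsm : ∀ b k, ContDiff ℝ ∞ fun z => c.Fm l b (z - cv k) + dot l (cv k) - dot l z :=
    fun b k => (((c.Fm_smooth l b).comp (contDiff_id.sub contDiff_const)).add
      contDiff_const).sub (contDiff_dot l)
  by_cases hx : x ∈ c.K
  · obtain ⟨b, k, hb⟩ := hx
    refine ⟨fun z => c.Fm l b (z - cv k) + dot l (cv k) - dot l z, ?_⟩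
    rcases b with a | i
    · filter_upwards [c.loc_chan hb] with y hy
      refine ⟨(hsm _ _).contDiffAt, ?_⟩
      rintro ⟨b, k'⟩ h
      obtain ⟨rfl, rfl⟩ := hy b k' h
      exact Eventually.of_forall fun z => rfl
    · filter_upwards [c.loc_line (fun a σ => c.germ a σ l) hb] with y hy
      refine ⟨(hsm _ _).contDiffAt, ?_⟩
      rintro ⟨b | j, k'⟩ h
      · obtain ⟨r, hr, hyr⟩ := c.mem_Γ_inl.1 h
        obtain ⟨σ, h1, rfl, e1, e2⟩ := hy.2 b k' r hr hyr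
        have ht : Tendsto (fun z => z - cv k') (𝓝 y) (𝓝 (c.γ b r)) := by
          have : Tendsto (fun z => z - cv k') (𝓝 y) (𝓝 (y - cv k')) :=
            (continuous_id.sub (continuous_const (y := cv k'))).tendsto y
          rwa [show y - cv k' = c.γ b r by rw [hyr, add_sub_cancel_right]] at this
        filter_upwards [ht.eventually h1] with z hz
        rw [mem_singleton_iff]
        simp only [Fm]
        rw [hz, ← line_model l e1 e2 z, cv_add, dot_add, sub_sub]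
        ring
      · obtain ⟨rfl, e1, e2⟩ := hy.1 j k' h
        refine Eventually.of_forall fun z => ?_
        rw [mem_singleton_iff]
        simp only [Fm]
        rw [line_model l e1 e2 z]
  · refine ⟨fun _ => 0, ?_⟩
    filter_upwards [c.loc_off hx] with y hy
    exact ⟨contDiffAt_const, fun a ha => absurd ⟨a.1, a.2, ha⟩ hy⟩

omit [Finite Λ] in
lemma K_per (y : E3) (k : Z3) : y - cv k ∈ c.K ↔ y ∈ c.K := by
  constructor
  · rintro ⟨b, k', h⟩
    exact ⟨b, k + k', by rwa [cv_add, ← sub_sub]⟩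
  · rintro ⟨b, k', h⟩
    exact ⟨b, k' - k, by rwa [cv_sub, sub_sub_sub_cancel_right]⟩

/-- the convex conditions on the metric -/
def Cond (u : Sgn → E3 → ℝ) (y : E3) : Set Bil :=
  {Q | (∀ v w, Q v w = Q w v) ∧ (∀ v, v ≠ 0 → 0 < Q v v) ∧
    (∀ l v, fderiv ℝ (u l) y v ^ 2 ≤ Q v v) ∧
    (y ∉ c.K → ∀ l v, v ≠ 0 → fderiv ℝ (u l) y v ^ 2 < Q v v) ∧
    (∀ a k, ∀ r ∈ Ioo (0 : ℝ) 1, y = c.γ a r + cv k → Q (deriv (c.γ a) r) (deriv (c.γ a) r) ≤
      fderiv ℝ (c.sig a) (c.γ a r) (deriv (c.γ a) r) ^ 2) ∧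
    ∀ i k, OnL i (y - cv k) → Q (Pi.single i 1) (Pi.single i 1) ≤ 1}

omit [Finite Λ] in
lemma convex_Cond (u : Sgn → E3 → ℝ) (y : E3) : Convex ℝ (c.Cond u y) := by
  intro P hP Q hQ s t hs ht hst
  obtain ⟨p1, p2, p3, p4, p5, p6⟩ := hP
  obtain ⟨q1, q2, q3, q4, q5, q6⟩ := hQ
  have e : ∀ v w, (s • P + t • Q) v w = s * P v w + t * Q v w := fun v w => by simp
  have hle : ∀ {A B C : ℝ}, C ≤ A → C ≤ B → C ≤ s * A + t * B := fun {A B C} h1 h2 =>
    (convex_Ici C) h1 h2 hs ht hst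
  have hlt : ∀ {A B C : ℝ}, C < A → C < B → C < s * A + t * B := fun {A B C} h1 h2 =>
    (convex_Ioi C) h1 h2 hs ht hst
  have hge : ∀ {A B C : ℝ}, A ≤ C → B ≤ C → s * A + t * B ≤ C := fun {A B C} h1 h2 =>
    (convex_Iic C) h1 h2 hs ht hst
  refine ⟨fun v w => ?_, fun v hv => ?_, fun l v => ?_, fun hy l v hv => ?_,
    fun a k r hr h => ?_, fun i k h => ?_⟩ <;> rw [e]
  · rw [e, p1, q1]
  · exact hlt (p2 v hv) (q2 v hv)
  · exact hle (p3 l v) (q3 l v)
  · exact hlt (p4 hy l v hv) (q4 hy l v hv)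
  · exact hge (p5 a k r hr h) (q5 a k r hr h)
  · exact hge (p6 i k h) (q6 i k h)

omit [Finite Λ] in
lemma mem_Cond {u : Sgn → E3 → ℝ} {y : E3} {p : E3 →L[ℝ] ℝ} {V : E3} {μ : ℝ} (hμ : 0 ≤ μ)
    (hμ' : y ∉ c.K ↔ μ ≠ 0) (hp : ∀ l v, |fderiv ℝ (u l) y v| ≤ |p v|)
    (h1 : ∀ a k, ∀ r ∈ Ioo (0 : ℝ) 1, y = c.γ a r + cv k →
      deriv (c.γ a) r = p (deriv (c.γ a) r) • V ∧
        |p (deriv (c.γ a) r)| ≤ |fderiv ℝ (c.sig a) (c.γ a r) (deriv (c.γ a) r)|)
    (h2 : ∀ i k, OnL i (y - cv k) → V = Pi.single i 1 ∧ p (Pi.single i 1) = 1) :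
    Qm p V μ ∈ c.Cond u y := by
  have h0 : y ∈ c.K → μ = 0 := fun h => by
    by_contra h'; exact hμ'.2 h' h
  refine ⟨Qm_symm p V μ, fun v hv => Qm_pos p V hμ hv, fun l v => ?_, fun hy l v hv => ?_,
    fun a k r hr h => ?_, fun i k h => ?_⟩
  · exact (sq_le_sq.2 (hp l v)).trans (Qm_lower p V hμ v)
  · exact (sq_le_sq.2 (hp l v)).trans_lt (Qm_strict p V (lt_of_le_of_ne hμ (hμ'.1 hy).symm) hv)
  · rw [h0 ⟨Sum.inl a, k, c.mem_Γ_inl.2 ⟨r, hr, h⟩⟩, Qm_tangent p V (h1 a k r hr h).1]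
    exact sq_le_sq.2 (h1 a k r hr h).2
  · obtain ⟨e1, e2⟩ := h2 i k h
    rw [h0 ⟨Sum.inr i, k, h⟩, Qm_tangent p V (by rw [e2, one_smul, e1]), e2]
    norm_num

lemma exists_G {u : Sgn → E3 → ℝ} (hu : ∀ l, ContDiff ℝ ∞ (u l))
    (hper : ∀ l x k, u l (x + cv k) = u l x + dot l (cv k))
    (hgerm : ∀ l b k y, y - cv k ∈ c.Γ b →
      u l =ᶠ[𝓝 y] fun z => c.Fm l b (z - cv k) + dot l (cv k)) :
    ∃ G : E3 → Bil, ContDiff ℝ ∞ G ∧ (∀ x k, G (x + cv k) = G x) ∧ ∀ y, G y ∈ c.Cond u y := by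
  obtain ⟨μ, hμs, hμ, hμr⟩ := c.isClosed_K.isOpen_compl.exists_contDiff_support_eq (n := ⊤)
  have hμ0 : ∀ y, 0 ≤ μ y := fun y => (hμr (mem_range_self y)).1
  have hμK : ∀ y, y ∉ c.K ↔ μ y ≠ 0 := fun y => by
    rw [← mem_support, hμs]; rfl
  have hdu : ∀ l y (k : Z3), fderiv ℝ (u l) (y - cv k) = fderiv ℝ (u l) y := fun l y k => by
    rw [← fderiv_shift (u l) (cv k) y (dot l (cv k))]
    congr 1
    ext z
    rw [← hper, sub_add_cancel]
  refine Exists.elim (periodic_glue (F := Bil) (I := Unit) (fun y => pure y)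
    (fun y => pure_le_nhds y) (fun y k => tendsto_pure_pure _ y) (fun _ => univ)
    (fun _ z => c.Cond u z) (fun _ z => c.convex_Cond u z)
    (fun k a => ⟨a, fun _ _ => mem_univ _, fun z Q hQ => by
      obtain ⟨p1, p2, p3, p4, p5, p6⟩ := hQ
      simp only [hdu, c.K_per] at p3 p4
      refine ⟨p1, p2, p3, p4, fun a k' r hr h => p5 a (k' - k) r hr ?_,
        fun i k' h => p6 i (k' - k) ?_⟩
      · rw [h, cv_sub]; abel
      · rwa [cv_sub, sub_sub_sub_cancel_right]⟩) ?_) ?_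
  rotate_left
  · rintro G ⟨hG, hGper, hGc⟩
    exact ⟨G, hG, hGper, fun y => hGc () y (mem_univ y)⟩
  intro x
  simp only [eventually_pure, mem_univ, true_imp_iff, forall_const]
  by_cases hx : x ∈ c.K
  · obtain ⟨a | i, k, hb⟩ := hx
    · let S' : ℝ → ℝ := fun r => fderiv ℝ (c.sig a) (c.γ a r) (deriv (c.γ a) r)
      let V : ℝ → E3 := fun r => (S' r)⁻¹ • deriv (c.γ a) r
      have hV : ∀ r ∈ Ioo (0 : ℝ) 1, ContDiffAt ℝ ∞ V r := fun r hr => by
        have h1 := c.γ_smooth a r hr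
        have h2 : ContDiffAt ℝ ∞ (deriv (c.γ a)) r := by
          have := (h1.fderiv_right (m := ∞) le_rfl).clm_apply (contDiffAt_const (c := (1 : ℝ)))
          exact this
        have h3 : ContDiffAt ℝ ∞ S' r :=
          (((contDiff_fderiv (c.sig_smooth a)).contDiffAt).comp r h1).clm_apply h2
        exact (h3.inv (c.dS a r hr).ne').smul h2
      refine ⟨fun y => Qm (fderiv ℝ (c.sig a) (y - cv k)) (V (c.π a (y - cv k))) (μ y), ?_⟩
      have hπ : ContDiff ℝ ∞ fun y => c.π a (y - cv k) :=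
        (c.π_smooth a).comp (contDiff_id.sub contDiff_const)
      have hπx : ∀ᶠ y in 𝓝 x, c.π a (y - cv k) ∈ Ioo (0 : ℝ) 1 := by
        refine hπ.continuous.continuousAt.eventually (isOpen_Ioo.mem_nhds ?_)
        obtain ⟨r, hr, h⟩ := hb
        show c.π a (x - cv k) ∈ _
        rw [← h, c.π_γ a r hr]; exact hr
      have hge : ∀ᶠ y in 𝓝 x, ∀ l, u l =ᶠ[𝓝 y]
          fun z => c.Fm l (Sum.inl a) (z - cv k) + dot l (cv k) :=
        eventually_all.2 fun l => (hgerm l _ k x hb).eventuallyEq_nhds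
      filter_upwards [c.loc_chan hb, hπx, hge] with y hy1 hy2 hy3
      refine ⟨Qm_contDiffAt ((contDiff_fderiv (c.sig_smooth a)).comp
        (contDiff_id.sub contDiff_const)).contDiffAt (ContDiffAt.comp (g := V) y (hV _ hy2) hπ.contDiffAt)
        hμ.contDiffAt, c.mem_Cond (hμ0 y) (hμK y) (fun l v => ?_) (fun b k' r hr h => ?_)
        fun i k' h => ?_⟩
      · rw [(hy3 l).fderiv_eq, fderiv_shift]
        exact c.dF a l _ v
      · obtain ⟨hb', rfl⟩ := hy1 (Sum.inl b) k' (c.mem_Γ_inl.2 ⟨r, hr, h⟩)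
        obtain rfl : b = a := Sum.inl.inj hb'
        rw [h, add_sub_cancel_right, c.π_γ b r hr]
        refine ⟨?_, le_rfl⟩
        simp only [V, S', smul_smul]
        rw [mul_inv_cancel₀ (c.dS b r hr).ne', one_smul]
      · exact absurd (hy1 (Sum.inr i) k' h).1 (by simp)
    · refine ⟨fun y => Qm (pr i) (c.W i (y - cv k)) (μ y), ?_⟩
      have hge : ∀ᶠ y in 𝓝 x, ∀ l, u l =ᶠ[𝓝 y]
          fun z => c.Fm l (Sum.inr i) (z - cv k) + dot l (cv k) :=
        eventually_all.2 fun l => (hgerm l _ k x hb).eventuallyEq_nhds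
      filter_upwards [c.loc_line (fun a σ => (c.tangent a σ).and (c.germ a σ fun _ => true)) hb,
        hge] with y hy1 hy3
      refine ⟨Qm_contDiffAt contDiffAt_const ((c.W_smooth i).comp
        (contDiff_id.sub contDiff_const)).contDiffAt hμ.contDiffAt,
        c.mem_Cond (hμ0 y) (hμK y) (fun l v => ?_) (fun b k' r hr h => ?_) fun j k' h => ?_⟩
      · rw [(hy3 l).fderiv_eq, fderiv_shift]
        simp only [Fm]
        rw [fderiv_coord, abs_sz_mul]; rfl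
      · obtain ⟨σ, ⟨h1, h2⟩, rfl, e1, e2⟩ := hy1.2 b k' r hr h
        constructor
        · rw [c.W_inv _ (y - cv k) (c.γ b r - cv (c.κ b σ))]
          · exact h1
          · simp only [h, e1, Pi.sub_apply, Pi.add_apply, cv_apply, Int.cast_add]; ring
          · simp only [h, e2, Pi.sub_apply, Pi.add_apply, cv_apply, Int.cast_add]; ring
        · refine le_trans ?_ (c.dF b (fun _ => true) _ _)
          rw [h2.fderiv_eq, fderiv_shift (fun x : E3 => (sz true : ℝ) * x (c.typ b σ)),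
            fderiv_coord, abs_sz_mul]
          rfl
      · obtain ⟨rfl, e1, e2⟩ := hy1.1 j k' h
        refine ⟨c.W_line _ _ ⟨?_, ?_⟩, by simp⟩
        · simpa [e1] using h.1
        · simpa [e2] using h.2
  · refine ⟨fun y => ∑ l, Qm (fderiv ℝ (u l) y) 0 1, ?_⟩
    filter_upwards [c.loc_off hx] with y hy
    refine ⟨ContDiffAt.sum fun l _ => Qm_contDiffAt (contDiff_fderiv (hu l)).contDiffAt
      contDiffAt_const contDiffAt_const, ?_⟩
    have e : ∀ v w, (∑ l, Qm (fderiv ℝ (u l) y) 0 1) v w = ∑ l, Qm (fderiv ℝ (u l) y) 0 1 v w :=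
      fun v w => by simp [sum_apply]
    have hle : ∀ l v, Qm (fderiv ℝ (u l) y) 0 1 v v ≤ ∑ l, Qm (fderiv ℝ (u l) y) 0 1 v v :=
      fun l v => Finset.single_le_sum (f := fun l => Qm (fderiv ℝ (u l) y) 0 1 v v)
        (fun l _ => (sq_nonneg _).trans (Qm_lower _ _ zero_le_one v)) (Finset.mem_univ l)
    refine ⟨fun v w => ?_, fun v hv => ?_, fun l v => ?_, fun _ l v hv => ?_,
      fun a k r hr h => absurd ⟨Sum.inl a, k, c.mem_Γ_inl.2 ⟨r, hr, h⟩⟩ hy,
      fun i k h => absurd ⟨Sum.inr i, k, h⟩ hy⟩ <;> rw [e]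
    · rw [e]; exact Finset.sum_congr rfl fun l _ => Qm_symm _ _ _ _ _
    · exact (Qm_pos _ _ zero_le_one hv).trans_le (hle (fun _ => true) v)
    · exact (Qm_lower _ _ zero_le_one v).trans (hle l v)
    · exact (Qm_strict _ _ one_pos hv).trans_le (hle l v)

end Chan

end Pool.Agent.MP_4d76c1_gt
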