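import Mathlib
import Pool.Agent.MP_4d76c1_gt.Chan

open Set Filter Topology Function
open scoped ContDiff

namespace Pool.Agent.MP_4d76c1_gt

/-- smooth step from `0` (left of `1/3`) to `1` (right of `2/3`) -/
noncomputable def th (r : ℝ) : ℝ := Real.smoothTransition (3 * r - 1)

lemma th_zero {r : ℝ} (h : r ≤ 1 / 3) : th r = 0 :=
  Real.smoothTransition.zero_of_nonpos (by linarith)
lemma th_one {r : ℝ} (h : 2 / 3 ≤ r) : th r = 1 :=
  Real.smoothTransition.one_of_one_le (by linarith)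
lemma th_nonneg (r : ℝ) : 0 ≤ th r := Real.smoothTransition.nonneg _
lemma th_le_one (r : ℝ) : th r ≤ 1 := Real.smoothTransition.le_one _
@[fun_prop] lemma th_smooth : ContDiff ℝ ∞ th := by
  unfold th
  exact Real.smoothTransition.contDiff.comp (by fun_prop)
lemma th_mono : Monotone th := fun a b h =>
  Real.smoothTransition.monotone (by linarith)
lemma th_deriv (r : ℝ) : ∃ d, 0 ≤ d ∧ HasDerivAt th d r :=
  ⟨_, th_mono.deriv_nonneg, ((th_smooth.differentiable (by simp)) r).hasDerivAt⟩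

lemma interp_pos {θ g0 g1 : ℝ → ℝ} {a b d r : ℝ} (h0 : HasDerivAt g0 a r) (h1 : HasDerivAt g1 b r)
    (hθ : HasDerivAt θ d r) (ha : 0 < a) (hb : 0 < b) (hd : 0 ≤ d) (t0 : 0 ≤ θ r) (t1 : θ r ≤ 1)
    (hg : g0 r ≤ g1 r) :
    ∃ e, 0 < e ∧ HasDerivAt (fun r => (1 - θ r) * g0 r + θ r * g1 r) e r := by
  refine ⟨_, ?_, ((hθ.const_sub 1).fun_mul h0).fun_add (hθ.fun_mul h1)⟩
  have h2 : 0 ≤ d * (g1 r - g0 r) := mul_nonneg hd (sub_nonneg.2 hg)
  have h3 : 0 < (1 - θ r) * a + θ r * b := by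
    rcases le_total a b with h | h <;> nlinarith
  nlinarith

lemma exists_N : ∃ (N : ℝ → ℝ) (R : ℝ), ContDiff ℝ ∞ N ∧ (∀ s, |deriv N s| ≤ 1) ∧
    (∀ s, R ≤ s → N s = s) ∧ ∀ s, s ≤ -R → N s = -s := by
  let ψ : ℝ → ℝ := fun s => 2 * Real.smoothTransition s - 1
  have hψ : ContDiff ℝ ∞ ψ := by
    unfold ψ
    exact (contDiff_const.mul Real.smoothTransition.contDiff).sub contDiff_const
  let P : ℝ → ℝ := fun s => ∫ t in (0 : ℝ)..s, ψ t
  have hP : ∀ s, HasDerivAt P (ψ s) s := fun s =>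
    (hψ.continuous.integral_hasStrictDerivAt 0 s).hasDerivAt
  have hPd : deriv P = ψ := funext fun s => (hP s).deriv
  have hPs : ContDiff ℝ ∞ P := by
    rw [contDiff_infty_iff_deriv, hPd]
    exact ⟨fun s => (hP s).differentiableAt, hψ⟩
  have h1 : ∀ s, 1 ≤ s → P s = s + (P 1 - 1) := fun s hs => by
    have : ∫ t in (1 : ℝ)..s, ψ t = ∫ t in (1 : ℝ)..s, (1 : ℝ) := by
      refine intervalIntegral.integral_congr fun t ht => ?_
      rw [uIcc_of_le hs] at ht
      simp only [ψ, Real.smoothTransition.one_of_one_le ht.1]; norm_num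
    have h2 := intervalIntegral.integral_add_adjacent_intervals
      (hψ.continuous.intervalIntegrable (μ := MeasureTheory.volume) 0 1)
      (hψ.continuous.intervalIntegrable 1 s)
    simp only [P]
    rw [← h2, this]; simp; ring
  have h0 : ∀ s, s ≤ 0 → P s = -s := fun s hs => by
    have : ∫ t in (0 : ℝ)..s, ψ t = ∫ t in (0 : ℝ)..s, (-1 : ℝ) := by
      refine intervalIntegral.integral_congr fun t ht => ?_
      rw [uIcc_of_ge hs] at ht
      simp only [ψ, Real.smoothTransition.zero_of_nonpos ht.2]; norm_num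
    simp only [P]
    rw [this]; simp
  set c := (P 1 - 1) / 2 with hc
  refine ⟨fun s => P (s - c) - c, 1 + |c|,
    (hPs.comp (contDiff_id.sub contDiff_const)).sub contDiff_const, fun s => ?_, fun s hs => ?_,
    fun s hs => ?_⟩
  · have : HasDerivAt (fun s => P (s - c) - c) (ψ (s - c)) s :=
      ((hP (s - c)).comp_sub_const s c).sub_const c
    rw [this.deriv, abs_le]
    have := Real.smoothTransition.nonneg (s - c)
    have := Real.smoothTransition.le_one (s - c)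
    simp only [ψ]
    constructor <;> linarith
  · have := le_abs_self c
    show P (s - c) - c = s
    rw [h1 _ (by linarith)]; linarith
  · have := neg_abs_le c
    show P (s - c) - c = -s
    rw [h0 _ (by linarith)]; ring

/-- a smooth version of the absolute value -/
noncomputable def Nf : ℝ → ℝ := exists_N.choose
/-- the radius outside of which `Nf` is the absolute value -/
noncomputable def NR : ℝ := exists_N.choose_spec.choose

@[fun_prop] lemma Nf_smooth : ContDiff ℝ ∞ Nf := exists_N.choose_spec.choose_spec.1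
lemma Nf_deriv (s : ℝ) : ∃ d, |d| ≤ 1 ∧ HasDerivAt Nf d s :=
  ⟨_, exists_N.choose_spec.choose_spec.2.1 s, ((Nf_smooth.differentiable (by simp)) s).hasDerivAt⟩
lemma Nf_pos {s : ℝ} (h : NR ≤ s) : Nf s = s := exists_N.choose_spec.choose_spec.2.2.1 s h
lemma Nf_neg {s : ℝ} (h : s ≤ -NR) : Nf s = -s := exists_N.choose_spec.choose_spec.2.2.2 s h

/-- length function on heteroclinic channels -/
noncomputable def sf (e : ℝ) (t : ℝ) : ℝ := t + e / 4 - e / 8 * (Nf (t + 1) - Nf (t - 1))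

@[fun_prop] lemma sf_smooth (e : ℝ) : ContDiff ℝ ∞ (sf e) := by
  unfold sf; fun_prop

lemma sf_deriv {e : ℝ} (he : |e| ≤ 1) (t : ℝ) : ∃ d, 0 < d ∧ HasDerivAt (sf e) d t := by
  obtain ⟨d1, h1, hd1⟩ := Nf_deriv (t + 1)
  obtain ⟨d2, h2, hd2⟩ := Nf_deriv (t - 1)
  refine ⟨1 - e / 8 * (d1 - d2), ?_, ?_⟩
  · have : |e / 8 * (d1 - d2)| ≤ 1 / 8 * 2 := by
      rw [abs_mul]
      refine mul_le_mul ?_ ?_ (abs_nonneg _) (by norm_num)
      · rw [abs_div]; norm_num; linarith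
      · exact (abs_sub _ _).trans (by linarith)
    have := le_abs_self (e / 8 * (d1 - d2))
    linarith
  · exact ((hasDerivAt_id t).add_const (e / 4)).sub
      (((hd1.comp_add_const t 1).sub (hd2.comp_sub_const t 1)).const_mul (e / 8))

lemma sf_neg {e t : ℝ} (h : t ≤ -(NR + 1)) : sf e t = t + e / 2 := by
  have hR : (0 : ℝ) ≤ 2 := by norm_num
  unfold sf
  rw [Nf_neg (by linarith), Nf_neg (by linarith)]; ring

lemma sf_pos {e t : ℝ} (h : NR + 1 ≤ t) : sf e t = t := by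
  unfold sf
  rw [Nf_pos (by linarith), Nf_pos (by linarith)]; ring

/-- calibration profile on heteroclinic channels -/
noncomputable def hf (k0 k1 : ℝ) (s : ℝ) : ℝ := (k0 + k1) / 2 * s + (k1 - k0) / 2 * Nf s

@[fun_prop] lemma hf_smooth (k0 k1 : ℝ) : ContDiff ℝ ∞ (hf k0 k1) := by
  unfold hf; fun_prop

lemma hf_deriv {k0 k1 : ℝ} (h0 : |k0| ≤ 1) (h1 : |k1| ≤ 1) (s : ℝ) :
    ∃ d, |d| ≤ 1 ∧ HasDerivAt (hf k0 k1) d s := by
  obtain ⟨d, h, hd⟩ := Nf_deriv s
  refine ⟨(k0 + k1) / 2 + (k1 - k0) / 2 * d, ?_, ?_⟩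
  · rw [abs_le] at *
    constructor <;> nlinarith [h.1, h.2, h0.1, h0.2, h1.1, h1.2]
  · exact (((hasDerivAt_id' s).const_mul ((k0 + k1) / 2)).fun_add
      (hd.const_mul ((k1 - k0) / 2))).congr_deriv (by ring)

/-- axial coordinate of homoclinic channels -/
noncomputable def X1 (r : ℝ) : ℝ :=
  (1 - th r) * (1 / 4 - 1 / (36000 * r ^ 2)) + th r * (1 / 4 + 1 / (36000 * (1 - r) ^ 2))
/-- transversal profile of homoclinic channels -/
noncomputable def ph (r : ℝ) : ℝ := (1 - th r) * r + th r * (1 - r)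
/-- axial coordinate of heteroclinic channels -/
noncomputable def X2 (r : ℝ) : ℝ :=
  (1 - th (2 * r)) * (-1 / 20 - 1 / (2700 * r ^ 2)) + th (2 * r) * (-(1 - r) / 20)
/-- second axial coordinate of heteroclinic channels -/
noncomputable def Zf (r : ℝ) : ℝ := -X2 (1 - r)
/-- third coordinate of heteroclinic channels -/
noncomputable def Y3 (s r : ℝ) : ℝ :=
  (1 - th r) * (1 / 2 + s * r / 40) + th r * (s * (1 - r) / 40)

lemma th_at (f : ℝ → ℝ) {r : ℝ} (hf : ContDiffAt ℝ ∞ f r) :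
    ContDiffAt ℝ ∞ (fun r => th (f r)) r := th_smooth.contDiffAt.comp r hf

lemma inv_sq_smooth {C : ℝ} (hC : C ≠ 0) {f : ℝ → ℝ} {r : ℝ} (hf : ContDiffAt ℝ ∞ f r)
    (h : f r ≠ 0) : ContDiffAt ℝ ∞ (fun r => 1 / (C * f r ^ 2)) r :=
  contDiffAt_const.div (contDiffAt_const.mul (hf.pow 2)) (mul_ne_zero hC (pow_ne_zero 2 h))

lemma X1_smooth {r : ℝ} (hr : r ∈ Ioo (0 : ℝ) 1) : ContDiffAt ℝ ∞ X1 r := by
  have h1 := inv_sq_smooth (C := 36000) (by norm_num) (f := fun r => r) contDiffAt_id hr.1.ne'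
  have h2 := inv_sq_smooth (C := 36000) (by norm_num) (f := fun r => 1 - r)
    (contDiffAt_const.sub contDiffAt_id) (sub_pos.2 hr.2).ne'
  have h3 := th_smooth.contDiffAt (x := r)
  exact ((contDiffAt_const.sub h3).mul (contDiffAt_const.sub h1)).add
    (h3.mul (contDiffAt_const.add h2))

lemma ph_smooth : ContDiff ℝ ∞ ph := by unfold ph; fun_prop

lemma X2_smooth {r : ℝ} (hr : 0 < r) : ContDiffAt ℝ ∞ X2 r := by
  have h1 := inv_sq_smooth (C := 2700) (by norm_num) (f := fun r => r) contDiffAt_id hr.ne'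
  have h3 := th_at (fun r => 2 * r) (r := r) (by fun_prop)
  exact ((contDiffAt_const.sub h3).mul (contDiffAt_const.sub h1)).add (h3.mul (by fun_prop))

lemma Zf_smooth {r : ℝ} (hr : r < 1) : ContDiffAt ℝ ∞ Zf r :=
  (ContDiffAt.comp (g := X2) (f := fun r => 1 - r) r (X2_smooth (sub_pos.2 hr)) (by fun_prop)).neg

lemma Y3_smooth (s : ℝ) : ContDiff ℝ ∞ (Y3 s) := by unfold Y3; fun_prop

lemma hasDerivAt_inv_sq (C : ℝ) {f : ℝ → ℝ} {f' r : ℝ} (hf : HasDerivAt f f' r)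
    (hC : C ≠ 0) (h : f r ≠ 0) :
    HasDerivAt (fun r => 1 / (C * f r ^ 2)) (-(2 * f') / (C * f r ^ 3)) r := by
  have h1 := ((hf.fun_pow 2).const_mul C).fun_inv (mul_ne_zero hC (pow_ne_zero 2 h))
  simp only [one_div]
  refine h1.congr_deriv ?_
  simp only [Nat.cast_ofNat, Nat.add_one_sub_one, pow_one]
  field_simp

lemma X1_deriv {r : ℝ} (hr : r ∈ Ioo (0 : ℝ) 1) : ∃ d, 0 < d ∧ HasDerivAt X1 d r := by
  obtain ⟨d, hd, hθ⟩ := th_deriv r
  have h0 := hr.1
  have h1 := sub_pos.2 hr.2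
  refine interp_pos ((hasDerivAt_inv_sq 36000 (hasDerivAt_id' r) (by norm_num) h0.ne').const_sub
    (1 / 4)) ((hasDerivAt_inv_sq 36000 ((hasDerivAt_id' r).const_sub 1) (by norm_num)
    h1.ne').const_add (1 / 4)) hθ ?_ ?_ hd (th_nonneg r) (th_le_one r) ?_
  · rw [neg_div, neg_neg]; positivity
  · norm_num; positivity
  · have : 0 < 1 / (36000 * r ^ 2) := by positivity
    have : 0 < 1 / (36000 * (1 - r) ^ 2) := by positivity
    linarith

lemma X2_deriv {r : ℝ} (h0 : 0 < r) : ∃ d, 0 < d ∧ HasDerivAt X2 d r := by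
  obtain ⟨d, hd, hθ⟩ := th_deriv (2 * r)
  have hθ' : HasDerivAt (fun r => th (2 * r)) (d * 2) r :=
    (hθ.comp r ((hasDerivAt_id' r).const_mul 2)).congr_deriv (by ring)
  refine interp_pos (θ := fun r => th (2 * r))
    ((hasDerivAt_inv_sq 2700 (hasDerivAt_id' r) (by norm_num) h0.ne').const_sub (-1 / 20))
    ((((hasDerivAt_id' r).const_sub 1).neg).div_const 20) hθ' ?_ ?_ (by positivity)
    (th_nonneg _) (th_le_one _) ?_
  · rw [neg_div, neg_neg]; positivity
  · norm_num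
  · have : 0 < 1 / (2700 * r ^ 2) := by positivity
    show -1 / 20 - 1 / (2700 * r ^ 2) ≤ -(1 - r) / 20
    linarith

lemma Zf_deriv {r : ℝ} (h1 : r < 1) : ∃ d, 0 < d ∧ HasDerivAt Zf d r := by
  obtain ⟨d, hd, h⟩ := X2_deriv (sub_pos.2 h1)
  refine ⟨d, hd, ?_⟩
  exact (h.comp_const_sub 1 r).neg.congr_deriv (by ring)

lemma X2_le {r : ℝ} (h0 : 0 < r) : X2 r ≤ -(1 - r) / 20 := by
  unfold X2
  have : 0 < 1 / (2700 * r ^ 2) := by positivity
  have := th_le_one (2 * r)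
  nlinarith

lemma X2_lin {r : ℝ} (h : 1 / 3 ≤ r) : X2 r = -(1 - r) / 20 := by
  unfold X2; rw [th_one (by linarith)]; ring

lemma X2_tail {r : ℝ} (h : r ≤ 1 / 6) : X2 r = -1 / 20 - 1 / (2700 * r ^ 2) := by
  unfold X2; rw [th_zero (by linarith)]; ring

lemma Zf_ge {r : ℝ} (h1 : r < 1) : r / 20 ≤ Zf r := by
  have := X2_le (sub_pos.2 h1)
  unfold Zf; linarith

lemma Zf_lin {r : ℝ} (h : r ≤ 2 / 3) : Zf r = r / 20 := by
  unfold Zf; rw [X2_lin (by linarith)]; ring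

lemma th_Zf {r : ℝ} (h1 : r < 1) : th (20 * Zf r) = th r := by
  rcases le_total r (2 / 3) with h | h
  · rw [Zf_lin h]; congr 1; ring
  · have := Zf_ge h1
    rw [th_one h, th_one (by linarith)]

lemma ph_pos {r : ℝ} (hr : r ∈ Ioo (0 : ℝ) 1) : 0 < ph r ∧ ph r < 1 := by
  unfold ph
  have := th_nonneg r
  have := th_le_one r
  have := hr.1
  have := hr.2
  rcases le_total r (1 - r) with h | h <;> constructor <;> nlinarith

lemma X1_mid {r : ℝ} (h0 : 1 / 60 ≤ r) (h1 : 1 / 60 ≤ 1 - r) : |X1 r - 1 / 4| ≤ 1 / 10 := by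
  have key : ∀ w : ℝ, 1 / 60 ≤ w → 0 ≤ 1 / (36000 * w ^ 2) ∧ 1 / (36000 * w ^ 2) ≤ 1 / 10 := by
    intro w hw
    refine ⟨by positivity, one_div_le_one_div_of_le (by norm_num) (by nlinarith)⟩
  obtain ⟨a1, a2⟩ := key r h0
  obtain ⟨b1, b2⟩ := key _ h1
  have := th_nonneg r
  have := th_le_one r
  unfold X1
  rw [abs_le]
  constructor <;> nlinarith

/-- distance to the end of the unit interval -/
def wd : Bool → ℝ → ℝ
  | false, r => r
  | true, r => 1 - r

lemma wd_tendsto (σ : Bool) : Tendsto (wd σ) (lf σ) (𝓝[>] 0) := by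
  cases σ
  · exact tendsto_id
  · refine tendsto_nhdsWithin_iff.2 ⟨?_, ?_⟩
    · have : Tendsto (fun r : ℝ => 1 - r) (𝓝 1) (𝓝 (1 - 1)) :=
        (continuous_const.sub continuous_id).tendsto 1
      rw [sub_self] at this
      exact this.mono_left nhdsWithin_le_nhds
    · filter_upwards [self_mem_nhdsWithin] with r hr
      exact sub_pos.2 (show r < 1 from hr)

lemma wd_deriv (σ : Bool) (r : ℝ) : HasDerivAt (wd σ) (-(sz σ : ℝ)) r := by
  cases σ
  · exact (hasDerivAt_id' r).congr_deriv (by simp [sz])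
  · exact ((hasDerivAt_id' r).const_sub 1).congr_deriv (by simp [sz])

lemma wd_small (σ : Bool) {δ : ℝ} (hδ : 0 < δ) : ∀ᶠ r in lf σ, wd σ r ∈ Ioo 0 δ :=
  (wd_tendsto σ).eventually (Ioo_mem_nhdsGT hδ)

lemma inv_sq_tendsto (σ : Bool) {C : ℝ} (hC : 0 < C) :
    Tendsto (fun r => 1 / (C * wd σ r ^ 2)) (lf σ) atTop := by
  have h1 : Tendsto (fun w : ℝ => C * w ^ 2) (𝓝[>] 0) (𝓝[>] 0) := by
    refine tendsto_nhdsWithin_iff.2 ⟨?_, ?_⟩
    · have : Tendsto (fun w : ℝ => C * w ^ 2) (𝓝 0) (𝓝 (C * 0 ^ 2)) :=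
        Continuous.tendsto (by fun_prop) 0
      simpa using this.mono_left nhdsWithin_le_nhds
    · filter_upwards [self_mem_nhdsWithin] with w hw
      have : 0 < w := hw
      show 0 < C * w ^ 2
      positivity
  simp only [one_div]
  exact tendsto_inv_nhdsGT_zero.comp (h1.comp (wd_tendsto σ))

end Pool.Agent.MP_4d76c1_gt
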