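import Mathlib
import Pool.Agent.MP_4d76c1_gt.Fun

open Set Filter Topology Function
open scoped ContDiff

namespace Pool.Agent.MP_4d76c1_gt

/-- distance to the nearest integer -/
noncomputable def nd (x : ℝ) : ℝ := |x - round x|

lemma nd_add_int (x : ℝ) (n : ℤ) : nd (x + n) = nd x := by
  unfold nd; rw [round_add_intCast]; push_cast; congr 1; ring

lemma nd_eq_abs {y : ℝ} (h : |y| ≤ 1 / 2) : nd y = |y| := by
  refine le_antisymm ((round_le y 0).trans (by simp)) ?_
  unfold nd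
  rcases eq_or_ne (round y) 0 with h0 | h0
  · simp [h0]
  · have h1 : (1 : ℝ) ≤ |(round y : ℝ)| := by exact_mod_cast Int.one_le_abs h0
    have := abs_sub_abs_le_abs_sub (round y : ℝ) y
    rw [abs_sub_comm] at this
    linarith

lemma nd_half {y : ℝ} (h : |y| ≤ 1 / 2) : nd (1 / 2 + y) = 1 / 2 - |y| := by
  rcases abs_cases y with ⟨h1, h2⟩ | ⟨h1, h2⟩
  · have e : 1 / 2 + y = (y - 1 / 2) + (1 : ℤ) := by push_cast; ring
    rw [e, nd_add_int, nd_eq_abs (by rw [abs_le]; constructor <;> linarith),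
      abs_of_nonpos (by linarith)]
    linarith
  · rw [nd_eq_abs (by rw [abs_le]; constructor <;> linarith), abs_of_nonneg (by linarith)]
    linarith

lemma sz_sq (b : Bool) : (sz b : ℝ) * sz b = 1 := by exact_mod_cast sz_mul_self b

lemma abs_sz (b : Bool) : |(sz b : ℝ)| = 1 := by cases b <;> simp [sz]

lemma abs_sz_mul' (b : Bool) (x : ℝ) : |(sz b : ℝ) * x| = |x| := by rw [abs_mul, abs_sz, one_mul]

lemma nd_mid (b : Bool) {r : ℝ} (h0 : 1 / 60 < r) (h1 : 1 / 60 < 1 - r) :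
    1 / 60 < nd (sz b * r) ∧ nd (1 / 2 + sz b * r) < 1 / 2 - 1 / 60 := by
  rcases le_total r (1 / 2) with h | h
  · have e : |(sz b : ℝ) * r| = r := by rw [abs_sz_mul', abs_of_pos (by linarith)]
    rw [nd_eq_abs (by linarith), nd_half (by linarith)]
    constructor <;> linarith
  · have e : |(sz b : ℝ) * (r - 1)| = 1 - r := by
      rw [abs_sz_mul', abs_of_neg (by linarith)]; ring
    have e1 : (sz b : ℝ) * r = sz b * (r - 1) + sz b := by ring
    rw [e1, ← add_assoc, nd_add_int, nd_add_int, nd_eq_abs (by linarith), nd_half (by linarith)]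
    constructor <;> linarith

/-- the zones -/
def Zn (z : Fin 4) (i : Fin 3) (t : Fin 3 → ℝ) : Prop :=
  match z with
  | 0 => t (i + 1) ≤ 1 / 60 ∧ 1 / 2 - 1 / 60 ≤ t (i + 2)
  | 1 => |t i - 1 / 4| ≤ 1 / 10 ∧ 1 / 2 - 1 / 60 ≤ t (i + 2) ∧ 1 / 60 < t (i + 1)
  | 2 => |t i - 1 / 4| ≤ 1 / 10 ∧ t (i + 1) ≤ 1 / 60 ∧ t (i + 2) < 1 / 2 - 1 / 60
  | 3 => 1 / 2 - 1 / 10 ≤ t i ∧ t i < 1 / 2 - 1 / 60 ∧ 1 / 60 < t (i + 1) ∧ t (i + 1) ≤ 1 / 10

lemma fin3_a (i : Fin 3) : i + 1 + 1 = i + 2 := by revert i; decide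
lemma fin3_b (i : Fin 3) : i + 1 + 2 = i := by revert i; decide
lemma fin3_c (i : Fin 3) : i + 2 + 1 = i := by revert i; decide
lemma fin3_d (i : Fin 3) : i + 2 + 2 = i + 1 := by revert i; decide

lemma Zn_unique {z z' : Fin 4} {i j : Fin 3} {t : Fin 3 → ℝ} (h : Zn z i t) (h' : Zn z' j t) :
    z = z' ∧ i = j := by
  rcases fin3_cases i j with rfl | rfl | rfl <;> fin_cases z <;> fin_cases z' <;>
    simp only [Zn, abs_le, fin3_a, fin3_b, fin3_c, fin3_d] at h h' <;>
    first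
    | exact ⟨rfl, rfl⟩
    | (exfalso; casesm* _ ∧ _; linarith)

/-- point with prescribed coordinates in cyclic order -/
def emb (i : Fin 3) (a b c : ℝ) : E3 := fun r => if r = i then a else if r = i + 1 then b else c

@[simp] lemma emb_0 (i : Fin 3) (a b c : ℝ) : emb i a b c i = a := by simp [emb]
@[simp] lemma emb_1 (i : Fin 3) (a b c : ℝ) : emb i a b c (i + 1) = b := by simp [emb, fin3_ne1]
@[simp] lemma emb_2 (i : Fin 3) (a b c : ℝ) : emb i a b c (i + 2) = c := by
  simp [emb, fin3_ne2, (fin3_ne3 i).symm]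

lemma ext3 (i : Fin 3) {x y : E3} (h0 : x i = y i) (h1 : x (i + 1) = y (i + 1))
    (h2 : x (i + 2) = y (i + 2)) : x = y := by
  ext r; rcases fin3_cases i r with rfl | rfl | rfl <;> assumption

abbrev Kind : Type := (Bool × Bool) ⊕ (Bool × Bool)
abbrev Lab : Type := Fin 3 × Kind

/-- first coordinate of the channels -/
noncomputable def cA : Kind → ℝ → ℝ
  | Sum.inl _, r => X1 r
  | Sum.inr (e, _), r => 1 / 2 + sz e * X2 r
/-- second coordinate of the channels -/
noncomputable def cB : Kind → ℝ → ℝ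
  | Sum.inl (false, h), r => sz h * r
  | Sum.inl (true, h), r => sz h * ph r / 60
  | Sum.inr (_, h), r => sz h * Zf r
/-- third coordinate of the channels -/
noncomputable def cC : Kind → ℝ → ℝ
  | Sum.inl (false, h), r => 1 / 2 + sz h * ph r / 60
  | Sum.inl (true, h), r => 1 / 2 + sz h * r
  | Sum.inr (e, h), r => Y3 (sz e * sz h) r

/-- the channels -/
noncomputable def gam (a : Lab) (r : ℝ) : E3 := emb a.1 (cA a.2 r) (cB a.2 r) (cC a.2 r)

/-- type of the asymptotic lines -/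
def typ : Lab → Bool → Fin 3
  | (i, Sum.inr _), true => i + 1
  | (i, _), _ => i

/-- translate of the asymptotic lines -/
def kap : Lab → Bool → Z3
  | (i, Sum.inl (false, h)), true => ev (i + 1) (sz h)
  | (i, Sum.inl (true, h)), true => ev (i + 2) (sz h)
  | _, _ => 0

/-- direction of the asymptotic rays -/
def dir : Kind → Bool → ℤ × ℤ
  | Sum.inl (false, h), σ => (-60 * sz σ * sz h, sz h)
  | Sum.inl (true, h), σ => (sz h, -60 * sz σ * sz h)
  | Sum.inr (e, h), false => (60 * sz h, 30 * sz e * sz h)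
  | Sum.inr (e, h), true => (30 * sz e * sz h, -60 * sz e)

/-- radial scale -/
noncomputable def scl : Kind → ℝ
  | Sum.inl _ => 1
  | Sum.inr _ => 1 / 20

/-- zone of the middle part -/
def mid : Kind → Fin 4
  | Sum.inl (false, _) => 1
  | Sum.inl (true, _) => 2
  | Sum.inr _ => 3

lemma scl_pos (k : Kind) : 0 < scl k := by
  rcases k with _ | _ <;> simp [scl]

lemma dir_max : ∀ (k : Kind) (σ : Bool), max |(dir k σ).1| |(dir k σ).2| = 60 := by decide

lemma dir_ne : ∀ (k : Kind) (σ : Bool), (dir k σ).1 ≠ 0 ∧ (dir k σ).2 ≠ 0 := by decide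

set_option synthInstance.maxSize 2000 in
lemma dir_inj : ∀ (a b : Lab) (σ σ' : Bool), typ a σ = typ b σ' → dir a.2 σ = dir b.2 σ' →
    a = b ∧ σ = σ' := by
  have : ∀ p q : Lab × Bool, typ p.1 p.2 = typ q.1 q.2 → dir p.1.2 p.2 = dir q.1.2 q.2 → p = q := by
    decide
  intro a b σ σ' h1 h2
  exact Prod.ext_iff.1 (this (a, σ) (b, σ') h1 h2)

lemma mid_ne (k : Kind) : mid k ≠ 0 := by revert k; decide

lemma gam_smooth (a : Lab) {r : ℝ} (hr : r ∈ Ioo (0 : ℝ) 1) : ContDiffAt ℝ ∞ (gam a) r := by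
  have hA : ContDiffAt ℝ ∞ (cA a.2) r := by
    rcases a with ⟨i, _ | ⟨e, h⟩⟩
    · exact X1_smooth hr
    · exact contDiffAt_const.add (contDiffAt_const.mul (X2_smooth hr.1))
  have hB : ContDiffAt ℝ ∞ (cB a.2) r := by
    rcases a with ⟨i, ⟨_ | _, h⟩ | ⟨e, h⟩⟩
    · exact contDiffAt_const.mul contDiffAt_id
    · exact (contDiffAt_const.mul ph_smooth.contDiffAt).div_const 60
    · exact contDiffAt_const.mul (Zf_smooth hr.2)
  have hC : ContDiffAt ℝ ∞ (cC a.2) r := by
    rcases a with ⟨i, ⟨_ | _, h⟩ | ⟨e, h⟩⟩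
    · exact contDiffAt_const.add ((contDiffAt_const.mul ph_smooth.contDiffAt).div_const 60)
    · exact contDiffAt_const.add (contDiffAt_const.mul contDiffAt_id)
    · exact (Y3_smooth _).contDiffAt
  refine contDiffAt_pi.2 fun s => ?_
  rcases fin3_cases a.1 s with rfl | rfl | rfl
  · simpa only [gam, emb_0] using hA
  · simpa only [gam, emb_1] using hB
  · simpa only [gam, emb_2] using hC

lemma ray_eq (a : Lab) (σ : Bool) {r : ℝ} (hr : wd σ r ≤ 1 / 3) :
    gam a r (typ a σ + 1) = kap a σ (typ a σ + 1) + (dir a.2 σ).1 * (scl a.2 * wd σ r) / 60 ∧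
    gam a r (typ a σ + 2) =
      kap a σ (typ a σ + 2) + (1 / 2 + (dir a.2 σ).2 * (scl a.2 * wd σ r) / 60) := by
  rcases a with ⟨i, ⟨_ | _, h⟩ | ⟨e, h⟩⟩ <;> cases σ <;> simp only [wd] at hr <;>
    simp only [gam, typ, kap, dir, scl, wd, cA, cB, cC, emb_0, emb_1, emb_2, fin3_a, fin3_b, ev,
      Pi.zero_apply, Pi.single_eq_same, Pi.single_eq_of_ne (fin3_ne3 i),
      Pi.single_eq_of_ne (fin3_ne3 i).symm, ph, Y3]
  · rw [th_zero hr]; simp only [sz]; push_cast; constructor <;> ring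
  · rw [th_one (by linarith)]; simp only [sz]; push_cast; constructor <;> ring
  · rw [th_zero hr]; simp only [sz]; push_cast; constructor <;> ring
  · rw [th_one (by linarith)]; simp only [sz]; push_cast; constructor <;> ring
  · rw [th_zero hr, Zf_lin (by linarith)]; push_cast; constructor <;> ring
  · rw [th_one (by linarith), X2_lin (by linarith)]; push_cast; constructor <;> ring

/-- the constant in the axial asymptotics -/
noncomputable def cst : Kind → Bool → ℝ
  | Sum.inl _, _ => 1 / 4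
  | Sum.inr (e, _), false => 1 / 2 - sz e / 20
  | Sum.inr (_, h), true => sz h / 20

lemma axis_eq (a : Lab) (σ : Bool) {r : ℝ} (hr0 : 0 < wd σ r) (hr : wd σ r ≤ 1 / 6) :
    gam a r (typ a σ) = cst a.2 σ -
      1 / ((600 * (dir a.2 σ).1 * (dir a.2 σ).2 * scl a.2 ^ 2) * wd σ r ^ 2) := by
  rcases a with ⟨i, ⟨_ | _, h⟩ | ⟨e, h⟩⟩ <;> cases σ <;> simp only [wd] at hr hr0 <;>
    simp only [gam, typ, dir, scl, wd, cA, cB, cst, emb_0, emb_1, X1, Zf]
  · rw [th_zero (by linarith)]; cases h <;> simp only [sz] <;> push_cast <;> field_simp <;> ring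
  · rw [th_one (by linarith)]; cases h <;> simp only [sz] <;> push_cast <;> field_simp <;> ring
  · rw [th_zero (by linarith)]; cases h <;> simp only [sz] <;> push_cast <;> field_simp <;> ring
  · rw [th_one (by linarith)]; cases h <;> simp only [sz] <;> push_cast <;> field_simp <;> ring
  · rw [X2_tail hr]; cases h <;> cases e <;> simp only [sz] <;> push_cast <;> field_simp <;> ring
  · rw [X2_tail hr]; cases h <;> cases e <;> simp only [sz] <;> push_cast <;> field_simp <;> ring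

lemma abs_dir_le (k : Kind) (σ : Bool) {R : ℝ} (hR : 0 ≤ R) :
    |(dir k σ).1 * R / 60| ≤ R ∧ |(dir k σ).2 * R / 60| ≤ R ∧
      max |(dir k σ).1 * R / 60| |(dir k σ).2 * R / 60| = R := by
  have h : max |((dir k σ).1 : ℝ)| |((dir k σ).2 : ℝ)| = 60 := by exact_mod_cast dir_max k σ
  have e : ∀ x : ℝ, |x * R / 60| = |x| * (R / 60) := fun x => by
    rw [mul_div_assoc, abs_mul, abs_of_nonneg (by linarith : 0 ≤ R / 60)]
  have h3 : max |(dir k σ).1 * R / 60| |(dir k σ).2 * R / 60| = R := by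
    rw [e, e, ← max_mul_of_nonneg _ _ (by linarith : 0 ≤ R / 60), h]; ring
  exact ⟨(le_max_left _ _).trans h3.le, (le_max_right _ _).trans h3.le, h3⟩

lemma wd_pos (σ : Bool) {r : ℝ} (hr : r ∈ Ioo (0 : ℝ) 1) : 0 < wd σ r := by
  cases σ
  · exact hr.1
  · exact sub_pos.2 hr.2

lemma wd_le_of_tube {k : Kind} {σ : Bool} {r : ℝ} (h : scl k * wd σ r ≤ 1 / 60) :
    wd σ r ≤ 1 / 3 := by
  rcases k with _ | _ <;> simp only [scl] at h <;> linarith

lemma zone_tube (a : Lab) (σ : Bool) {r : ℝ} (hr : r ∈ Ioo (0 : ℝ) 1)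
    (h : scl a.2 * wd σ r ≤ 1 / 60) : Zn 0 (typ a σ) fun s => nd (gam a r s) := by
  obtain ⟨e1, e2⟩ := ray_eq a σ (wd_le_of_tube h)
  obtain ⟨b1, b2, -⟩ := abs_dir_le a.2 σ (mul_pos (scl_pos a.2) (wd_pos σ hr)).le
  constructor
  · show nd _ ≤ _
    rw [e1, add_comm, nd_add_int, nd_eq_abs (by linarith)]; linarith
  · show _ ≤ nd _
    rw [e2, add_comm, nd_add_int, nd_half (by linarith)]; linarith

lemma zone_mid (a : Lab) {r : ℝ} (hr : r ∈ Ioo (0 : ℝ) 1)
    (h : ∀ σ, 1 / 60 < scl a.2 * wd σ r) : Zn (mid a.2) a.1 fun s => nd (gam a r s) := by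
  have h0 := h false
  have h1 := h true
  have hX : 1 / 60 < r → 1 / 60 < 1 - r → |nd (X1 r) - 1 / 4| ≤ 1 / 10 := fun a b => by
    have := X1_mid a.le b.le
    have h2 := abs_le.1 this
    rwa [nd_eq_abs (by rw [abs_le]; constructor <;> linarith), abs_of_pos (a := X1 r) (by linarith)]
  have hph : ∀ b : Bool, |(sz b : ℝ) * ph r / 60| ≤ 1 / 60 := fun b => by
    rw [mul_div_assoc, abs_sz_mul', abs_of_pos (by linarith [(ph_pos hr).1])]
    linarith [(ph_pos hr).2]
  rcases a with ⟨i, ⟨_ | _, b⟩ | ⟨e, b⟩⟩ <;> simp only [scl, wd, one_mul] at h0 h1 <;>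
    simp only [mid, Zn, gam, emb_0, emb_1, emb_2, cA, cB, cC]
  · refine ⟨hX h0 h1, ?_, (nd_mid b h0 h1).1⟩
    rw [nd_half (by linarith [hph b])]; linarith [hph b]
  · refine ⟨hX h0 h1, ?_, (nd_mid b h0 h1).2⟩
    rw [nd_eq_abs (by linarith [hph b])]; linarith [hph b]
  · have e1 : |(sz e : ℝ) * X2 r| = (1 - r) / 20 := by
      rw [abs_sz_mul', X2_lin (by linarith), abs_of_neg (by linarith)]; ring
    have e2 : |(sz b : ℝ) * Zf r| = r / 20 := by
      rw [abs_sz_mul', Zf_lin (by linarith), abs_of_pos (by linarith)]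
    rw [nd_half (by linarith), nd_eq_abs (by linarith), e1, e2]
    refine ⟨?_, ?_, ?_, ?_⟩ <;> linarith

lemma nd_shift {x y : E3} {k : Z3} (h : x = y + cv k) : (fun s => nd (x s)) = fun s => nd (y s) := by
  ext s; rw [h]; exact nd_add_int _ _

lemma int_eq_zero {x y : ℝ} {n : ℤ} (h : x = y + n) (hxy : |x - y| < 1) : x = y := by
  have : |(n : ℝ)| < 1 := by rwa [show (n : ℝ) = x - y by linarith]
  have h0 : n = 0 := by
    have : |n| < 1 := by exact_mod_cast this
    exact Int.abs_lt_one_iff.1 this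
  simpa [h0] using h

lemma sz_eq {b b' : Bool} {x y : ℝ} (hx : 0 < x) (hy : 0 < y) (h : sz b * x = sz b' * y) :
    b = b' ∧ x = y := by
  cases b <;> cases b' <;> simp only [sz] at h <;> push_cast at h
  · exact ⟨rfl, by linarith⟩
  · linarith
  · linarith
  · exact ⟨rfl, by linarith⟩

lemma gam_off (a : Lab) (i : Fin 3) (k : Z3) (r : ℝ) (hr : r ∈ Ioo (0 : ℝ) 1) :
    ¬ OnL i (gam a r - cv k) := by
  rintro ⟨h1, h2⟩
  simp only [Pi.sub_apply, cv_apply] at h1 h2
  have n1 : nd (gam a r (i + 1)) = 0 := by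
    rw [show gam a r (i + 1) = 0 + k (i + 1) by linarith, nd_add_int, nd_eq_abs (by simp)]; simp
  have n2 : nd (gam a r (i + 2)) = 1 / 2 := by
    rw [show gam a r (i + 2) = 1 / 2 + 0 + k (i + 2) by linarith, nd_add_int, nd_half (by simp)]
    simp
  have hz : Zn 0 i fun s => nd (gam a r s) := ⟨by simp only [n1]; norm_num, by
    simp only [n2]; norm_num⟩
  by_cases h : ∃ σ, scl a.2 * wd σ r ≤ 1 / 60
  · obtain ⟨σ, hσ⟩ := h
    obtain ⟨-, rfl⟩ := Zn_unique (zone_tube a σ hr hσ) hz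
    obtain ⟨e1, -⟩ := ray_eq a σ (wd_le_of_tube hσ)
    have hR := mul_pos (scl_pos a.2) (wd_pos σ hr)
    obtain ⟨b1, -, -⟩ := abs_dir_le a.2 σ hR.le
    rw [e1, add_comm, nd_add_int, nd_eq_abs (by linarith), abs_eq_zero] at n1
    have : ((dir a.2 σ).1 : ℝ) ≠ 0 := by exact_mod_cast (dir_ne a.2 σ).1
    have := mul_ne_zero this hR.ne'
    exact this (by linarith)
  · push Not at h
    exact mid_ne _ (Zn_unique (zone_mid a hr h) hz).1

lemma gam_inj (a b : Lab) (k : Z3) (r : ℝ) (hr : r ∈ Ioo (0 : ℝ) 1) (r' : ℝ)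
    (hr' : r' ∈ Ioo (0 : ℝ) 1) (H : gam a r = gam b r' + cv k) : a = b ∧ r = r' := by
  have hs := nd_shift H
  by_cases h : ∃ σ, scl a.2 * wd σ r ≤ 1 / 60 <;> by_cases h' : ∃ σ, scl b.2 * wd σ r' ≤ 1 / 60
  · obtain ⟨σ, hσ⟩ := h
    obtain ⟨σ', hσ'⟩ := h'
    have ht := (Zn_unique (hs ▸ zone_tube a σ hr hσ) (zone_tube b σ' hr' hσ')).2
    obtain ⟨e1, e2⟩ := ray_eq a σ (wd_le_of_tube hσ)
    obtain ⟨e1', e2'⟩ := ray_eq b σ' (wd_le_of_tube hσ')
    have hR := mul_pos (scl_pos a.2) (wd_pos σ hr)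
    have hR' := mul_pos (scl_pos b.2) (wd_pos σ' hr')
    obtain ⟨b1, b2, b3⟩ := abs_dir_le a.2 σ hR.le
    obtain ⟨b1', b2', b3'⟩ := abs_dir_le b.2 σ' hR'.le
    have H1 := congrFun H (typ a σ + 1)
    have H2 := congrFun H (typ a σ + 2)
    rw [← ht] at e1' e2'
    simp only [Pi.add_apply, cv_apply, e1, e2, e1', e2'] at H1 H2
    set R := scl a.2 * wd σ r
    set R' := scl b.2 * wd σ' r'
    have f1 : (dir a.2 σ).1 * R / 60 = (dir b.2 σ').1 * R' / 60 :=
      int_eq_zero (n := kap b σ' (typ a σ + 1) + k (typ a σ + 1) - kap a σ (typ a σ + 1))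
        (by push_cast; linarith) ((abs_sub _ _).trans_lt (by linarith))
    have f2 : (dir a.2 σ).2 * R / 60 = (dir b.2 σ').2 * R' / 60 :=
      int_eq_zero (n := kap b σ' (typ a σ + 2) + k (typ a σ + 2) - kap a σ (typ a σ + 2))
        (by push_cast; linarith) ((abs_sub _ _).trans_lt (by linarith))
    have hRR : R = R' := by rw [← b3, ← b3', f1, f2]
    rw [← hRR] at f1 f2
    have g1 : (dir a.2 σ).1 = (dir b.2 σ').1 := by
      have : ((dir a.2 σ).1 : ℝ) = (dir b.2 σ').1 := mul_right_cancel₀ hR.ne' (by linarith)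
      exact_mod_cast this
    have g2 : (dir a.2 σ).2 = (dir b.2 σ').2 := by
      have : ((dir a.2 σ).2 : ℝ) = (dir b.2 σ').2 := mul_right_cancel₀ hR.ne' (by linarith)
      exact_mod_cast this
    obtain ⟨rfl, rfl⟩ := dir_inj a b σ σ' ht (Prod.ext g1 g2)
    refine ⟨rfl, ?_⟩
    have := mul_left_cancel₀ (scl_pos a.2).ne' hRR
    cases σ <;> simp only [wd] at this <;> linarith
  · obtain ⟨σ, hσ⟩ := h
    push Not at h'
    exact absurd (Zn_unique (hs ▸ zone_tube a σ hr hσ) (zone_mid b hr' h')).1.symm (mid_ne _)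
  · obtain ⟨σ, hσ⟩ := h'
    push Not at h
    exact absurd (Zn_unique (hs ▸ zone_mid a hr h) (zone_tube b σ hr' hσ)).1 (mid_ne _)
  · push Not at h h'
    obtain ⟨hm, hi⟩ := Zn_unique (hs ▸ zone_mid a hr h) (zone_mid b hr' h')
    obtain ⟨i, p⟩ := a
    obtain ⟨j, q⟩ := b
    obtain rfl : i = j := hi
    have H0 := congrFun H i
    have H1 := congrFun H (i + 1)
    have H2 := congrFun H (i + 2)
    simp only [gam, Pi.add_apply, cv_apply, emb_0, emb_1, emb_2] at H0 H1 H2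
    have p1 := ph_pos hr
    have p2 := ph_pos hr'
    have key : ∀ (b b' : Bool) (m n : ℤ), (sz b : ℝ) * r = sz b' * r' + m →
        (sz b : ℝ) * ph r / 60 = sz b' * ph r' / 60 + n → b = b' ∧ r = r' := by
      intro b b' m n u1 u2
      have u3 := int_eq_zero u2 (by
        refine (abs_sub _ _).trans_lt ?_
        rw [mul_div_assoc, mul_div_assoc, abs_sz_mul', abs_sz_mul', abs_of_pos (by linarith),
          abs_of_pos (by linarith)]
        linarith)
      obtain ⟨rfl, -⟩ := sz_eq p1.1 p2.1 (by linarith : (sz b : ℝ) * ph r = sz b' * ph r')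
      have u4 := int_eq_zero u1 (by
        rw [← mul_sub, abs_sz_mul', abs_lt]
        constructor <;> linarith [hr.1, hr.2, hr'.1, hr'.2])
      exact sz_eq hr.1 hr'.1 u4
    have h0 := h false
    have h1 := h true
    have h0' := h' false
    have h1' := h' true
    rcases p with ⟨_ | _, b⟩ | ⟨e, b⟩ <;> rcases q with ⟨_ | _, b'⟩ | ⟨e', b'⟩ <;>
      first
      | exact absurd hm (by simp only [mid]; decide)
      | simp only [cA, cB, cC, scl, wd] at H0 H1 H2 h0 h1 h0' h1'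
    · obtain ⟨rfl, rfl⟩ := key b b' _ (k (i + 2)) H1 (by linarith)
      exact ⟨rfl, rfl⟩
    · obtain ⟨rfl, rfl⟩ := key b b' (k (i + 2)) _ (by linarith) H1
      exact ⟨rfl, rfl⟩
    · rw [X2_lin (by linarith), X2_lin (by linarith)] at H0
      rw [Zf_lin (by linarith), Zf_lin (by linarith)] at H1
      have u1 := int_eq_zero H1 (by
        refine (abs_sub _ _).trans_lt ?_
        rw [abs_sz_mul', abs_sz_mul', abs_of_pos (by linarith), abs_of_pos (by linarith)]
        linarith)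
      have u2 := int_eq_zero (x := sz e * ((1 - r) / 20)) (y := sz e' * ((1 - r') / 20))
        (n := -k i) (by push_cast; linarith) (by
        refine (abs_sub _ _).trans_lt ?_
        rw [abs_sz_mul', abs_sz_mul', abs_of_pos (by linarith), abs_of_pos (by linarith)]
        linarith)
      obtain ⟨rfl, v1⟩ := sz_eq (by linarith) (by linarith) u1
      obtain ⟨rfl, -⟩ := sz_eq (by linarith) (by linarith) u2
      exact ⟨rfl, by linarith⟩

end Pool.Agent.MP_4d76c1_gt
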