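import Mathlib
import Pool.Agent.MP_4d76c1_gt.Geom
import Pool.Agent.MP_4d76c1_gt.Assemble

open Set Filter Topology Function
open scoped ContDiff

namespace Pool.Agent.MP_4d76c1_gt

/-- the vector field in the tubes -/
noncomputable def Wf (i : Fin 3) (y : E3) : E3 :=
  emb i 1 (1080000 * y (i + 1) * (y (i + 2) - 1 / 2) * y (i + 1))
    (1080000 * y (i + 1) * (y (i + 2) - 1 / 2) * (y (i + 2) - 1 / 2))

lemma Wf_smooth (i : Fin 3) : ContDiff ℝ ∞ (Wf i) := by
  refine contDiff_pi.2 fun s => ?_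
  rcases fin3_cases i s with rfl | rfl | rfl
  · simp only [Wf, emb_0]; fun_prop
  · simp only [Wf, emb_1]; fun_prop
  · simp only [Wf, emb_2]; fun_prop

lemma isOpen_wd (σ : Bool) (δ : ℝ) : IsOpen {r | wd σ r ∈ Ioo 0 δ} := by
  refine isOpen_Ioo.preimage ?_
  cases σ
  · exact continuous_id
  · exact continuous_const.sub continuous_id

lemma gam_tangent (a : Lab) (σ : Bool) : ∀ᶠ r in lf σ,
    deriv (gam a) r = deriv (gam a) r (typ a σ) • Wf (typ a σ) (gam a r - cv (kap a σ)) := by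
  filter_upwards [wd_small σ (show (0 : ℝ) < 1 / 6 by norm_num), Ioo_mem_lf σ] with r hr hr1
  have hev : ∀ᶠ s in 𝓝 r, wd σ s ∈ Ioo 0 (1 / 6 : ℝ) := (isOpen_wd σ _).mem_nhds hr
  have hd := ((gam_smooth a hr1).differentiableAt (by simp)).hasDerivAt
  have hc : ∀ s, HasDerivAt (fun r => gam a r s) (deriv (gam a) r s) r := hasDerivAt_pi.1 hd
  set P : ℝ := (((dir a.2 σ).1 : ℤ) : ℝ) with hP
  set Q : ℝ := (((dir a.2 σ).2 : ℤ) : ℝ) with hQ
  have hP0 : P ≠ 0 := by rw [hP]; exact_mod_cast (dir_ne a.2 σ).1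
  have hQ0 : Q ≠ 0 := by rw [hQ]; exact_mod_cast (dir_ne a.2 σ).2
  have hs0 := (scl_pos a.2).ne'
  have hw := wd_deriv σ r
  have hw0 := hr.1.ne'
  have d0 : deriv (gam a) r (typ a σ) =
      -(-(2 * -(sz σ : ℝ)) / ((600 * P * Q * scl a.2 ^ 2) * wd σ r ^ 3)) := by
    refine (hc _).unique (((hasDerivAt_inv_sq _ hw (by positivity) hw0).const_sub
      (cst a.2 σ)).congr_of_eventuallyEq ?_)
    filter_upwards [hev] with s hs using axis_eq a σ hs.1 hs.2.le
  have d1 : deriv (gam a) r (typ a σ + 1) = P * (scl a.2 * -(sz σ : ℝ)) / 60 := by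
    refine (hc _).unique (((((hw.const_mul (scl a.2)).const_mul P).div_const 60).const_add
      (kap a σ (typ a σ + 1) : ℝ)).congr_of_eventuallyEq ?_)
    filter_upwards [hev] with s hs using (ray_eq a σ (by linarith [hs.2])).1
  have d2 : deriv (gam a) r (typ a σ + 2) = Q * (scl a.2 * -(sz σ : ℝ)) / 60 := by
    refine (hc _).unique ((((((hw.const_mul (scl a.2)).const_mul Q).div_const 60).const_add
      (1 / 2)).const_add (kap a σ (typ a σ + 2) : ℝ)).congr_of_eventuallyEq ?_)
    filter_upwards [hev] with s hs using (ray_eq a σ (by linarith [hs.2])).2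
  obtain ⟨e1, e2⟩ := ray_eq a σ (r := r) (by linarith [hr.2])
  refine ext3 (typ a σ) ?_ ?_ ?_
  · simp [Wf]
  · simp only [Wf, Pi.smul_apply, emb_1, smul_eq_mul, Pi.sub_apply, cv_apply, e1, e2, d0, d1,
      ← hP, ← hQ]
    field_simp; ring
  · simp only [Wf, Pi.smul_apply, emb_2, smul_eq_mul, Pi.sub_apply, cv_apply, e1, e2, d0, d2,
      ← hP, ← hQ]
    field_simp; ring

lemma wd_tendsto' (σ : Bool) : Tendsto (wd σ) (lf σ) (𝓝 0) :=
  (wd_tendsto σ).mono_right nhdsWithin_le_nhds

lemma gam_conv1 (a : Lab) (σ : Bool) :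
    Tendsto (fun r => gam a r (typ a σ + 1)) (lf σ) (𝓝 (kap a σ (typ a σ + 1))) := by
  have h := ((((wd_tendsto' σ).const_mul (scl a.2)).const_mul ((dir a.2 σ).1 : ℝ)).div_const
    60).const_add (kap a σ (typ a σ + 1) : ℝ)
  simp only [mul_zero, zero_div, add_zero] at h
  refine h.congr' ?_
  filter_upwards [wd_small σ (show (0 : ℝ) < 1 / 3 by norm_num)] with r hr
  exact (ray_eq a σ hr.2.le).1.symm

lemma gam_conv2 (a : Lab) (σ : Bool) :
    Tendsto (fun r => gam a r (typ a σ + 2)) (lf σ) (𝓝 (kap a σ (typ a σ + 2) + 1 / 2)) := by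
  have h := (((((wd_tendsto' σ).const_mul (scl a.2)).const_mul ((dir a.2 σ).2 : ℝ)).div_const
    60).const_add (1 / 2)).const_add (kap a σ (typ a σ + 2) : ℝ)
  simp only [mul_zero, zero_div, add_zero] at h
  refine h.congr' ?_
  filter_upwards [wd_small σ (show (0 : ℝ) < 1 / 3 by norm_num)] with r hr
  exact (ray_eq a σ hr.2.le).2.symm

lemma gam_bot (a : Lab) (σ : Bool) (h : 0 < (dir a.2 σ).1 * (dir a.2 σ).2) :
    Tendsto (fun r => gam a r (typ a σ)) (lf σ) atBot := by
  have h' : (0 : ℝ) < (dir a.2 σ).1 * (dir a.2 σ).2 := by exact_mod_cast h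
  have hs := scl_pos a.2
  have h1 := inv_sq_tendsto σ (C := 600 * (dir a.2 σ).1 * (dir a.2 σ).2 * scl a.2 ^ 2)
    (by rw [mul_assoc 600]; positivity)
  refine (tendsto_atBot_add_const_left _ (cst a.2 σ) (tendsto_neg_atTop_atBot.comp h1)).congr' ?_
  filter_upwards [wd_small σ (show (0 : ℝ) < 1 / 6 by norm_num)] with r hr
  rw [axis_eq a σ hr.1 hr.2.le]; simp only [comp_apply]; ring

lemma gam_top (a : Lab) (σ : Bool) (h : (dir a.2 σ).1 * (dir a.2 σ).2 < 0) :
    Tendsto (fun r => gam a r (typ a σ)) (lf σ) atTop := by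
  have h' : (0 : ℝ) < -((dir a.2 σ).1 * (dir a.2 σ).2) := by exact_mod_cast neg_pos.2 h
  have hs := scl_pos a.2
  have h1 := inv_sq_tendsto σ (C := 600 * -((dir a.2 σ).1 * (dir a.2 σ).2) * scl a.2 ^ 2)
    (by positivity)
  refine (tendsto_atTop_add_const_left _ (cst a.2 σ) h1).congr' ?_
  filter_upwards [wd_small σ (show (0 : ℝ) < 1 / 6 by norm_num)] with r hr
  rw [axis_eq a σ hr.1 hr.2.le, sub_eq_add_neg, ← div_neg]
  congr 2; ring

lemma gam_escape (a : Lab) (σ : Bool) : Tendsto (fun r => gam a r (typ a σ)) (lf σ) atTop ∨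
    Tendsto (fun r => gam a r (typ a σ)) (lf σ) atBot := by
  rcases lt_or_gt_of_ne (mul_ne_zero (dir_ne a.2 σ).1 (dir_ne a.2 σ).2) with h | h
  · exact Or.inl (gam_top a σ h)
  · exact Or.inr (gam_bot a σ h)

/-- the index of the transversal direction of a homoclinic channel -/
def jd (i : Fin 3) : Bool → Fin 3
  | false => i + 1
  | true => i + 2

lemma jd_ne : ∀ (i : Fin 3) (d : Bool), i ≠ jd i d := by decide

/-- interpolating coordinate on heteroclinic channels -/
noncomputable def tau (i : Fin 3) (e h : Bool) (x : E3) : ℝ :=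
  (1 - th (20 * (sz h * x (i + 1)))) * (sz e * (x i - 1 / 2)) +
    th (20 * (sz h * x (i + 1))) * (sz h * x (i + 1))

@[fun_prop] lemma tau_smooth (i : Fin 3) (e h : Bool) : ContDiff ℝ ∞ (tau i e h) := by
  unfold tau; fun_prop

/-- left inverses of the channels -/
noncomputable def pif : Lab → E3 → ℝ
  | (i, Sum.inl (false, h)), x => sz h * x (i + 1)
  | (i, Sum.inl (true, h)), x => sz h * (x (i + 2) - 1 / 2)
  | (i, Sum.inr (e, h)), x => (1 - th (20 * (sz h * x (i + 1)))) * (20 * (sz h * x (i + 1))) +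
      th (20 * (sz h * x (i + 1))) * (1 + 20 * (sz e * (x i - 1 / 2)))

/-- arclength functions of the channels -/
noncomputable def sigf : Lab → E3 → ℝ
  | (i, Sum.inl _), x => x i + Real.smoothTransition (x i)
  | (i, Sum.inr (e, h)), x => sf (sz e) (tau i e h x)

/-- calibrating functions near the channels -/
noncomputable def Ff : Lab → Sgn → E3 → ℝ
  | (i, Sum.inl (d, h)), l, x =>
      sz (l i) * x i + sz (l (jd i d)) * sz h * Real.smoothTransition (x i)
  | (i, Sum.inr (e, h)), l, x =>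
      hf (sz (l i) * sz e) (sz (l (i + 1)) * sz h) (sf (sz e) (tau i e h x))

lemma st_smooth : ContDiff ℝ ∞ Real.smoothTransition := Real.smoothTransition.contDiff

lemma pif_smooth (a : Lab) : ContDiff ℝ ∞ (pif a) := by
  rcases a with ⟨i, ⟨_ | _, h⟩ | ⟨e, h⟩⟩ <;> unfold pif <;> fun_prop

lemma sigf_smooth (a : Lab) : ContDiff ℝ ∞ (sigf a) := by
  rcases a with ⟨i, _ | ⟨e, h⟩⟩
  · exact (contDiff_apply ℝ ℝ i).add (st_smooth.comp (contDiff_apply ℝ ℝ i))
  · exact (sf_smooth _).comp (tau_smooth _ _ _)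

lemma Ff_smooth (a : Lab) (l : Sgn) : ContDiff ℝ ∞ (Ff a l) := by
  rcases a with ⟨i, ⟨d, h⟩ | ⟨e, h⟩⟩
  · exact (contDiff_const.mul (contDiff_apply ℝ ℝ i)).add
      (contDiff_const.mul (st_smooth.comp (contDiff_apply ℝ ℝ i)))
  · exact (hf_smooth _ _).comp ((sf_smooth _).comp (tau_smooth _ _ _))

lemma sz_cancel (b : Bool) (x : ℝ) : (sz b : ℝ) * (sz b * x) = x := by
  rw [← mul_assoc, sz_sq, one_mul]

lemma pif_gam (a : Lab) (r : ℝ) (hr : r ∈ Ioo (0 : ℝ) 1) : pif a (gam a r) = r := by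
  rcases a with ⟨i, ⟨_ | _, h⟩ | ⟨e, h⟩⟩ <;>
    simp only [pif, gam, cA, cB, cC, emb_0, emb_1, emb_2, add_sub_cancel_left, sz_cancel]
  rw [th_Zf hr.2]
  rcases le_total r (1 / 3) with h1 | h1
  · rw [th_zero h1, Zf_lin (by linarith)]; ring
  rcases le_total r (2 / 3) with h2 | h2
  · rw [X2_lin h1, Zf_lin h2]; ring
  · rw [th_one h2, X2_lin h1]; ring

lemma fderiv_scomp {g : ℝ → ℝ} {φ : E3 → ℝ} {d : ℝ} {y : E3} (hg : HasDerivAt g d (φ y))
    (hφ : DifferentiableAt ℝ φ y) (v : E3) :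
    fderiv ℝ (fun x => g (φ x)) y v = d * fderiv ℝ φ y v := by
  have := (hg.comp_hasFDerivAt y hφ.hasFDerivAt).fderiv
  exact congrArg (fun L : E3 →L[ℝ] ℝ => L v) this

lemma st_deriv (t : ℝ) : ∃ d, 0 ≤ d ∧ HasDerivAt Real.smoothTransition d t :=
  ⟨_, Real.smoothTransition.monotone.deriv_nonneg,
    ((st_smooth.differentiable (by simp)) t).hasDerivAt⟩

lemma Ff_le (a : Lab) (l : Sgn) (y v : E3) :
    |fderiv ℝ (Ff a l) y v| ≤ |fderiv ℝ (sigf a) y v| := by
  rcases a with ⟨i, ⟨d, h⟩ | ⟨e, h⟩⟩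
  · obtain ⟨c, hc, hd⟩ := st_deriv (y i)
    have hφ : DifferentiableAt ℝ (fun x : E3 => x i) y := by fun_prop
    have e1 := fderiv_scomp (g := fun t => (sz (l i) : ℝ) * t +
      sz (l (jd i d)) * sz h * Real.smoothTransition t) (φ := fun x : E3 => x i)
      (((hasDerivAt_id' (y i)).const_mul _).fun_add (hd.const_mul _)) hφ v
    have e2 := fderiv_scomp (g := fun t => t + Real.smoothTransition t) (φ := fun x : E3 => x i)
      ((hasDerivAt_id' (y i)).fun_add hd) hφ v
    refine le_trans (le_of_eq (congrArg abs e1)) (le_trans ?_ (le_of_eq (congrArg abs e2).symm))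
    rw [abs_mul, abs_mul (1 + c)]
    refine mul_le_mul_of_nonneg_right ?_ (abs_nonneg _)
    refine (abs_add_le _ _).trans ?_
    rw [abs_sz_mul', mul_assoc, abs_sz_mul', abs_sz_mul', abs_of_nonneg hc,
      abs_of_nonneg (by linarith : 0 ≤ 1 + c), abs_one]
  · obtain ⟨c, hc, hd⟩ := hf_deriv (k0 := sz (l i) * sz e) (k1 := sz (l (i + 1)) * sz h)
      (by rw [abs_sz_mul', abs_sz]) (by rw [abs_sz_mul', abs_sz]) (sigf (i, Sum.inr (e, h)) y)
    have e1 := fderiv_scomp hd (((sigf_smooth _).differentiable (by simp)) y) v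
    refine le_trans (le_of_eq (congrArg abs e1)) ?_
    rw [abs_mul]
    exact mul_le_of_le_one_left (abs_nonneg _) hc

lemma sigf_pos (a : Lab) (r : ℝ) (hr : r ∈ Ioo (0 : ℝ) 1) :
    0 < fderiv ℝ (sigf a) (gam a r) (deriv (gam a) r) := by
  have h1 : HasDerivAt (fun r => sigf a (gam a r))
      (fderiv ℝ (sigf a) (gam a r) (deriv (gam a) r)) r :=
    (((sigf_smooth a).differentiable (by simp)) _).hasFDerivAt.comp_hasDerivAt r
      ((gam_smooth a hr).differentiableAt (by simp)).hasDerivAt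
  suffices H : ∃ d, 0 < d ∧ HasDerivAt (fun r => sigf a (gam a r)) d r by
    obtain ⟨d, hd, h2⟩ := H
    rwa [h1.unique h2]
  rcases a with ⟨i, p | ⟨e, h⟩⟩
  · obtain ⟨d, hd, hX⟩ := X1_deriv hr
    obtain ⟨c, hc, hs⟩ := st_deriv (X1 r)
    refine ⟨d + c * d, by positivity, ?_⟩
    simp only [sigf, gam, cA, emb_0]
    exact hX.fun_add (hs.comp r hX)
  · obtain ⟨d0, hd0, hX⟩ := X2_deriv hr.1
    obtain ⟨d1, hd1, hZ⟩ := Zf_deriv hr.2
    obtain ⟨c, hc, hθ⟩ := th_deriv r
    obtain ⟨d, hd, hT⟩ := interp_pos hX hZ hθ hd0 hd1 hc (th_nonneg r) (th_le_one r) (by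
      have := X2_le hr.1
      have := Zf_ge hr.2
      linarith [hr.1, hr.2])
    obtain ⟨d', hd', hs⟩ := sf_deriv (e := sz e) (abs_sz e).le
      ((1 - th r) * X2 r + th r * Zf r)
    refine ⟨d' * d, by positivity, (hs.comp r hT).congr_of_eventuallyEq ?_⟩
    filter_upwards [isOpen_Ioo.mem_nhds hr] with s hs
    simp only [sigf, tau, gam, cA, cB, emb_0, emb_1, add_sub_cancel_left, sz_cancel, comp_apply,
      th_Zf hs.2]

lemma germ_of_open {γ : ℝ → E3} {l : Filter ℝ} {U : Set E3} (hU : IsOpen U)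
    (h : ∀ᶠ r in l, γ r ∈ U) {f g : E3 → ℝ} (hfg : ∀ x ∈ U, f x = g x) :
    ∀ᶠ r in l, f =ᶠ[𝓝 (γ r)] g := by
  filter_upwards [h] with r hr
  filter_upwards [hU.mem_nhds hr] with x hx using hfg x hx

lemma dot_zero (l : Sgn) : dot l (cv 0) = 0 := by simp [dot]

lemma Ff_germ (a : Lab) (σ : Bool) (l : Sgn) : ∀ᶠ r in lf σ, Ff a l =ᶠ[𝓝 (gam a r)]
    fun x => (sz (l (typ a σ)) : ℝ) * (x - cv (kap a σ)) (typ a σ) + dot l (cv (kap a σ)) := by
  rcases a with ⟨i, ⟨d, h⟩ | ⟨e, h⟩⟩ <;> cases σ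
  · have h1 := gam_bot (i, Sum.inl (d, h)) false
      (show 0 < (dir (Sum.inl (d, h)) false).1 * (dir (Sum.inl (d, h)) false).2 by
        cases d <;> cases h <;> decide)
    refine germ_of_open (U := {x | x i < 0}) (isOpen_lt (by fun_prop) continuous_const)
      (h1.eventually (eventually_lt_atBot 0)) fun x hx => ?_
    have : kap (i, Sum.inl (d, h)) false = 0 := by cases d <;> rfl
    simp only [Ff, this, typ, dot_zero, Real.smoothTransition.zero_of_nonpos (le_of_lt hx)]
    simp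
  · have h1 := gam_top (i, Sum.inl (d, h)) true
      (show (dir (Sum.inl (d, h)) true).1 * (dir (Sum.inl (d, h)) true).2 < 0 by
        cases d <;> cases h <;> decide)
    refine germ_of_open (U := {x | 1 < x i}) (isOpen_lt continuous_const (by fun_prop))
      (h1.eventually (eventually_gt_atTop 1)) fun x hx => ?_
    have : kap (i, Sum.inl (d, h)) true = ev (jd i d) (sz h) := by cases d <;> rfl
    have h2 : i ≠ jd i d := jd_ne i d
    simp only [Ff, this, typ, dot_ev, Real.smoothTransition.one_of_one_le (le_of_lt hx)]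
    simp [ev, h2]
  · refine germ_of_open
      (U := {x | 20 * (sz h * x (i + 1)) < 1 / 3} ∩ {x | sz e * (x i - 1 / 2) < -(NR + 2)})
      ((isOpen_lt (by fun_prop) continuous_const).inter (isOpen_lt (by fun_prop) continuous_const))
      ?_ fun x hx => ?_
    · filter_upwards [wd_small false (show (0 : ℝ) < 1 / 6 by norm_num),
        (inv_sq_tendsto false (C := 2700) (by norm_num)).eventually (eventually_gt_atTop (NR + 2))]
        with r h1 h2
      simp only [wd] at h1 h2
      simp only [gam, cA, cB, mem_inter_iff, mem_ofPred_eq, emb_0, emb_1, add_sub_cancel_left,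
        sz_cancel]
      rw [Zf_lin (by linarith [h1.2]), X2_tail h1.2.le]
      constructor <;> linarith [h1.2]
    · obtain ⟨h1, h2⟩ := hx
      simp only [mem_ofPred_eq] at h1 h2
      have e1 : tau i e h x = sz e * (x i - 1 / 2) := by
        unfold tau; rw [th_zero h1.le]; ring
      have e2 := abs_le.1 (abs_sz e).le
      simp only [Ff, kap, typ, dot_zero, e1, hf]
      rw [sf_neg (by linarith), Nf_neg (by linarith)]
      have := sz_sq e
      simp only [cv_zero, sub_zero, add_zero]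
      linear_combination (sz (l i) * x i) * this
  · refine germ_of_open
      (U := {x | 2 / 3 < 20 * (sz h * x (i + 1))} ∩ {x | NR + 2 < sz h * x (i + 1)})
      ((isOpen_lt continuous_const (by fun_prop)).inter (isOpen_lt continuous_const (by fun_prop)))
      ?_ fun x hx => ?_
    · filter_upwards [wd_small true (show (0 : ℝ) < 1 / 6 by norm_num),
        (inv_sq_tendsto true (C := 2700) (by norm_num)).eventually (eventually_gt_atTop (NR + 2))]
        with r h1 h2
      simp only [wd] at h1 h2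
      simp only [gam, cB, mem_inter_iff, mem_ofPred_eq, emb_1, sz_cancel]
      have := Zf_ge (r := r) (by linarith [h1.1])
      refine ⟨by linarith [h1.2], ?_⟩
      unfold Zf
      rw [X2_tail h1.2.le]
      linarith
    · obtain ⟨h1, h2⟩ := hx
      simp only [mem_ofPred_eq] at h1 h2
      have e1 : tau i e h x = sz h * x (i + 1) := by
        unfold tau; rw [th_one h1.le]; ring
      simp only [Ff, kap, typ, dot_zero, e1, hf]
      rw [sf_pos (by linarith), Nf_pos (by linarith)]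
      have := sz_sq h
      simp only [cv_zero, sub_zero, add_zero]
      linear_combination (sz (l (i + 1)) * x (i + 1)) * this

lemma sz_not (b : Bool) : sz (!b) = -sz b := by cases b <;> rfl

/-- the explicit family of channels -/
noncomputable def chan : Chan Lab where
  γ := gam
  π := pif
  sig := sigf
  F := Ff
  typ := typ
  κ := kap
  W := Wf
  γ_smooth := fun a _ hr => gam_smooth a hr
  π_smooth := pif_smooth
  sig_smooth := sigf_smooth
  F_smooth := Ff_smooth
  W_smooth := Wf_smooth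
  W_inv := fun i y y' h1 h2 => by simp only [Wf, h1, h2]
  W_line := fun i y hy => by
    refine ext3 i ?_ ?_ ?_
    · simp [Wf]
    · simp [Wf, hy.1, fin3_ne1]
    · simp [Wf, hy.1, fin3_ne2]
  π_γ := pif_gam
  dF := Ff_le
  dS := sigf_pos
  tangent := gam_tangent
  germ := Ff_germ
  conv1 := gam_conv1
  conv2 := gam_conv2
  escape := gam_escape
  inj := fun a b k r hr r' hr' H => gam_inj a b k r hr r' hr' H
  off := gam_off
  hom := fun l i j hij => by
    obtain ⟨d, rfl⟩ : ∃ d, j = jd i d := by revert i j; decide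
    have hk : ∀ h, kap (i, Sum.inl (d, h)) true = ev (jd i d) (sz h) := fun h => by
      cases d <;> rfl
    have hk0 : ∀ h, kap (i, Sum.inl (d, h)) false = 0 := fun h => by cases d <;> rfl
    rcases hl : l i with _ | _
    · refine ⟨(i, Sum.inl (d, !l (jd i d))), false, rfl, rfl, ?_, 0, fun r _ => ?_⟩
      · rw [Bool.not_false, hk, hk0, ← ev_add, sz_not]; simp
      · have h1 : ∀ b : Bool, (sz b : ℝ) * sz (!b) = -1 := fun b => by cases b <;> simp [sz]
        simp only [Ff, sigf, hl, h1]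
        simp only [sz]
        push_cast
        ring
    · refine ⟨(i, Sum.inl (d, l (jd i d))), true, rfl, rfl, ?_, 0, fun r _ => ?_⟩
      · rw [Bool.not_true, hk, hk0, zero_add]
      · have := sz_sq (l (jd i d))
        simp only [Ff, sigf, hl, this]
        simp [sz]
  het := fun l i j hij => by
    rcases fin3_cases i j with rfl | rfl | rfl
    · exact absurd rfl hij
    · refine ⟨(i, Sum.inr (l i, l (i + 1))), true, rfl, rfl, rfl, 0, fun r _ => ?_⟩
      simp only [Ff, sigf, sz_sq, hf]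
      simp [sz]
    · refine ⟨(i + 2, Sum.inr (!l (i + 2), !l i)), false, fin3_c i, rfl, rfl, 0, fun r _ => ?_⟩
      have h1 : ∀ b : Bool, (sz b : ℝ) * sz (!b) = -1 := fun b => by cases b <;> simp [sz]
      simp only [Ff, sigf, fin3_c, h1, hf]
      simp [sz]

end Pool.Agent.MP_4d76c1_gt
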