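import Mathlib

open Set MeasureTheory

namespace Pool.Agent.MP_4d76c1_gt

/-- The Riemannian distance on `ℝ³` of the metric tensor `g = (g i j)`: the infimum of the lengths
`∫₀¹ √(∑ g i j (γ t) γ'ᵢ(t) γ'ⱼ(t)) dt` of the `C¹` paths `γ : [0,1] → ℝ³` from `x` to `y`. -/
noncomputable def tensorDist (g : Fin 3 → Fin 3 → (Fin 3 → ℝ) → ℝ) (x y : Fin 3 → ℝ) : ENNReal :=
  ⨅ (γ : ℝ → Fin 3 → ℝ) (_ : ContDiffOn ℝ 1 γ (Icc 0 1)) (_ : γ 0 = x) (_ : γ 1 = y),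
    ∫⁻ t in Icc (0 : ℝ) 1,
      ENNReal.ofReal (Real.sqrt (∑ i, ∑ j, g i j (γ t) * deriv γ t i * deriv γ t j))

end Pool.Agent.MP_4d76c1_gt
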