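import Mathlib
import Pool.Agent.MP_4d76c1_gt.TensorDist
import Pool.Agent.MP_4d76c1_gt.Inst

namespace Pool.Agent.MP_4d76c1_gt

lemma bil_expand (Q : Bil) (v w : E3) :
    ∑ i, ∑ j, Q (Pi.single i 1) (Pi.single j 1) * v i * w j = Q v w := by
  conv_rhs => rw [pi_eq_sum_univ' v, pi_eq_sum_univ' w]
  simp only [map_sum, map_smul, sum_apply, smul_apply, smul_eq_mul, Finset.mul_sum]
  rw [Finset.sum_comm]
  refine Finset.sum_congr rfl fun i _ => Finset.sum_congr rfl fun j _ => ?_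
  ring

theorem main_tensor :
    ∃ g : Fin 3 → Fin 3 → (Fin 3 → ℝ) → ℝ,
      (∀ (i j : Fin 3) (n : ℕ), ContDiff ℝ n (g i j)) ∧ (∀ i j, g i j = g j i) ∧
      (∀ x v : Fin 3 → ℝ, v ≠ 0 → 0 < ∑ i, ∑ j, g i j x * v i * v j) ∧
      (∀ (i j : Fin 3) (x : Fin 3 → ℝ) (k : Fin 3 → ℤ),
        g i j (fun r => x r + (k r : ℝ)) = g i j x) ∧
      ∃ S : Set (ℝ → Fin 3 → AddCircle (1 : ℝ)), S.Finite ∧
        ∀ c : ℝ → Fin 3 → ℝ, (∀ s t, tensorDist g (c s) (c t) = ENNReal.ofReal |t - s|) →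
          ∃ c₀ ∈ S, ∃ a b : ℝ, (a = 1 ∨ a = -1) ∧
            ∀ t i, ((c t i : ℝ) : AddCircle (1 : ℝ)) = c₀ (a * t + b) i := by
  obtain ⟨G, hG, hs, hp, hper, S, hS, hSf⟩ := chan.main
  have hd : tensorDist (fun i j x => G x (Pi.single i 1) (Pi.single j 1)) = riemDist G := by
    ext x y
    simp only [tensorDist, riemDist, bil_expand]
  refine ⟨fun i j x => G x (Pi.single i 1) (Pi.single j 1), fun i j n => ?_,
    fun i j => funext fun x => hs x _ _, fun x v hv => ?_, fun i j x k => ?_,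
    (fun f t i => ((f t i : ℝ) : AddCircle (1 : ℝ))) '' S, hS.image _, fun c hc => ?_⟩
  · exact ((hG.clm_apply contDiff_const).clm_apply contDiff_const).of_le
      (by exact_mod_cast le_top)
  · rw [bil_expand]; exact hp x v hv
  · exact congrArg (fun Q : Bil => Q (Pi.single i 1) (Pi.single j 1)) (hper x k)
  rw [hd] at hc
  obtain ⟨c₀, h0, a, b, k, ha, hk⟩ := hSf c hc
  refine ⟨_, Set.mem_image_of_mem _ h0, a, b, ha, fun t i => ?_⟩
  rw [hk t]
  have : ((k i : ℝ) : AddCircle (1 : ℝ)) = 0 := by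
    rw [AddCircle.coe_eq_zero_iff]
    exact ⟨k i, by simp⟩
  simp [this]

end Pool.Agent.MP_4d76c1_gt
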